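import Pool.Agent.MP_ca0a54_nt.L0.Defs

/-!
Basic bounds for `zf w = ζ(1/2 + i w)`.
-/

open Complex Filter Topology

namespace Pool.Agent.MP_ca0a54_nt.L0

namespace ZetaA

lemma re_arg (w : ℂ) : (1 / 2 + I * w : ℂ).re = 1 / 2 - w.im := by
  simp [sub_eq_add_neg]

lemma im_arg (w : ℂ) : (1 / 2 + I * w : ℂ).im = w.re := by
  simp

/-- The constant `∑ n ^ (-5/4)`. -/
noncomputable def Z : ℝ := ∑' n : ℕ, ‖LSeries.term 1 (5 / 4 : ℝ) n‖

lemma summable_Z : Summable fun n : ℕ => ‖LSeries.term 1 (5 / 4 : ℝ) n‖ := by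
  have : LSeriesSummable 1 ((5 / 4 : ℝ) : ℂ) := LSeriesSummable_one_iff.2 (by simp; norm_num)
  exact summable_norm_iff.2 this

lemma Z_nonneg : 0 ≤ Z := tsum_nonneg fun _ => norm_nonneg _

lemma norm_LSeries_le (f : ℕ → ℂ) (hf : ∀ n, ‖f n‖ ≤ 1) (s : ℂ) (hs : 5 / 4 ≤ s.re) :
    ‖LSeries f s‖ ≤ Z := by
  refine tsum_of_norm_bounded summable_Z.hasSum fun n => ?_
  refine (LSeries.norm_term_le (g := 1) s (by simpa using hf n)).trans ?_
  exact LSeries.norm_term_le_of_re_le_re 1 (by simpa using hs) n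

lemma inv_zeta_eq (s : ℂ) (hs : 1 < s.re) :
    (riemannZeta s)⁻¹ = LSeries (fun n => ((ArithmeticFunction.moebius n : ℤ) : ℂ)) s := by
  have h := LSeries_one_mul_Lseries_moebius hs
  rw [LSeries_one_eq_riemannZeta hs] at h
  exact inv_eq_of_mul_eq_one_right h

lemma zeta_right (s : ℂ) (hs : 5 / 4 ≤ s.re) :
    riemannZeta s ≠ 0 ∧ ‖riemannZeta s‖ ≤ Z ∧ ‖(riemannZeta s)⁻¹‖ ≤ Z := by
  have h1 : 1 < s.re := by linarith
  refine ⟨riemannZeta_ne_zero_of_one_lt_re h1, ?_, ?_⟩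
  · rw [← LSeries_one_eq_riemannZeta h1]
    exact norm_LSeries_le _ (by simp) s hs
  · rw [inv_zeta_eq s h1]
    refine norm_LSeries_le _ (fun n => ?_) s hs
    have := ArithmeticFunction.abs_moebius_le_one (n := n)
    rw [Complex.norm_intCast]
    exact_mod_cast this

/-- `x ^ c` for positive real `x`. -/
noncomputable def pw (c : ℂ) (x : ℝ) : ℂ := exp (c * (Real.log x : ℂ))

lemma norm_pw (c : ℂ) {x : ℝ} (hx : 0 < x) : ‖pw c x‖ = x ^ c.re := by
  simp [pw, Complex.norm_exp, Real.rpow_def_of_pos hx, mul_comm]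

lemma pw_eq (c : ℂ) {x : ℝ} (hx : 0 < x) : pw c x = (x : ℂ) ^ c := by
  rw [pw, Complex.cpow_def_of_ne_zero (by exact_mod_cast hx.ne'), Complex.ofReal_log hx.le,
    mul_comm]

lemma hasDerivAt_pw (c : ℂ) {x : ℝ} (hx : 0 < x) :
    HasDerivAt (pw c) (c * pw (c - 1) x) x := by
  have h := (((Real.hasDerivAt_log hx.ne').ofReal_comp).const_mul c).cexp
  refine h.congr_deriv ?_
  have : pw (c - 1) x = exp (c * (Real.log x : ℂ)) * ((x⁻¹ : ℝ) : ℂ) := by
    rw [pw, sub_mul, exp_sub, one_mul, ← Complex.ofReal_exp, Real.exp_log hx, div_eq_mul_inv,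
      Complex.ofReal_inv]
  rw [this]; ring

/-- The terms of the continuation of `(s - 1) ζ(s) - 1`. -/
noncomputable def tm (n : ℕ) (s : ℂ) : ℂ :=
  (s - 1) * pw (-s) (n + 1) - pw (1 - s) (n + 1) + pw (1 - s) (n + 1 + 1)

lemma norm_tm_le (n : ℕ) (s : ℂ) (hs : 1 / 4 ≤ s.re) :
    ‖tm n s‖ ≤ ‖s - 1‖ * ‖s‖ * ‖LSeries.term 1 (5 / 4 : ℝ) (n + 1)‖ := by
  set m : ℝ := n + 1 with hm
  have hm1 : 1 ≤ m := by rw [hm]; linarith [Nat.cast_nonneg (α := ℝ) n]
  set B : ℝ := ‖LSeries.term 1 (5 / 4 : ℝ) (n + 1)‖ with hB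
  have hBm : B = m ^ (-(5 / 4) : ℝ) := by
    rw [hB, LSeries.norm_term_eq, if_neg (by omega), Real.rpow_neg (by linarith)]
    simp [hm]
  have h1 : ∀ x ∈ Set.Icc m (m + 1), ‖pw (-s) x - pw (-s) m‖ ≤ ‖s‖ * B := by
    intro x hx
    have := norm_image_sub_le_of_norm_deriv_le_segment' (f := pw (-s))
      (f' := fun x => -s * pw (-s - 1) x) (a := m) (b := m + 1) (C := ‖s‖ * B)
      (fun y hy => (hasDerivAt_pw (-s) (by linarith [hy.1])).hasDerivWithinAt)
      (fun y hy => by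
        rw [norm_mul, norm_neg, norm_pw _ (by linarith [hy.1]), hBm]
        refine mul_le_mul_of_nonneg_left ?_ (norm_nonneg _)
        calc y ^ (-s - 1).re ≤ y ^ (-(5 / 4) : ℝ) :=
              Real.rpow_le_rpow_of_exponent_le (by linarith [hy.1]) (by simp; linarith)
          _ ≤ m ^ (-(5 / 4) : ℝ) :=
              Real.rpow_le_rpow_of_nonpos (by linarith) hy.1 (by norm_num)) x hx
    refine this.trans ?_
    have h0 : 0 ≤ ‖s‖ * B := by positivity
    nlinarith [hx.1, hx.2]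
  have h2 := norm_image_sub_le_of_norm_deriv_le_segment'
    (f := fun x : ℝ => pw (1 - s) x - (1 - s) * pw (-s) m * (x : ℂ))
    (f' := fun x => (1 - s) * (pw (-s) x - pw (-s) m)) (a := m) (b := m + 1)
    (C := ‖s - 1‖ * ‖s‖ * B)
    (fun y hy => by
      have ha := hasDerivAt_pw (1 - s) (x := y) (by linarith [hy.1])
      have hb := ((hasDerivAt_id y).ofReal_comp).const_mul ((1 - s) * pw (-s) m)
      refine ((ha.sub hb).congr_deriv ?_).hasDerivWithinAt
      rw [show (1 - s - 1 : ℂ) = -s by ring]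
      simp only [Complex.ofReal_one]
      ring)
    (fun y hy => by
      rw [norm_mul, norm_sub_rev 1 s, mul_assoc]
      exact mul_le_mul_of_nonneg_left (h1 y ⟨hy.1, hy.2.le⟩) (norm_nonneg _))
    (m + 1) ⟨by linarith, le_rfl⟩
  rw [add_sub_cancel_left, mul_one] at h2
  refine le_of_eq_of_le ?_ h2
  congr 1
  simp only [tm, ← hm]
  push_cast
  ring

lemma summable_Z' : Summable fun n : ℕ => ‖LSeries.term 1 (5 / 4 : ℝ) (n + 1)‖ :=
  (summable_nat_add_iff 1).2 summable_Z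

lemma tsum_Z' : ∑' n : ℕ, ‖LSeries.term 1 (5 / 4 : ℝ) (n + 1)‖ = Z := by
  rw [Z, summable_Z.tsum_eq_zero_add]; simp

lemma differentiable_tm (n : ℕ) : Differentiable ℂ (tm n) := by
  unfold tm pw; fun_prop

lemma tsum_tm_of_two_lt (s : ℂ) (hs : 2 < s.re) : ∑' n, tm n s = riemannZeta₁ s - 1 := by
  have key : ∀ z : ℂ, 1 < z.re → HasSum (fun n : ℕ => pw (-z) (n + 1)) (riemannZeta z) := by
    intro z hz
    have h := LSeriesHasSum_one hz
    rw [LSeriesHasSum, ← hasSum_nat_add_iff' 1] at h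
    simp only [Finset.range_one, Finset.sum_singleton, LSeries.term_zero, sub_zero] at h
    refine h.congr_fun ?_ |>.congr_fun fun _ => rfl
    intro n
    rw [LSeries.term_of_ne_zero (by omega), pw_eq _ (by positivity), Complex.cpow_neg]
    simp
  have h1 := key s (by linarith)
  have h2 := key (s - 1) (by simp; linarith)
  rw [neg_sub] at h2
  have h3 := (hasSum_nat_add_iff' 1).2 h2
  have hs1 : s ≠ 1 := by rintro rfl; simp at hs
  have := ((h1.mul_left (s - 1)).sub h2).add h3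
  have e : (fun n => tm n s) = fun n : ℕ => (s - 1) * pw (-s) (n + 1) - pw (1 - s) (n + 1) +
      pw (1 - s) (((n + 1 : ℕ) : ℝ) + 1) := by
    funext n; simp [tm]
  rw [e, this.tsum_eq, riemannZeta_eq_inv_sub_mul hs1, ← mul_assoc,
    mul_inv_cancel₀ (sub_ne_zero.2 hs1)]
  simp [pw]

lemma tsum_tm (s : ℂ) (hs : 1 / 4 < s.re) : ∑' n, tm n s = riemannZeta₁ s - 1 := by
  have hU : IsOpen {s : ℂ | 1 / 4 < s.re} := isOpen_lt continuous_const Complex.continuous_re
  have hd : DifferentiableOn ℂ (fun s => ∑' n, tm n s) {s : ℂ | 1 / 4 < s.re} := by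
    intro z hz
    have hV : IsOpen ({s : ℂ | 1 / 4 < s.re} ∩ Metric.ball 0 (‖z‖ + 1)) :=
      hU.inter Metric.isOpen_ball
    have := Complex.differentiableOn_tsum_of_summable_norm (F := tm)
      (summable_Z'.mul_left ((‖z‖ + 2) * (‖z‖ + 1))) (fun n => (differentiable_tm n).differentiableOn)
      hV (fun n w hw => by
        have hw2 : ‖w‖ < ‖z‖ + 1 := by simpa using hw.2
        have hw3 : ‖w - 1‖ ≤ ‖z‖ + 2 := (norm_sub_le _ _).trans (by simp; linarith)
        refine (norm_tm_le n w (le_of_lt hw.1)).trans ?_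
        gcongr)
    exact (this.differentiableAt (hV.mem_nhds ⟨hz, by simp⟩)).differentiableWithinAt
  have ha := hd.analyticOnNhd hU
  have hb : AnalyticOnNhd ℂ (fun s => riemannZeta₁ s - 1) {s : ℂ | 1 / 4 < s.re} :=
    (differentiable_riemannZeta₁.sub_const 1).differentiableOn.analyticOnNhd hU
  refine ha.eqOn_of_preconnected_of_eventuallyEq hb (convex_halfSpace_re_gt _).isPreconnected
    (z₀ := 3) (by simp; norm_num) ?_ hs
  have : {s : ℂ | 2 < s.re} ∈ 𝓝 (3 : ℂ) :=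
    (isOpen_lt continuous_const Complex.continuous_re).mem_nhds (by simp; norm_num)
  filter_upwards [this] with z hz using tsum_tm_of_two_lt z hz

lemma zeta_mid (s : ℂ) (hs : 1 / 4 < s.re) (h1 : 1 ≤ ‖s - 1‖) :
    ‖riemannZeta s‖ ≤ 1 + Z * ‖s‖ := by
  have hs1 : s - 1 ≠ 0 := by intro h; rw [h] at h1; norm_num at h1
  have h2 : ‖riemannZeta₁ s - 1‖ ≤ ‖s - 1‖ * ‖s‖ * Z := by
    rw [← tsum_tm s hs, ← tsum_Z', ← tsum_mul_left]
    exact tsum_of_norm_bounded (summable_Z'.mul_left _).hasSum fun n => norm_tm_le n s hs.le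
  have h3 : ‖riemannZeta₁ s‖ ≤ ‖s - 1‖ * ‖s‖ * Z + 1 := by
    have := norm_add_le (riemannZeta₁ s - 1) 1
    simp only [sub_add_cancel, norm_one] at this
    linarith
  rw [riemannZeta_eq_inv_sub_mul (sub_ne_zero.1 hs1), norm_mul, norm_inv, inv_mul_le_iff₀
    (by linarith)]
  nlinarith

lemma norm_Gamma_le (s : ℂ) (hs : 0 < s.re) : ‖Gamma s‖ ≤ Real.Gamma s.re := by
  rw [Complex.Gamma_eq_integral hs, Real.Gamma_eq_integral hs, Complex.GammaIntegral]
  refine (MeasureTheory.norm_integral_le_integral_norm _).trans (le_of_eq ?_)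
  refine MeasureTheory.setIntegral_congr_fun measurableSet_Ioi fun x hx => ?_
  simp only [norm_mul, Complex.norm_real, Real.norm_eq_abs, abs_of_pos (Real.exp_pos _)]
  rw [Complex.norm_cpow_eq_rpow_re_of_pos hx]
  simp

lemma Gamma_le (T x : ℝ) (hT : 3 ≤ T) (h1 : 1 / 2 ≤ x) (h2 : x ≤ T + 1) :
    Real.Gamma x ≤ 2 * Real.exp (6 * T * Real.log T) := by
  have hx : 0 < x := by linarith
  have e : Real.Gamma (x + 1 + 1) = (x + 1) * (x * Real.Gamma x) := by
    rw [Real.Gamma_add_one (by linarith), Real.Gamma_add_one hx.ne']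
  have hp := Real.Gamma_pos_of_pos hx
  set n : ℕ := ⌈x⌉₊ + 1 with hn
  have hc1 := Nat.le_ceil x
  have hc2 := Nat.ceil_lt_add_one hx.le
  have hn1 : (n : ℝ) = ⌈x⌉₊ + 1 := by rw [hn]; push_cast; ring
  have h3 : Real.Gamma (x + 1 + 1) ≤ Real.Gamma (n + 1) :=
    Real.Gamma_strictMonoOn_Ici.monotoneOn (by simp; linarith) (by simp; linarith) (by linarith)
  rw [Real.Gamma_nat_eq_factorial] at h3
  have h4 : (n.factorial : ℝ) ≤ (n : ℝ) ^ n := by exact_mod_cast Nat.factorial_le_pow n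
  have hL : 1 ≤ Real.log T := by
    rw [Real.le_log_iff_exp_le (by linarith)]
    linarith [Real.exp_one_lt_d9]
  have h5 : (n : ℝ) ^ n ≤ Real.exp (6 * T * Real.log T) := by
    have hn0 : (0 : ℝ) < n := by linarith
    have hl : Real.log n ≤ 2 * Real.log T := by
      rw [show 2 * Real.log T = Real.log (T ^ 2) by simp]
      exact Real.log_le_log hn0 (by nlinarith)
    calc (n : ℝ) ^ n = Real.exp (n * Real.log n) := by
          rw [Real.exp_nat_mul, Real.exp_log hn0]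
      _ ≤ _ := by
          refine Real.exp_le_exp.2 ?_
          calc (n : ℝ) * Real.log n ≤ n * (2 * Real.log T) := by gcongr
            _ ≤ (3 * T) * (2 * Real.log T) := by gcongr; linarith
            _ = _ := by ring
  have h6 : 1 / 2 ≤ (x + 1) * x := by nlinarith
  nlinarith

lemma norm_cos_le (z : ℂ) : ‖cos z‖ ≤ Real.exp |z.im| := by
  rw [Complex.cos, norm_div]
  have h1 : ‖exp (z * I)‖ ≤ Real.exp |z.im| := by
    rw [Complex.norm_exp]; exact Real.exp_le_exp.2 (by simpa using neg_le_abs _)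
  have h2 : ‖exp (-z * I)‖ ≤ Real.exp |z.im| := by
    rw [Complex.norm_exp]; exact Real.exp_le_exp.2 (by simpa using le_abs_self _)
  have := norm_add_le (exp (z * I)) (exp (-z * I))
  simp only [Complex.norm_ofNat]
  linarith

lemma norm_zeta_one_sub (s : ℂ) (hs : s.im ≠ 0) :
    ‖riemannZeta (1 - s)‖ = 2 * (2 * Real.pi) ^ (-s.re) * ‖Gamma s * cos (Real.pi * s / 2)‖ *
      ‖riemannZeta s‖ := by
  rw [riemannZeta_one_sub (fun n h => hs (by rw [h]; simp)) (fun h => hs (by rw [h]; simp))]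
  have : ‖(2 * Real.pi : ℂ) ^ (-s)‖ = (2 * Real.pi) ^ (-s.re) := by
    rw [show (2 * Real.pi : ℂ) = ((2 * Real.pi : ℝ) : ℂ) by push_cast; ring,
      Complex.norm_cpow_eq_rpow_re_of_pos (by positivity)]
    simp
  simp only [norm_mul, this, Complex.norm_ofNat]
  ring

lemma gamma_cos (x : ℝ) (hx : 0 < x) :
    ‖Gamma (2 - x * I) * cos (Real.pi * (2 - x * I) / 2)‖ ^ 2 * Real.sinh (Real.pi * x / 2) =
      (1 + x ^ 2) * (Real.pi * x / 2) * Real.cosh (Real.pi * x / 2) := by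
  have hx' : (x : ℂ) * I ≠ 0 := mul_ne_zero (by exact_mod_cast hx.ne') I_ne_zero
  have h1 : (1 - x * I : ℂ) ≠ 0 := fun h => by simpa using congrArg Complex.re h
  have e1 : Gamma (2 - x * I) = (1 - x * I) * Gamma (1 - x * I) := by
    rw [← Complex.Gamma_add_one _ h1]; congr 1; ring
  have e2 : cos (Real.pi * (2 - x * I) / 2) = -(Real.cosh (Real.pi * x / 2) : ℝ) := by
    rw [show (Real.pi * (2 - x * I) / 2 : ℂ) = Real.pi - (Real.pi * x / 2 : ℝ) * I by
      push_cast; ring, Complex.cos_pi_sub, Complex.cos_mul_I, Complex.ofReal_cosh]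
  have hsh : 0 < Real.sinh (Real.pi * x) := Real.sinh_pos_iff.2 (by positivity)
  have e3 : ‖Gamma (1 - x * I)‖ ^ 2 = Real.pi * x / Real.sinh (Real.pi * x) := by
    have c : (starRingEnd ℂ) (Gamma (1 - x * I)) = x * I * Gamma (x * I) := by
      rw [← Complex.Gamma_conj, ← Complex.Gamma_add_one _ hx']
      congr 1
      simp [add_comm]
    have r := Complex.Gamma_mul_Gamma_one_sub (x * I)
    rw [← mul_assoc, Complex.sin_mul_I] at r
    have hs : (sinh (Real.pi * x) : ℂ) ≠ 0 := by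
      have : ((Real.sinh (Real.pi * x) : ℝ) : ℂ) ≠ 0 := by exact_mod_cast hsh.ne'
      simpa using this
    apply Complex.ofReal_injective
    push_cast
    rw [← Complex.conj_mul', c, mul_assoc, r]
    field_simp
  have e4 : ‖(1 - x * I : ℂ)‖ ^ 2 = 1 + x ^ 2 := by
    rw [Complex.sq_norm, Complex.normSq_apply]; simp; ring
  have e5 : Real.sinh (Real.pi * x) =
      2 * Real.sinh (Real.pi * x / 2) * Real.cosh (Real.pi * x / 2) := by
    rw [← Real.sinh_two_mul]; congr 1; ring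
  have hs2 : 0 < Real.sinh (Real.pi * x / 2) := Real.sinh_pos_iff.2 (by positivity)
  have hc2 := Real.cosh_pos (Real.pi * x / 2)
  rw [e1, e2, norm_mul, norm_mul, mul_pow, mul_pow, e3, e4, norm_neg, Complex.norm_real,
    Real.norm_eq_abs, sq_abs, e5]
  field_simp

end ZetaA

open ZetaA

theorem zf_differentiableOn : DifferentiableOn ℂ zf {w | 0 < w.re} := by
  intro w hw
  have h : (1 / 2 + I * w : ℂ) ≠ 1 := fun h => by
    have := congrArg Complex.im h
    rw [im_arg] at this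
    exact (ne_of_gt hw) (by simpa using this)
  exact ((differentiableAt_riemannZeta h).comp w (by fun_prop)).differentiableWithinAt

theorem zf_growth : ∃ C : ℝ, 0 < C ∧ ∀ T : ℝ, 3 ≤ T → ∀ w : ℂ, T ≤ w.re → w.re ≤ 2 * T →
    |w.im| ≤ T → ‖zf w‖ ≤ Real.exp (C * T * Real.log T) := by
  have hZ := Z_nonneg
  refine ⟨4 * Z + 14, by linarith, fun T hT w h1 h2 h3 => ?_⟩
  have hL : 1 ≤ Real.log T := by
    rw [Real.le_log_iff_exp_le (by linarith)]
    linarith [Real.exp_one_lt_d9]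
  have hTL : T ≤ T * Real.log T := by nlinarith
  obtain ⟨h3a, h3b⟩ := abs_le.1 h3
  have mid : ∀ s : ℂ, 1 / 2 ≤ s.re → s.re ≤ T + 1 → T ≤ |s.im| → |s.im| ≤ 2 * T →
      ‖riemannZeta s‖ ≤ Real.exp (4 * Z * (T * Real.log T)) := by
    intro s a b c d
    have hn : ‖s‖ ≤ 4 * T := (Complex.norm_le_abs_re_add_abs_im s).trans (by
      rw [abs_of_nonneg (by linarith)]; linarith)
    have h4 : 1 ≤ ‖s - 1‖ := le_trans (by simp; linarith) (Complex.abs_im_le_norm _)
    refine (zeta_mid s (by linarith) h4).trans (le_trans ?_ (Real.add_one_le_exp _))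
    nlinarith
  rw [zf]
  by_cases h : w.im ≤ 0
  · refine (mid _ (by rw [re_arg]; linarith) (by rw [re_arg]; linarith)
      (by rw [im_arg, abs_of_nonneg] <;> linarith)
      (by rw [im_arg, abs_of_nonneg] <;> linarith)).trans (Real.exp_le_exp.2 ?_)
    nlinarith
  · set s : ℂ := 1 - (1 / 2 + I * w) with hs
    have hre : s.re = 1 / 2 + w.im := by rw [hs, sub_re, re_arg]; simp; ring
    have him : s.im = -w.re := by rw [hs, sub_im, im_arg]; simp
    have habs : |s.im| = w.re := by rw [him, abs_neg, abs_of_nonneg (by linarith)]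
    rw [show (1 / 2 + I * w : ℂ) = 1 - s by rw [hs]; ring,
      norm_zeta_one_sub s (by rw [him]; linarith), norm_mul]
    push Not at h
    have a1 : (2 * Real.pi) ^ (-s.re) ≤ 1 :=
      Real.rpow_le_one_of_one_le_of_nonpos (by linarith [Real.pi_gt_three]) (by linarith)
    have a2 : ‖Gamma s‖ ≤ 2 * Real.exp (6 * T * Real.log T) :=
      (norm_Gamma_le s (by linarith)).trans (Gamma_le T _ hT (by linarith) (by linarith))
    have a3 : ‖cos (Real.pi * s / 2)‖ ≤ Real.exp (4 * (T * Real.log T)) := by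
      refine (norm_cos_le _).trans (Real.exp_le_exp.2 ?_)
      have : (Real.pi * s / 2 : ℂ).im = Real.pi / 2 * s.im := by simp; ring
      rw [this, abs_mul, habs, abs_of_pos (by positivity)]
      nlinarith [Real.pi_le_four, Real.pi_pos]
    have a4 := mid s (by linarith) (by linarith) (by linarith) (by linarith)
    have a5 : 4 ≤ Real.exp (4 * (T * Real.log T)) :=
      le_trans (by linarith) (Real.add_one_le_exp _)
    calc 2 * (2 * Real.pi) ^ (-s.re) * (‖Gamma s‖ * ‖cos (Real.pi * s / 2)‖) * ‖riemannZeta s‖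
        ≤ 2 * 1 * (2 * Real.exp (6 * T * Real.log T) * Real.exp (4 * (T * Real.log T))) *
          Real.exp (4 * Z * (T * Real.log T)) := by gcongr
      _ = 4 * (Real.exp (6 * T * Real.log T) * Real.exp (4 * (T * Real.log T)) *
          Real.exp (4 * Z * (T * Real.log T))) := by ring
      _ ≤ Real.exp (4 * (T * Real.log T)) * (Real.exp (6 * T * Real.log T) *
          Real.exp (4 * (T * Real.log T)) * Real.exp (4 * Z * (T * Real.log T))) := by gcongr
      _ = _ := by simp only [← Real.exp_add]; congr 1; ring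

theorem zf_right : ∃ C : ℝ, 0 < C ∧ ∀ w : ℂ, w.im ≤ -3 / 4 →
    zf w ≠ 0 ∧ ‖zf w‖ ≤ C ∧ ‖(zf w)⁻¹‖ ≤ C := by
  refine ⟨Z + 1, by linarith [Z_nonneg], fun w hw => ?_⟩
  obtain ⟨a, b, c⟩ := zeta_right (1 / 2 + I * w) (by rw [re_arg]; linarith)
  exact ⟨a, b.trans (by linarith), c.trans (by linarith)⟩

theorem zf_inv_hasSum (w : ℂ) (hw : w.im = -3 / 2) :
    HasSum (fun n : ℕ => ((ArithmeticFunction.moebius n : ℤ) : ℂ) *
      exp (-(1 / 2 + I * w) * (Real.log n : ℂ))) (zf w)⁻¹ := by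
  have h1 : 1 < (1 / 2 + I * w : ℂ).re := by rw [re_arg, hw]; norm_num
  rw [zf, inv_zeta_eq _ h1]
  have h := (ArithmeticFunction.LSeriesSummable_moebius_iff.2 h1).LSeriesHasSum
  refine HasSum.congr_fun h fun n => ?_
  rcases Nat.eq_zero_or_pos n with rfl | hn
  · simp
  · have := pw_eq (-(1 / 2 + I * w)) (x := n) (by exact_mod_cast hn)
    rw [pw] at this
    rw [this, LSeries.term_of_ne_zero hn.ne', Complex.cpow_neg, div_eq_mul_inv _ (_ ^ _)]
    simp [div_eq_mul_inv]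

theorem zf_left : ∃ c C : ℝ, 0 < c ∧ 0 < C ∧ ∀ T : ℝ, 3 ≤ T → ∀ x : ℝ, T ≤ x → x ≤ 2 * T →
    c * T ^ (3 / 2 : ℝ) ≤ ‖zf (x + (3 / 2 : ℝ) * I)‖ ∧
      ‖zf (x + (3 / 2 : ℝ) * I)‖ ≤ C * T ^ (3 / 2 : ℝ) := by
  have hZ := Z_nonneg
  set k : ℝ := 2 * (2 * Real.pi) ^ (-2 : ℝ) with hk
  have hk0 : 0 < k := by positivity
  refine ⟨k * (Z + 1)⁻¹, k * 7 * (Z + 1), by positivity, by positivity, fun T hT x h1 h2 => ?_⟩
  have hx : 0 < x := by linarith
  have e : (1 / 2 + I * (x + (3 / 2 : ℝ) * I) : ℂ) = 1 - (2 - x * I) := by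
    push_cast
    linear_combination (3 / 2 : ℂ) * I_mul_I
  rw [zf, e, norm_zeta_one_sub _ (by simp; exact hx.ne'),
    show -(2 - x * I : ℂ).re = (-2 : ℝ) by simp, ← hk]
  have g := gamma_cos x hx
  set A := ‖Gamma (2 - x * I) * cos (Real.pi * (2 - x * I) / 2)‖ with hA
  have hA0 : 0 ≤ A := norm_nonneg _
  set y := Real.pi * x / 2 with hy
  have hy1 : x ≤ y := by rw [hy]; nlinarith [Real.pi_gt_three]
  have hy2 : y ≤ 2 * x := by rw [hy]; nlinarith [Real.pi_le_four]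
  have hs : 0 < Real.sinh y := Real.sinh_pos_iff.2 (by linarith)
  have hc1 : Real.sinh y ≤ Real.cosh y := (Real.sinh_lt_cosh y).le
  have hc2 : Real.cosh y ≤ 2 * Real.sinh y := by
    rw [Real.cosh_eq, Real.sinh_eq]
    have := Real.add_one_le_exp y
    have : Real.exp (-y) ≤ 1 := Real.exp_le_one_iff.2 (by linarith)
    linarith
  set R := T ^ (3 / 2 : ℝ) with hR
  have hR0 : 0 ≤ R := by positivity
  have hR2 : R ^ 2 = T ^ 3 := by
    rw [hR, ← Real.rpow_natCast, ← Real.rpow_mul (by linarith), ← Real.rpow_natCast]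
    norm_num
  have hP : 0 ≤ (1 + x ^ 2) * y := by positivity
  have l1 : (1 + x ^ 2) * y ≤ A ^ 2 := by
    refine le_of_mul_le_mul_right ?_ hs
    rw [g]; gcongr
  have l2 : A ^ 2 ≤ (1 + x ^ 2) * y * 2 := by
    refine le_of_mul_le_mul_right ?_ hs
    rw [g, mul_assoc _ 2]; gcongr
  have b1 : R ≤ A := by
    refine (pow_le_pow_iff_left₀ hR0 hA0 two_ne_zero).1 (le_trans ?_ l1)
    rw [hR2]
    calc T ^ 3 ≤ x ^ 3 := by gcongr
      _ = x ^ 2 * x := by ring
      _ ≤ _ := by gcongr; linarith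
  have b2 : A ≤ 7 * R := by
    refine (pow_le_pow_iff_left₀ hA0 (by positivity) two_ne_zero).1 (l2.trans ?_)
    rw [mul_pow, hR2]
    have hT2 : 1 ≤ T ^ 2 := by nlinarith
    calc (1 + x ^ 2) * y * 2 ≤ (T ^ 2 + (2 * T) ^ 2) * (4 * T) * 2 := by gcongr; linarith
      _ = 40 * T ^ 3 := by ring
      _ ≤ _ := by gcongr; norm_num
  obtain ⟨z1, z2, z3⟩ := zeta_right (2 - x * I) (by simp; norm_num)
  have z0 : 0 < ‖riemannZeta (2 - x * I)‖ := norm_pos_iff.2 z1
  have z4 : (Z + 1)⁻¹ ≤ ‖riemannZeta (2 - x * I)‖ := by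
    rw [norm_inv] at z3
    exact (inv_le_comm₀ (by positivity) z0).2 (by linarith)
  constructor
  · calc k * (Z + 1)⁻¹ * R = k * R * (Z + 1)⁻¹ := by ring
      _ ≤ _ := by gcongr
  · calc k * A * ‖riemannZeta (2 - x * I)‖ ≤ k * (7 * R) * (Z + 1) := by gcongr; linarith
      _ = _ := by ring

end Pool.Agent.MP_ca0a54_nt.L0
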