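import Pool.Agent.MP_ca0a54_nt.L0.Defs

/-!
Off-diagonal terms in the mean value of a product of Dirichlet polynomials, and elementary facts
about `Pn`.
-/

open Complex Filter Topology

namespace Pool.Agent.MP_ca0a54_nt.L0

namespace MeanA

lemma harm_le (N : ℕ) : ∑ n ∈ Finset.Icc 1 N, (1 / (n : ℝ)) ≤ 1 + Real.log N := by
  have h := harmonic_le_one_add_log N
  rw [harmonic_eq_sum_Icc] at h
  push_cast at h
  simpa [one_div] using h

lemma sum_inv_sqrt_le (N : ℕ) :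
    ∑ n ∈ Finset.Icc 1 N, 1 / Real.sqrt n ≤ 2 * Real.sqrt N := by
  induction N with
  | zero => simp
  | succ k ih =>
    rw [Finset.sum_Icc_succ_top (by omega)]
    have hk : (0 : ℝ) ≤ k := Nat.cast_nonneg k
    have h1 : 0 < Real.sqrt ((k + 1 : ℕ) : ℝ) := Real.sqrt_pos.2 (by positivity)
    have h2 : 0 ≤ Real.sqrt (k : ℝ) := Real.sqrt_nonneg _
    have h3 : Real.sqrt ((k + 1 : ℕ) : ℝ) ^ 2 = k + 1 := by
      rw [Real.sq_sqrt (by positivity)]; push_cast; ring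
    have h4 : Real.sqrt (k : ℝ) ^ 2 = k := Real.sq_sqrt hk
    have h5 : 1 / Real.sqrt ((k + 1 : ℕ) : ℝ) ≤
        2 * Real.sqrt ((k + 1 : ℕ) : ℝ) - 2 * Real.sqrt (k : ℝ) := by
      rw [div_le_iff₀ h1]
      nlinarith [sq_nonneg (Real.sqrt ((k + 1 : ℕ) : ℝ) - Real.sqrt (k : ℝ))]
    linarith

/-- Sum of `1 / |n - m|` over `n ≠ m`. -/
lemma sum_inv_dist_le (N m : ℕ) (hm : m ∈ Finset.Icc 1 N) :
    ∑ n ∈ (Finset.Icc 1 N).erase m, 1 / |(n : ℝ) - m| ≤ 2 * (1 + Real.log N) := by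
  rw [Finset.mem_Icc] at hm
  have hsplit : (Finset.Icc 1 N).erase m = Finset.Ico 1 m ∪ Finset.Ioc m N := by
    ext n
    simp only [Finset.mem_erase, Finset.mem_Icc, Finset.mem_union, Finset.mem_Ico, Finset.mem_Ioc]
    omega
  have hdisj : Disjoint (Finset.Ico 1 m) (Finset.Ioc m N) := by
    rw [Finset.disjoint_left]
    intro n h1 h2
    simp only [Finset.mem_Ico, Finset.mem_Ioc] at h1 h2
    omega
  rw [hsplit, Finset.sum_union hdisj]
  have hA : ∑ n ∈ Finset.Ico 1 m, 1 / |(n : ℝ) - m| ≤ ∑ n ∈ Finset.Icc 1 N, (1 / (n : ℝ)) := by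
    have e : ∑ n ∈ Finset.Ico 1 m, 1 / |(n : ℝ) - m| =
        ∑ k ∈ (Finset.Ico 1 m).image (fun n => m - n), (1 / (k : ℝ)) := by
      rw [Finset.sum_image]
      · refine Finset.sum_congr rfl fun n hn => ?_
        rw [Finset.mem_Ico] at hn
        rw [Nat.cast_sub hn.2.le, abs_sub_comm, abs_of_nonneg]
        have : (n : ℝ) ≤ m := by exact_mod_cast hn.2.le
        linarith
      · intro x hx y hy hxy
        simp only [Finset.coe_Ico, Set.mem_Ico] at hx hy
        simp only at hxy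
        omega
    rw [e]
    refine Finset.sum_le_sum_of_subset_of_nonneg ?_ fun _ _ _ => by positivity
    intro k hk
    simp only [Finset.mem_image, Finset.mem_Ico] at hk
    obtain ⟨n, hn, rfl⟩ := hk
    rw [Finset.mem_Icc]
    omega
  have hB : ∑ n ∈ Finset.Ioc m N, 1 / |(n : ℝ) - m| ≤ ∑ n ∈ Finset.Icc 1 N, (1 / (n : ℝ)) := by
    have e : ∑ n ∈ Finset.Ioc m N, 1 / |(n : ℝ) - m| =
        ∑ k ∈ (Finset.Ioc m N).image (fun n => n - m), (1 / (k : ℝ)) := by
      rw [Finset.sum_image]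
      · refine Finset.sum_congr rfl fun n hn => ?_
        rw [Finset.mem_Ioc] at hn
        rw [Nat.cast_sub hn.1.le, abs_of_nonneg]
        have : (m : ℝ) ≤ n := by exact_mod_cast hn.1.le
        linarith
      · intro x hx y hy hxy
        simp only [Finset.coe_Ioc, Set.mem_Ioc] at hx hy
        simp only at hxy
        omega
    rw [e]
    refine Finset.sum_le_sum_of_subset_of_nonneg ?_ fun _ _ _ => by positivity
    intro k hk
    simp only [Finset.mem_image, Finset.mem_Ioc] at hk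
    obtain ⟨n, hn, rfl⟩ := hk
    rw [Finset.mem_Icc]
    omega
  linarith [harm_le N]

lemma log_gap_lt (m n : ℕ) (hm : 1 ≤ m) (hmn : m < n) :
    1 / Real.sqrt m * (1 / Real.sqrt n) * (2 / |Real.log m - Real.log n|) ≤
      (1 / (m : ℝ) + 1 / (n : ℝ)) + 2 * (1 / |(n : ℝ) - m|) := by
  have hm0 : (0 : ℝ) < m := by exact_mod_cast hm
  have hlt : (m : ℝ) < n := by exact_mod_cast hmn
  have hn0 : (0 : ℝ) < n := hm0.trans hlt
  have hlog : 1 - (m : ℝ) / n ≤ Real.log n - Real.log m := by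
    have := Real.log_le_sub_one_of_pos (div_pos hm0 hn0)
    rw [Real.log_div hm0.ne' hn0.ne'] at this
    linarith
  have hd : 0 < (n : ℝ) - m := by linarith
  have hpos : 0 < 1 - (m : ℝ) / n := by
    rw [sub_pos, div_lt_one hn0]; exact hlt
  rw [abs_sub_comm, abs_of_pos (by linarith), abs_of_pos hd]
  set s := Real.sqrt m with hs
  set r := Real.sqrt n with hr
  have hs0 : 0 < s := Real.sqrt_pos.2 hm0
  have hr0 : 0 < r := Real.sqrt_pos.2 hn0
  have hs2 : s ^ 2 = m := Real.sq_sqrt hm0.le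
  have hr2 : r ^ 2 = n := Real.sq_sqrt hn0.le
  have hsr : s ≤ r := Real.sqrt_le_sqrt hlt.le
  have h1 : 2 / (Real.log n - Real.log m) ≤ 2 + 2 * (m / ((n : ℝ) - m)) := by
    have : 2 / (Real.log n - Real.log m) ≤ 2 / (1 - (m : ℝ) / n) := by
      gcongr
    refine this.trans (le_of_eq ?_)
    field_simp
    ring
  have h2 : 1 / s * (1 / r) * 2 ≤ 1 / (m : ℝ) + 1 / (n : ℝ) := by
    rw [← hs2, ← hr2]
    have : 1 / s ^ 2 + 1 / r ^ 2 - 1 / s * (1 / r) * 2 = (1 / s - 1 / r) ^ 2 := by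
      field_simp
      ring
    nlinarith [sq_nonneg (1 / s - 1 / r)]
  have h3 : 1 / s * (1 / r) * (m : ℝ) ≤ 1 := by
    rw [← hs2]
    have : 1 / s * (1 / r) * s ^ 2 = s / r := by field_simp
    rw [this, div_le_one hr0]
    exact hsr
  have h0 : 0 ≤ 1 / s * (1 / r) := by positivity
  calc 1 / s * (1 / r) * (2 / (Real.log n - Real.log m))
      ≤ 1 / s * (1 / r) * (2 + 2 * (m / ((n : ℝ) - m))) := by gcongr
    _ = 1 / s * (1 / r) * 2 + 2 * ((1 / s * (1 / r) * (m : ℝ)) * (1 / ((n : ℝ) - m))) := by ring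
    _ ≤ (1 / (m : ℝ) + 1 / (n : ℝ)) + 2 * (1 * (1 / ((n : ℝ) - m))) := by gcongr
    _ = _ := by ring

lemma log_gap (m n : ℕ) (hm : 1 ≤ m) (hn : 1 ≤ n) (hmn : n ≠ m) :
    1 / Real.sqrt m * (1 / Real.sqrt n) * (2 / |Real.log m - Real.log n|) ≤
      (1 / (m : ℝ) + 1 / (n : ℝ)) + 2 * (1 / |(n : ℝ) - m|) := by
  rcases lt_or_gt_of_ne hmn with h | h
  · have := log_gap_lt n m hn h
    rw [abs_sub_comm (Real.log n), abs_sub_comm (m : ℝ)] at this
    linarith
  · exact log_gap_lt m n hm h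

lemma norm_integral_exp_le (c t₁ t₂ : ℝ) (hc : c ≠ 0) :
    ‖∫ t in t₁..t₂, exp ((-I * (c : ℂ)) * t)‖ ≤ 2 / |c| := by
  have hc' : (-I * (c : ℂ)) ≠ 0 := mul_ne_zero (neg_ne_zero.2 I_ne_zero) (ofReal_ne_zero.2 hc)
  rw [integral_exp_mul_complex hc', norm_div]
  have e : ‖-I * (c : ℂ)‖ = |c| := by simp
  rw [e]
  have h1 : ∀ t : ℝ, ‖exp (-I * (c : ℂ) * t)‖ = 1 := by
    intro t
    rw [norm_exp]
    simp
  gcongr
  refine (norm_sub_le _ _).trans ?_
  rw [h1, h1]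
  norm_num

end MeanA

open MeanA

theorem off_diag : ∃ K : ℝ, 0 < K ∧ ∀ (N : ℕ) (a b : ℕ → ℂ) (t₁ t₂ : ℝ),
    (∀ n ∈ Finset.Icc 1 N, ‖a n‖ ≤ 1 / Real.sqrt n) →
    (∀ n ∈ Finset.Icc 1 N, ‖b n‖ ≤ 1 / Real.sqrt n) →
    ‖(∫ t in t₁..t₂, (∑ m ∈ Finset.Icc 1 N, a m * exp (-I * (Real.log m : ℂ) * t)) *
        (starRingEnd ℂ) (∑ n ∈ Finset.Icc 1 N, b n * exp (-I * (Real.log n : ℂ) * t))) -
      ((t₂ - t₁ : ℝ) : ℂ) * ∑ n ∈ Finset.Icc 1 N, a n * (starRingEnd ℂ) (b n)‖ ≤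
      K * N * (1 + Real.log N) := by
  refine ⟨6, by norm_num, fun N a b t₁ t₂ ha hb => ?_⟩
  set S := Finset.Icc 1 N with hS
  have e1 : ∀ t : ℝ, (∑ m ∈ S, a m * exp (-I * (Real.log m : ℂ) * t)) *
      (starRingEnd ℂ) (∑ n ∈ S, b n * exp (-I * (Real.log n : ℂ) * t)) =
      ∑ m ∈ S, ∑ n ∈ S, a m * (starRingEnd ℂ) (b n) *
        exp ((-I * ((Real.log m - Real.log n : ℝ) : ℂ)) * t) := by
    intro t
    rw [map_sum, Finset.sum_mul_sum]
    refine Finset.sum_congr rfl fun m _ => Finset.sum_congr rfl fun n _ => ?_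
    rw [map_mul, ← exp_conj]
    have : (starRingEnd ℂ) (-I * (Real.log n : ℂ) * t) = I * (Real.log n : ℂ) * t := by
      simp only [map_mul, map_neg, conj_I, conj_ofReal, neg_neg]
    rw [this, mul_mul_mul_comm, ← exp_add]
    congr 2
    push_cast
    ring
  simp_rw [e1]
  rw [intervalIntegral.integral_finsetSum fun m _ => (Continuous.intervalIntegrable
    (by fun_prop) _ _)]
  have e2 : ∀ m ∈ S, (∫ t in t₁..t₂, ∑ n ∈ S, a m * (starRingEnd ℂ) (b n) *
      exp ((-I * ((Real.log m - Real.log n : ℝ) : ℂ)) * t)) =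
      ((t₂ - t₁ : ℝ) : ℂ) * (a m * (starRingEnd ℂ) (b m)) +
        ∑ n ∈ S.erase m, a m * (starRingEnd ℂ) (b n) *
          ∫ t in t₁..t₂, exp ((-I * ((Real.log m - Real.log n : ℝ) : ℂ)) * t) := by
    intro m hm
    rw [intervalIntegral.integral_finsetSum fun n _ => (Continuous.intervalIntegrable
      (by fun_prop) _ _), ← Finset.add_sum_erase S _ hm]
    congr 1
    · simp only [sub_self, ofReal_zero, mul_zero, zero_mul, exp_zero, mul_one,
        intervalIntegral.integral_const, real_smul]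
    · refine Finset.sum_congr rfl fun n _ => ?_
      rw [intervalIntegral.integral_const_mul]
  rw [Finset.sum_congr rfl e2, Finset.sum_add_distrib, ← Finset.mul_sum, add_sub_cancel_left]
  have hlogN : 0 ≤ Real.log N := Real.log_natCast_nonneg N
  have e3 : ∀ m ∈ S, ‖∑ n ∈ S.erase m, a m * (starRingEnd ℂ) (b n) *
      ∫ t in t₁..t₂, exp ((-I * ((Real.log m - Real.log n : ℝ) : ℂ)) * t)‖ ≤
      N * (1 / (m : ℝ)) + 5 * (1 + Real.log N) := by
    intro m hm
    refine (norm_sum_le _ _).trans ?_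
    have hm1 : 1 ≤ m := (Finset.mem_Icc.1 hm).1
    have : ∀ n ∈ S.erase m, ‖a m * (starRingEnd ℂ) (b n) *
        ∫ t in t₁..t₂, exp ((-I * ((Real.log m - Real.log n : ℝ) : ℂ)) * t)‖ ≤
        (1 / (m : ℝ) + 1 / (n : ℝ)) + 2 * (1 / |(n : ℝ) - m|) := by
      intro n hn
      obtain ⟨hnm, hn⟩ := Finset.mem_erase.1 hn
      have hn1 : 1 ≤ n := (Finset.mem_Icc.1 hn).1
      have hne : Real.log m - Real.log n ≠ 0 := by
        rw [sub_ne_zero]
        intro h
        have h' := Real.log_injOn_pos (Set.mem_Ioi.2 (by exact_mod_cast hm1))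
          (Set.mem_Ioi.2 (by exact_mod_cast hn1)) h
        exact hnm (by exact_mod_cast h'.symm)
      refine le_trans ?_ (log_gap m n hm1 hn1 hnm)
      rw [norm_mul, norm_mul, RCLike.norm_conj]
      have h1 := ha m hm
      have h2 := hb n hn
      have h3 := norm_integral_exp_le _ t₁ t₂ hne
      gcongr
    refine (Finset.sum_le_sum this).trans ?_
    rw [Finset.sum_add_distrib, Finset.sum_add_distrib, ← Finset.mul_sum]
    have h1 : ∑ n ∈ S.erase m, 1 / (m : ℝ) ≤ N * (1 / (m : ℝ)) := by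
      rw [Finset.sum_const, nsmul_eq_mul]
      have : ((S.erase m).card : ℝ) ≤ N := by
        have : (S.erase m).card ≤ N := by
          refine (Finset.card_erase_le).trans ?_
          simp [hS]
        exact_mod_cast this
      gcongr
    have h2 : ∑ n ∈ S.erase m, 1 / (n : ℝ) ≤ 1 + Real.log N :=
      le_trans (Finset.sum_le_sum_of_subset_of_nonneg (Finset.erase_subset _ _)
        fun _ _ _ => by positivity) (harm_le N)
    have h3 := sum_inv_dist_le N m hm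
    linarith
  refine (norm_sum_le _ _).trans ((Finset.sum_le_sum e3).trans ?_)
  rw [Finset.sum_add_distrib, ← Finset.mul_sum, Finset.sum_const, nsmul_eq_mul]
  have hc : (S.card : ℝ) = N := by simp [hS]
  rw [hc]
  have := harm_le N
  have hN : (0 : ℝ) ≤ N := Nat.cast_nonneg N
  nlinarith

namespace MeanA

lemma norm_moebius_le (n : ℕ) : ‖((ArithmeticFunction.moebius n : ℤ) : ℂ)‖ ≤ 1 := by
  rw [Complex.norm_intCast]
  exact_mod_cast ArithmeticFunction.abs_moebius_le_one (n := n)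

lemma exp_neg_half_log (n : ℕ) (hn : 1 ≤ n) :
    Real.exp (-Real.log n / 2) = 1 / Real.sqrt n := by
  have hn0 : (0 : ℝ) < n := by exact_mod_cast hn
  rw [Real.sqrt_eq_rpow, Real.rpow_def_of_pos hn0, one_div, ← Real.exp_neg]
  congr 1
  ring

/-- The size of one term of `Pn`. -/
lemma norm_term_le (n : ℕ) (hn : 1 ≤ n) (x s : ℝ) :
    ‖((ArithmeticFunction.moebius n : ℤ) : ℂ) *
      exp (-(Real.log n : ℂ) / 2 + I * (x : ℂ) * s - (x : ℂ) ^ 2 / 4)‖ ≤ 1 / Real.sqrt n := by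
  rw [norm_mul, norm_exp]
  have e : (-(Real.log n : ℂ) / 2 + I * (x : ℂ) * s - (x : ℂ) ^ 2 / 4).re =
      -Real.log n / 2 - x ^ 2 / 4 := by
    have : (-(Real.log n : ℂ) / 2 + I * (x : ℂ) * s - (x : ℂ) ^ 2 / 4) =
        ((-Real.log n / 2 - x ^ 2 / 4 : ℝ) : ℂ) + ((x * s : ℝ) : ℂ) * I := by
      push_cast; ring
    rw [this, add_re, ofReal_re, re_ofReal_mul, I_re]
    ring
  rw [e, ← exp_neg_half_log n hn]
  calc _ ≤ 1 * Real.exp (-Real.log n / 2) := by
        gcongr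
        · exact norm_moebius_le n
        · nlinarith [sq_nonneg x]
    _ = _ := one_mul _

end MeanA

theorem Pn_norm_le (N : ℕ) (t ξ : ℝ) : ‖Pn N t ξ‖ ≤ 2 * Real.sqrt N := by
  unfold Pn
  refine (norm_sum_le _ _).trans (le_trans (Finset.sum_le_sum fun n hn => ?_) (sum_inv_sqrt_le N))
  exact norm_term_le n (Finset.mem_Icc.1 hn).1 _ _

theorem Pn_continuous (N : ℕ) : Continuous fun p : ℝ × ℝ => Pn N p.1 p.2 := by
  unfold Pn
  fun_prop

end Pool.Agent.MP_ca0a54_nt.L0
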