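import Pool.Agent.MP_ca0a54_nt.L0.ZetaA

/-!
Factorisation of `zf` on `disc T` as a polynomial times the exponential of a function with almost
constant derivative.
-/

open Complex Filter Topology Metric

namespace Pool.Agent.MP_ca0a54_nt.L0.Factor

/-- Division of a holomorphic function by the linear factors of finitely many zeros. -/
theorem exists_quot (Ω : Set ℂ) (hΩ : IsOpen Ω) (f : ℂ → ℂ) (hf : DifferentiableOn ℂ f Ω)
    (V : Finset ℝ) (hV : ∀ u ∈ V, (u : ℂ) ∈ Ω ∧ f u = 0) :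
    ∃ g : ℂ → ℂ, DifferentiableOn ℂ g Ω ∧ ∀ w, f w = (∏ u ∈ V, (w - (u : ℂ))) * g w := by
  classical
  induction V using Finset.induction_on with
  | empty => exact ⟨f, hf, fun w => by simp⟩
  | insert a V ha ih =>
    obtain ⟨g, hg, hfg⟩ := ih fun u hu => hV u (Finset.mem_insert_of_mem hu)
    obtain ⟨haΩ, hfa⟩ := hV a (Finset.mem_insert_self a V)
    have hp : (∏ u ∈ V, ((a : ℂ) - (u : ℂ))) ≠ 0 := by
      refine Finset.prod_ne_zero_iff.2 fun u hu h => ha ?_
      have : a = u := by exact_mod_cast sub_eq_zero.1 h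
      exact this ▸ hu
    have hga : g a = 0 := by
      have := hfg a
      rw [hfa] at this
      exact (mul_eq_zero.1 this.symm).resolve_left hp
    refine ⟨dslope g a, (differentiableOn_dslope (hΩ.mem_nhds haΩ)).2 hg, fun w => ?_⟩
    have h1 := sub_smul_dslope g (a : ℂ) w
    rw [hga, sub_zero, smul_eq_mul] at h1
    rw [Finset.prod_insert ha, hfg w, ← h1]
    ring

/-- At a simple zero the quotient does not vanish. -/
theorem quot_ne_zero (Ω : Set ℂ) (hΩ : IsOpen Ω) (f g : ℂ → ℂ) (hg : DifferentiableOn ℂ g Ω)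
    (V : Finset ℝ) (hfg : ∀ w, f w = (∏ u ∈ V, (w - (u : ℂ))) * g w) (a : ℝ) (ha : a ∈ V)
    (haΩ : (a : ℂ) ∈ Ω) (hd : deriv f a ≠ 0) : g a ≠ 0 := by
  intro hga
  apply hd
  have hf : f = fun w => (∏ u ∈ V, (w - (u : ℂ))) * g w := funext hfg
  have hp : DifferentiableAt ℂ (fun w : ℂ => ∏ u ∈ V, (w - (u : ℂ))) a := by
    fun_prop
  have hg' : DifferentiableAt ℂ g a := hg.differentiableAt (hΩ.mem_nhds haΩ)
  have hz : (∏ u ∈ V, ((a : ℂ) - (u : ℂ))) = 0 := Finset.prod_eq_zero ha (sub_self _)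
  rw [hf, deriv_fun_mul hp hg', hga, hz]
  simp

/-- A holomorphic logarithm on a ball. -/
theorem exists_log (g : ℂ → ℂ) (c : ℂ) (R : ℝ) (hg : DifferentiableOn ℂ g (ball c R))
    (hne : ∀ w ∈ ball c R, g w ≠ 0) :
    ∃ h : ℂ → ℂ, DifferentiableOn ℂ h (ball c R) ∧ ∀ w ∈ ball c R, g w = exp (h w) := by
  rcases le_or_gt R 0 with hR | hR
  · exact ⟨0, differentiableOn_const 0, fun w hw => by simp [ball_eq_empty.2 hR] at hw⟩
  have hq : DifferentiableOn ℂ (fun w => deriv g w / g w) (ball c R) :=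
    (hg.deriv isOpen_ball).div hg hne
  obtain ⟨h, hc, hh⟩ := hq.isExactOn_ball.with_val_at c (log (g c))
  have hd : DifferentiableOn ℂ h (ball c R) := fun w hw =>
    (hh w hw).differentiableAt.differentiableWithinAt
  refine ⟨h, hd, fun w hw => ?_⟩
  have hk : ∀ z ∈ ball c R, HasDerivAt (fun z => g z * exp (-h z)) 0 z := by
    intro z hz
    have h1 : HasDerivAt g (deriv g z) z :=
      (hg.differentiableAt (isOpen_ball.mem_nhds hz)).hasDerivAt
    have h2 := h1.mul ((hh z hz).neg.cexp)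
    have h3 : deriv g z * exp (-h z) + g z * (exp (-h z) * -(deriv g z / g z)) = 0 := by
      have := hne z hz
      field_simp
      ring
    exact h3 ▸ h2
  have hconst := isOpen_ball.is_const_of_deriv_eq_zero (convex_ball c R).isPreconnected
    (f := fun z => g z * exp (-h z))
    (fun z hz => (hk z hz).differentiableAt.differentiableWithinAt)
    (fun z hz => (hk z hz).deriv) hw (mem_ball_self hR)
  have h0 : g c * exp (-h c) = 1 := by
    rw [hc, exp_neg, exp_log (hne c (mem_ball_self hR))]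
    exact mul_inv_cancel₀ (hne c (mem_ball_self hR))
  rw [h0, exp_neg] at hconst
  have he := exp_ne_zero (h w)
  field_simp at hconst
  exact hconst

/-- A separated finite set in an interval of length `ℓ` has at most `ℓ / δ + 1` points. -/
theorem card_le (V : Finset ℝ) (δ a ℓ : ℝ) (hδ : 0 < δ) (hℓ : 0 ≤ ℓ)
    (hV : ∀ u ∈ V, a ≤ u ∧ u ≤ a + ℓ)
    (sep : ∀ u ∈ V, ∀ u' ∈ V, u ≠ u' → δ ≤ |u - u'|) : (V.card : ℝ) ≤ ℓ / δ + 1 := by
  have h1 : V.card ≤ (Finset.range (⌊ℓ / δ⌋₊ + 1)).card := by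
    refine Finset.card_le_card_of_injOn (fun u => ⌊(u - a) / δ⌋₊) ?_ ?_
    · intro u hu
      have hu' := hV u (by simpa using hu)
      simp only [Finset.coe_range, Set.mem_Iio]
      refine Nat.lt_succ_of_le (Nat.floor_le_floor ?_)
      gcongr
      linarith [hu'.2]
    · intro u hu u' hu' h
      by_contra hne
      have hs := sep u (by simpa using hu) u' (by simpa using hu') hne
      have hu0 : 0 ≤ (u - a) / δ := div_nonneg (by linarith [(hV u (by simpa using hu)).1]) hδ.le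
      have hu0' : 0 ≤ (u' - a) / δ :=
        div_nonneg (by linarith [(hV u' (by simpa using hu')).1]) hδ.le
      have e1 := Nat.floor_le hu0
      have e2 := Nat.lt_floor_add_one ((u - a) / δ)
      have e3 := Nat.floor_le hu0'
      have e4 := Nat.lt_floor_add_one ((u' - a) / δ)
      simp only at h
      rw [h] at e1 e2
      have e5 : |(u - a) / δ - (u' - a) / δ| < 1 := by
        rw [abs_lt]; constructor <;> linarith
      rw [← sub_div, abs_div, abs_of_pos hδ, div_lt_one hδ] at e5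
      have : u - a - (u' - a) = u - u' := by ring
      rw [this] at e5
      linarith
  rw [Finset.card_range] at h1
  have h2 : (V.card : ℝ) ≤ (⌊ℓ / δ⌋₊ : ℝ) + 1 := by exact_mod_cast h1
  have h3 := Nat.floor_le (div_nonneg hℓ hδ.le)
  linarith

/-- Derivative bounds from an upper bound for the real part. -/
theorem deriv_bounds (h : ℂ → ℂ) (c w₀ : ℂ) (T M : ℝ) (hT : 160 ≤ T) (hM : 0 < M)
    (hw₀ : ‖w₀ - c‖ ≤ 2) (hd : DifferentiableOn ℂ h (ball c (T / 4)))
    (hre : ∀ w ∈ ball c (T / 4), (h w - h w₀).re ≤ M) :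
    (∀ w ∈ ball c (T / 6), ‖deriv h w‖ ≤ 720 * M / T) ∧
      ∀ w ∈ ball c (T / 8), ∀ w' ∈ ball c (T / 8),
        ‖deriv h w - deriv h w'‖ ≤ 720 * M / T * 40 / T * ‖w - w'‖ := by
  have hT0 : 0 < T := by linarith
  have hsub : ∀ z ∈ ball (0 : ℂ) (T / 4 - 2), w₀ + z ∈ ball c (T / 4) := by
    intro z hz
    rw [mem_ball_zero_iff] at hz
    rw [mem_ball, dist_eq_norm]
    calc ‖w₀ + z - c‖ = ‖(w₀ - c) + z‖ := by congr 1; ring
      _ ≤ ‖w₀ - c‖ + ‖z‖ := norm_add_le _ _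
      _ < T / 4 := by linarith
  have hF : DifferentiableOn ℂ (fun z => h (w₀ + z) - h w₀) (ball 0 (T / 4 - 2)) := by
    refine DifferentiableOn.sub_const ?_ _
    exact hd.comp (by fun_prop) hsub
  have hb : ∀ w ∈ ball c (T / 5), ‖h w - h w₀‖ ≤ 18 * M := by
    intro w hw
    rw [mem_ball, dist_eq_norm] at hw
    have hz : ‖w - w₀‖ ≤ T / 5 + 2 := by
      calc ‖w - w₀‖ = ‖(w - c) - (w₀ - c)‖ := by congr 1; ring
        _ ≤ ‖w - c‖ + ‖w₀ - c‖ := norm_sub_le _ _
        _ ≤ T / 5 + 2 := by linarith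
    have hz' : w - w₀ ∈ ball (0 : ℂ) (T / 4 - 2) := by
      rw [mem_ball_zero_iff]; linarith
    have := borelCaratheodory_zero hM hF (fun z hz => hre _ (hsub z hz)) (by linarith) hz'
      (by simp)
    simp only [add_sub_cancel] at this
    refine this.trans ?_
    rw [div_le_iff₀ (by linarith)]
    nlinarith [norm_nonneg (w - w₀)]
  have h1 : ∀ w ∈ ball c (T / 6), ‖deriv h w‖ ≤ 720 * M / T := by
    intro w hw
    rw [mem_ball] at hw
    have hcb : closedBall w (T / 40) ⊆ ball c (T / 5) := by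
      intro z hz
      rw [mem_closedBall] at hz
      rw [mem_ball]
      linarith [dist_triangle z w c]
    have hdd : DifferentiableOn ℂ (fun z => h z - h w₀) (ball c (T / 5)) :=
      (hd.mono (ball_subset_ball (by linarith))).sub_const _
    have := norm_deriv_le_of_forall_mem_sphere_norm_le (by positivity : 0 < T / 40)
      (hdd.diffContOnCl_ball hcb) (C := 18 * M) fun z hz => hb z (hcb (sphere_subset_closedBall hz))
    rw [deriv_sub_const] at this
    refine this.trans (le_of_eq ?_)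
    field_simp
    norm_num
  refine ⟨h1, fun w hw w' hw' => ?_⟩
  have hdd : DifferentiableOn ℂ (deriv h) (ball c (T / 6)) :=
    (hd.deriv isOpen_ball).mono (ball_subset_ball (by linarith))
  have h2 : ∀ z ∈ ball c (T / 8), ‖deriv (deriv h) z‖ ≤ 720 * M / T * 40 / T := by
    intro z hz
    rw [mem_ball] at hz
    have hcb : closedBall z (T / 40) ⊆ ball c (T / 6) := by
      intro y hy
      rw [mem_closedBall] at hy
      rw [mem_ball]
      linarith [dist_triangle y z c]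
    have := norm_deriv_le_of_forall_mem_sphere_norm_le (by positivity : 0 < T / 40)
      (hdd.diffContOnCl_ball hcb) (C := 720 * M / T)
      fun y hy => h1 y (hcb (sphere_subset_closedBall hy))
    refine this.trans (le_of_eq ?_)
    field_simp
  exact (convex_ball c (T / 8)).norm_image_sub_le_of_norm_deriv_le
    (fun z hz => hdd.differentiableAt (isOpen_ball.mem_nhds (ball_subset_ball (by linarith) hz)))
    h2 hw' hw

theorem exists_fac_of (hdiff : DifferentiableOn ℂ zf {w | 0 < w.re})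
    (hgrowth : ∃ C : ℝ, 0 < C ∧ ∀ T : ℝ, 3 ≤ T → ∀ w : ℂ, T ≤ w.re → w.re ≤ 2 * T →
      |w.im| ≤ T → ‖zf w‖ ≤ Real.exp (C * T * Real.log T))
    (hright : ∃ C : ℝ, 0 < C ∧ ∀ w : ℂ, w.im ≤ -3 / 4 →
      zf w ≠ 0 ∧ ‖zf w‖ ≤ C ∧ ‖(zf w)⁻¹‖ ≤ C) :
    ∃ C T₀ : ℝ, 0 < C ∧ ∀ T : ℝ, T₀ ≤ T → ∀ δ : ℝ, 1 / Real.log T ≤ δ →
    ∀ U : Finset ℝ, (∀ w : ℂ, T ≤ w.re → w.re ≤ 2 * T → (zf w = 0 ↔ ∃ u ∈ U, w = u)) →
      (∀ u ∈ U, deriv zf u ≠ 0) → (∀ u ∈ U, ∀ u' ∈ U, u ≠ u' → δ ≤ |u - u'|) →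
      ∃ (V : Finset ℝ) (h : ℂ → ℂ), Fac C T δ V h := by
  classical
  obtain ⟨C₁, hC₁, hg₁⟩ := hgrowth
  obtain ⟨C₂, hC₂, hg₂⟩ := hright
  refine ⟨28800 * (C₁ + C₂ + 2), 160, by positivity, fun T hT δ hδ U hU hU' sep => ?_⟩
  have hT0 : 0 < T := by linarith
  have hL : 1 ≤ Real.log T := by
    rw [Real.le_log_iff_exp_le hT0]
    linarith [Real.exp_one_lt_d9]
  set L := Real.log T with hLdef
  have hδ0 : 0 < δ := lt_of_lt_of_le (by positivity) hδ
  set c : ℂ := ((3 * T / 2 : ℝ) : ℂ) with hc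
  set V := U.filter fun u => |u - 3 * T / 2| ≤ T / 4 with hV
  have hVU : ∀ u ∈ V, u ∈ U := fun u hu => (Finset.mem_filter.1 hu).1
  have hVa : ∀ u ∈ V, |u - 3 * T / 2| ≤ T / 4 := fun u hu => (Finset.mem_filter.1 hu).2
  have hΩ : IsOpen {w : ℂ | 0 < w.re} := isOpen_lt continuous_const continuous_re
  have hVc : ∀ u ∈ V, ‖(u : ℂ) - c‖ ≤ T / 4 := by
    intro u hu
    rw [hc, ← ofReal_sub, norm_real, Real.norm_eq_abs]
    exact hVa u hu
  -- points of the closed ball of radius `T / 2`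
  have hball : ∀ w : ℂ, ‖w - c‖ ≤ T / 2 → T ≤ w.re ∧ w.re ≤ 2 * T ∧ |w.im| ≤ T := by
    intro w hw
    have h1 := (abs_re_le_norm (w - c)).trans hw
    have h2 := (abs_im_le_norm (w - c)).trans hw
    simp only [hc, sub_re, ofReal_re, sub_im, ofReal_im, sub_zero] at h1 h2
    rw [abs_le] at h1
    exact ⟨by linarith [h1.1], by linarith [h1.2], by linarith⟩
  have hV0 : ∀ u ∈ V, (u : ℂ) ∈ {w : ℂ | 0 < w.re} ∧ zf u = 0 := by
    intro u hu
    have hb := hball u ((hVc u hu).trans (by linarith))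
    exact ⟨lt_of_lt_of_le hT0 hb.1, (hU u hb.1 hb.2.1).2 ⟨u, hVU u hu, rfl⟩⟩
  obtain ⟨g, hg, hfg⟩ := exists_quot _ hΩ zf hdiff V hV0
  have hcard : (V.card : ℝ) ≤ T * L := by
    have h1 := card_le V δ (5 * T / 4) (T / 2) hδ0 (by positivity)
      (fun u hu => by
        have := abs_le.1 (hVa u hu)
        exact ⟨by linarith [this.1], by linarith [this.2]⟩)
      (fun u hu u' hu' => sep u (hVU u hu) u' (hVU u' hu'))
    have h2 : T / 2 / δ ≤ T / 2 * L := by
      rw [div_le_iff₀ hδ0]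
      have : 1 ≤ L * δ := by
        rw [div_le_iff₀ (by linarith)] at hδ
        linarith
      nlinarith
    nlinarith
  have hcb : closedBall c (T / 2) ⊆ {w : ℂ | 0 < w.re} := fun w hw =>
    lt_of_lt_of_le hT0 (hball w (by simpa [dist_eq_norm] using hw)).1
  -- maximum principle
  have hmax : ∀ w ∈ ball c (T / 4), ‖g w‖ ≤ Real.exp (C₁ * T * L) / (T / 4) ^ V.card := by
    intro w hw
    refine norm_le_of_forall_mem_frontier_norm_le (U := ball c (T / 2)) isBounded_ball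
      (hg.diffContOnCl_ball hcb) (fun z hz => ?_)
      (subset_closure (ball_subset_ball (by linarith) hw))
    rw [frontier_ball c (by positivity), mem_sphere, dist_eq_norm] at hz
    have hb := hball z hz.le
    have h1 := hg₁ T (by linarith) z hb.1 hb.2.1 hb.2.2
    have h2 : (T / 4) ^ V.card ≤ ‖∏ u ∈ V, (z - (u : ℂ))‖ := by
      rw [norm_prod, ← Finset.prod_const]
      refine Finset.prod_le_prod (fun _ _ => by positivity) fun u hu => ?_
      have h3 : ‖z - c‖ ≤ ‖z - u‖ + ‖(u : ℂ) - c‖ := by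
        calc ‖z - c‖ = ‖(z - u) + (u - c)‖ := by congr 1; ring
          _ ≤ _ := norm_add_le _ _
      linarith [hVc u hu]
    rw [hfg z, norm_mul] at h1
    rw [le_div_iff₀ (by positivity)]
    calc ‖g z‖ * (T / 4) ^ V.card ≤ ‖g z‖ * ‖∏ u ∈ V, (z - (u : ℂ))‖ := by gcongr
      _ ≤ _ := by rw [mul_comm]; exact h1
  -- the base point
  set w₀ : ℂ := c - I with hw₀
  have hw₀c : ‖w₀ - c‖ = 1 := by simp [hw₀]
  have hw₀b : w₀ ∈ ball c (T / 4) := by
    rw [mem_ball, dist_eq_norm, hw₀c]; linarith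
  have hlow : 1 ≤ C₂ * (T / 2) ^ V.card * ‖g w₀‖ := by
    obtain ⟨h1, -, h3⟩ := hg₂ w₀ (by simp [hw₀, hc]; norm_num)
    have h2 : ‖∏ u ∈ V, (w₀ - (u : ℂ))‖ ≤ (T / 2) ^ V.card := by
      rw [norm_prod, ← Finset.prod_const]
      refine Finset.prod_le_prod (fun _ _ => by positivity) fun u hu => ?_
      have h3 : ‖w₀ - u‖ ≤ ‖w₀ - c‖ + ‖(u : ℂ) - c‖ := by
        calc ‖w₀ - u‖ = ‖(w₀ - c) - (u - c)‖ := by congr 1; ring
          _ ≤ _ := norm_sub_le _ _
      linarith [hVc u hu]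
    have h4 : ‖zf w₀‖ ≤ (T / 2) ^ V.card * ‖g w₀‖ := by
      rw [hfg w₀, norm_mul]; gcongr
    calc (1 : ℝ) = ‖(zf w₀)⁻¹‖ * ‖zf w₀‖ := by rw [← norm_mul, inv_mul_cancel₀ h1, norm_one]
      _ ≤ C₂ * ((T / 2) ^ V.card * ‖g w₀‖) := by gcongr
      _ = _ := by ring
  have hne : ∀ w ∈ ball c (T / 4), g w ≠ 0 := by
    intro w hw hgw
    rw [mem_ball, dist_eq_norm] at hw
    have hb := hball w (by linarith)
    obtain ⟨u, hu, rfl⟩ := (hU w hb.1 hb.2.1).1 (by rw [hfg w, hgw, mul_zero])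
    have huV : u ∈ V := by
      refine Finset.mem_filter.2 ⟨hu, ?_⟩
      rw [hc, ← ofReal_sub, norm_real, Real.norm_eq_abs] at hw
      exact hw.le
    exact quot_ne_zero _ hΩ zf g hg V hfg u huV (hV0 u huV).1 (hU' u hu) hgw
  obtain ⟨h, hd, hgh⟩ := exists_log g c (T / 4)
    (hg.mono fun w hw => hcb (ball_subset_closedBall (ball_subset_ball (by linarith) hw))) hne
  have hre : ∀ w ∈ ball c (T / 4), (h w - h w₀).re ≤ (C₁ + C₂ + 2) * T * L := by
    intro w hw
    have h1 := hmax w hw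
    rw [hgh w hw, norm_exp] at h1
    rw [hgh w₀ hw₀b, norm_exp] at hlow
    have h2 : Real.exp ((h w - h w₀).re) ≤ C₂ * 2 ^ V.card * Real.exp (C₁ * T * L) := by
      rw [sub_re, Real.exp_sub, div_le_iff₀ (Real.exp_pos _)]
      calc Real.exp (h w).re ≤ Real.exp (C₁ * T * L) / (T / 4) ^ V.card * 1 := by
            rw [mul_one]; exact h1
        _ ≤ Real.exp (C₁ * T * L) / (T / 4) ^ V.card *
            (C₂ * (T / 2) ^ V.card * Real.exp (h w₀).re) := by gcongr
        _ = _ := by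
          have : (T / 2) ^ V.card = 2 ^ V.card * (T / 4) ^ V.card := by
            rw [← mul_pow]; congr 1; ring
          rw [this]
          field_simp
    have h3 : C₂ ≤ Real.exp C₂ := by linarith [Real.add_one_le_exp C₂]
    have h4 : (2 : ℝ) ^ V.card ≤ Real.exp V.card := by
      rw [← mul_one (V.card : ℝ), Real.exp_nat_mul]
      gcongr
      linarith [Real.add_one_le_exp (1 : ℝ)]
    have h5 : Real.exp ((h w - h w₀).re) ≤ Real.exp (C₂ + V.card + C₁ * T * L) := by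
      rw [Real.exp_add, Real.exp_add]
      refine h2.trans ?_
      gcongr
    have h6 := Real.exp_le_exp.1 h5
    have h7 : 1 ≤ T * L := by nlinarith
    nlinarith
  obtain ⟨d1, d2⟩ := deriv_bounds h c w₀ T _ hT (by positivity) (by rw [hw₀c]; norm_num) hd hre
  have hsub : disc T ⊆ ball c (T / 4) := ball_subset_ball (by linarith)
  refine ⟨V, h, fun u hu u' hu' => sep u (hVU u hu) u' (hVU u' hu'), hd.mono hsub,
    fun w hw => by rw [hfg w, hgh w (hsub hw)], fun w hw => ?_, fun w hw w' hw' => ?_⟩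
  · refine (d1 w (ball_subset_ball (by linarith) hw)).trans ?_
    have : 720 * ((C₁ + C₂ + 2) * T * L) / T = 720 * (C₁ + C₂ + 2) * L := by field_simp
    rw [this]
    gcongr
    norm_num
  · refine (d2 w hw w' hw').trans (le_of_eq ?_)
    field_simp
    ring

end Pool.Agent.MP_ca0a54_nt.L0.Factor

namespace Pool.Agent.MP_ca0a54_nt.L0

theorem exists_fac : ∃ C T₀ : ℝ, 0 < C ∧ ∀ T : ℝ, T₀ ≤ T → ∀ δ : ℝ, 1 / Real.log T ≤ δ →
    ∀ U : Finset ℝ, (∀ w : ℂ, T ≤ w.re → w.re ≤ 2 * T → (zf w = 0 ↔ ∃ u ∈ U, w = u)) →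
      (∀ u ∈ U, deriv zf u ≠ 0) → (∀ u ∈ U, ∀ u' ∈ U, u ≠ u' → δ ≤ |u - u'|) →
      ∃ (V : Finset ℝ) (h : ℂ → ℂ), Fac C T δ V h :=
  Factor.exists_fac_of zf_differentiableOn zf_growth zf_right

end Pool.Agent.MP_ca0a54_nt.L0
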