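import Pool.Agent.MP_ca0a54_nt.L0.Defs

/-!
Residue theorem on a rectangle for finitely many simple real poles, choice of the vertical sides,
and Gaussian sums over separated sets.
-/

open Complex Filter Topology

namespace Pool.Agent.MP_ca0a54_nt.L0

namespace Residue

/-- The boundary of the rectangle `[x₁, x₂] × [-Y, Y]`. -/
def bd (x₁ x₂ Y : ℝ) : Set ℂ :=
  {w | w ∈ Set.Icc x₁ x₂ ×ℂ Set.Icc (-Y) Y ∧ (w.re = x₁ ∨ w.re = x₂ ∨ w.im = -Y ∨ w.im = Y)}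

theorem bd_subset (x₁ x₂ Y : ℝ) : bd x₁ x₂ Y ⊆ Set.Icc x₁ x₂ ×ℂ Set.Icc (-Y) Y := fun _ h => h.1

variable {x₁ x₂ Y : ℝ}

theorem bot_mem (hx : x₁ < x₂) (hY : 0 < Y) {x : ℝ} (h : x ∈ Set.uIcc x₁ x₂) :
    ((x : ℂ) - Y * I) ∈ bd x₁ x₂ Y := by
  rw [Set.uIcc_of_le hx.le] at h
  refine ⟨?_, Or.inr (Or.inr (Or.inl (by simp)))⟩
  rw [mem_reProdIm]
  refine ⟨by simpa using h, ?_⟩
  simp [hY.le]

theorem top_mem (hx : x₁ < x₂) (hY : 0 < Y) {x : ℝ} (h : x ∈ Set.uIcc x₁ x₂) :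
    ((x : ℂ) + Y * I) ∈ bd x₁ x₂ Y := by
  rw [Set.uIcc_of_le hx.le] at h
  refine ⟨?_, Or.inr (Or.inr (Or.inr (by simp)))⟩
  rw [mem_reProdIm]
  refine ⟨by simpa using h, ?_⟩
  simp [hY.le]

theorem right_mem (hx : x₁ < x₂) (hY : 0 < Y) {y : ℝ} (h : y ∈ Set.uIcc (-Y) Y) :
    ((x₂ : ℂ) + y * I) ∈ bd x₁ x₂ Y := by
  rw [Set.uIcc_of_le (by linarith)] at h
  refine ⟨?_, Or.inr (Or.inl (by simp))⟩
  rw [mem_reProdIm]
  refine ⟨by simp [hx.le], by simpa using h⟩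

theorem left_mem (hx : x₁ < x₂) (hY : 0 < Y) {y : ℝ} (h : y ∈ Set.uIcc (-Y) Y) :
    ((x₁ : ℂ) + y * I) ∈ bd x₁ x₂ Y := by
  rw [Set.uIcc_of_le (by linarith)] at h
  refine ⟨?_, Or.inl (by simp)⟩
  rw [mem_reProdIm]
  refine ⟨by simp [hx.le], by simpa using h⟩

theorem rectInt_congr (hx : x₁ < x₂) (hY : 0 < Y) {F G : ℂ → ℂ}
    (h : Set.EqOn F G (bd x₁ x₂ Y)) : rectInt F x₁ x₂ Y = rectInt G x₁ x₂ Y := by
  unfold rectInt
  rw [intervalIntegral.integral_congr (g := fun x : ℝ => G (x - Y * I))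
      fun x hx' => h (bot_mem hx hY hx'),
    intervalIntegral.integral_congr (f := fun x : ℝ => F (x + Y * I))
      (g := fun x : ℝ => G (x + Y * I)) fun x hx' => h (top_mem hx hY hx'),
    intervalIntegral.integral_congr (f := fun y : ℝ => F (x₂ + y * I))
      (g := fun y : ℝ => G (x₂ + y * I)) fun y hy' => h (right_mem hx hY hy'),
    intervalIntegral.integral_congr (f := fun y : ℝ => F (x₁ + y * I))
      (g := fun y : ℝ => G (x₁ + y * I)) fun y hy' => h (left_mem hx hY hy')]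

theorem int_bot (hx : x₁ < x₂) (hY : 0 < Y) {F : ℂ → ℂ} (h : ContinuousOn F (bd x₁ x₂ Y)) :
    IntervalIntegrable (fun x : ℝ => F (x - Y * I)) MeasureTheory.volume x₁ x₂ :=
  (h.comp (f := fun x : ℝ => (x : ℂ) - Y * I) (by fun_prop)
    fun _ hx' => bot_mem hx hY hx').intervalIntegrable

theorem int_top (hx : x₁ < x₂) (hY : 0 < Y) {F : ℂ → ℂ} (h : ContinuousOn F (bd x₁ x₂ Y)) :
    IntervalIntegrable (fun x : ℝ => F (x + Y * I)) MeasureTheory.volume x₁ x₂ :=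
  (h.comp (f := fun x : ℝ => (x : ℂ) + Y * I) (by fun_prop)
    fun _ hx' => top_mem hx hY hx').intervalIntegrable

theorem int_right (hx : x₁ < x₂) (hY : 0 < Y) {F : ℂ → ℂ} (h : ContinuousOn F (bd x₁ x₂ Y)) :
    IntervalIntegrable (fun y : ℝ => F (x₂ + y * I)) MeasureTheory.volume (-Y) Y :=
  (h.comp (f := fun y : ℝ => (x₂ : ℂ) + y * I) (by fun_prop)
    fun _ hy' => right_mem hx hY hy').intervalIntegrable

theorem int_left (hx : x₁ < x₂) (hY : 0 < Y) {F : ℂ → ℂ} (h : ContinuousOn F (bd x₁ x₂ Y)) :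
    IntervalIntegrable (fun y : ℝ => F (x₁ + y * I)) MeasureTheory.volume (-Y) Y :=
  (h.comp (f := fun y : ℝ => (x₁ : ℂ) + y * I) (by fun_prop)
    fun _ hy' => left_mem hx hY hy').intervalIntegrable

theorem rectInt_add (hx : x₁ < x₂) (hY : 0 < Y) {F G : ℂ → ℂ}
    (hF : ContinuousOn F (bd x₁ x₂ Y)) (hG : ContinuousOn G (bd x₁ x₂ Y)) :
    rectInt (fun w => F w + G w) x₁ x₂ Y = rectInt F x₁ x₂ Y + rectInt G x₁ x₂ Y := by
  unfold rectInt
  rw [intervalIntegral.integral_add (int_bot hx hY hF) (int_bot hx hY hG),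
    intervalIntegral.integral_add (int_top hx hY hF) (int_top hx hY hG),
    intervalIntegral.integral_add (int_right hx hY hF) (int_right hx hY hG),
    intervalIntegral.integral_add (int_left hx hY hF) (int_left hx hY hG)]
  ring

theorem rectInt_const_mul (c : ℂ) (F : ℂ → ℂ) :
    rectInt (fun w => c * F w) x₁ x₂ Y = c * rectInt F x₁ x₂ Y := by
  unfold rectInt
  simp only [intervalIntegral.integral_const_mul]
  ring

theorem rectInt_sum (hx : x₁ < x₂) (hY : 0 < Y) (W : Finset ℝ) (F : ℝ → ℂ → ℂ)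
    (hF : ∀ u ∈ W, ContinuousOn (F u) (bd x₁ x₂ Y)) :
    rectInt (fun w => ∑ u ∈ W, F u w) x₁ x₂ Y = ∑ u ∈ W, rectInt (F u) x₁ x₂ Y := by
  induction W using Finset.induction_on with
  | empty => simp [rectInt]
  | insert a s ha ih =>
    simp only [Finset.sum_insert ha]
    rw [rectInt_add hx hY (hF a (Finset.mem_insert_self a s))
      (continuousOn_finsetSum s fun u hu => hF u (Finset.mem_insert_of_mem hu)),
      ih fun u hu => hF u (Finset.mem_insert_of_mem hu)]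

theorem rectInt_eq_zero (hx : x₁ < x₂) (hY : 0 < Y) {F : ℂ → ℂ}
    (hF : DifferentiableOn ℂ F (Set.Icc x₁ x₂ ×ℂ Set.Icc (-Y) Y)) : rectInt F x₁ x₂ Y = 0 := by
  have h := integral_boundary_rect_eq_zero_of_differentiableOn F ⟨x₁, -Y⟩ ⟨x₂, Y⟩ (by
    simp only
    rw [Set.uIcc_of_le hx.le, Set.uIcc_of_le (by linarith)]
    exact hF)
  simp only [smul_eq_mul, ofReal_neg, neg_mul, ← sub_eq_add_neg] at h
  exact h

theorem log_neg_of_im_pos {z : ℂ} (hz : 0 < z.im) : log (-z) = log z - Real.pi * I := by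
  unfold Complex.log
  rw [arg_neg_eq_arg_sub_pi_of_im_pos hz, norm_neg]
  push_cast
  ring

theorem log_neg_of_im_neg {z : ℂ} (hz : z.im < 0) : log (-z) = log z + Real.pi * I := by
  unfold Complex.log
  rw [arg_neg_eq_arg_add_pi_of_im_neg hz, norm_neg]
  push_cast
  ring

theorem horiz (c : ℂ) (hc : c.im ≠ 0) (a b : ℝ) :
    ∫ x in a..b, ((x : ℂ) + c)⁻¹ = log (b + c) - log (a + c) := by
  have hs : ∀ x : ℝ, (x : ℂ) + c ∈ slitPlane := fun x => Or.inr (by simpa using hc)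
  refine intervalIntegral.integral_eq_sub_of_hasDerivAt (f := fun x : ℝ => log ((x : ℂ) + c))
    (fun x _ => ?_) ?_
  · have h1 : HasDerivAt (fun z : ℂ => log (z + c)) (1 / ((x : ℂ) + c)) x :=
      ((hasDerivAt_id (x : ℂ)).add_const c).clog (hs x)
    rw [one_div] at h1
    exact h1.comp_ofReal
  · refine Continuous.intervalIntegrable ?_ a b
    exact Continuous.inv₀ (by fun_prop) fun x => slitPlane_ne_zero (hs x)

theorem vert (c : ℂ) (hc : 0 < c.re) (s : ℂ) (hs' : s.im = 0) (a b : ℝ) :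
    ∫ y in a..b, s * I * (c + s * y * I)⁻¹ = log (c + s * b * I) - log (c + s * a * I) := by
  have hs : ∀ y : ℝ, c + s * y * I ∈ slitPlane := fun y => Or.inl (by simpa [hs'] using hc)
  refine intervalIntegral.integral_eq_sub_of_hasDerivAt
    (f := fun y : ℝ => log (c + s * y * I)) (fun y _ => ?_) ?_
  · have h0 : HasDerivAt (fun z : ℂ => c + s * z * I) (s * 1 * I) y :=
      (((hasDerivAt_id (y : ℂ)).const_mul s).mul_const I).const_add c
    have h1 := h0.clog (hs y)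
    rw [mul_one, div_eq_mul_inv] at h1
    exact h1.comp_ofReal
  · refine Continuous.intervalIntegrable ?_ a b
    exact continuous_const.mul (Continuous.inv₀ (by fun_prop) fun y => slitPlane_ne_zero (hs y))

theorem rectInt_inv (hY : 0 < Y) {u : ℝ} (h₁ : x₁ < u) (h₂ : u < x₂) :
    rectInt (fun w => (w - (u : ℂ))⁻¹) x₁ x₂ Y = 2 * Real.pi * I := by
  unfold rectInt
  have e1 := horiz (-(u : ℂ) - Y * I) (by simpa using hY.ne') x₁ x₂
  have e2 := horiz (-(u : ℂ) + Y * I) (by simpa using hY.ne') x₁ x₂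
  have e3 := vert ((x₂ : ℂ) - u) (by simpa using h₂) 1 (by simp) (-Y) Y
  have e4 := vert ((u : ℂ) - x₁) (by simpa using h₁) (-1) (by simp) (-Y) Y
  have f1 : (∫ x in x₁..x₂, ((x : ℂ) - Y * I - u)⁻¹) = ∫ x in x₁..x₂, ((x : ℂ) + (-u - Y * I))⁻¹ := by
    congr 1
    ext x
    congr 1
    ring
  have f2 : (∫ x in x₁..x₂, ((x : ℂ) + Y * I - u)⁻¹) = ∫ x in x₁..x₂, ((x : ℂ) + (-u + Y * I))⁻¹ := by
    congr 1
    ext x
    congr 1
    ring
  have f3 : I * (∫ y in (-Y)..Y, ((x₂ : ℂ) + y * I - u)⁻¹) =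
      ∫ y in (-Y)..Y, 1 * I * ((x₂ : ℂ) - u + 1 * y * I)⁻¹ := by
    rw [← intervalIntegral.integral_const_mul]
    congr 1
    ext y
    rw [one_mul, one_mul]
    congr 2
    ring
  have f4 : I * (∫ y in (-Y)..Y, ((x₁ : ℂ) + y * I - u)⁻¹) =
      ∫ y in (-Y)..Y, -1 * I * ((u : ℂ) - x₁ + -1 * y * I)⁻¹ := by
    rw [← intervalIntegral.integral_const_mul]
    congr 1
    ext y
    rw [show (u : ℂ) - x₁ + -1 * y * I = -((x₁ : ℂ) + y * I - u) by ring, inv_neg]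
    ring
  rw [f1, f2, f3, f4, e1, e2, e3, e4]
  have g1 := log_neg_of_im_pos (z := (x₁ : ℂ) + (-u + Y * I)) (by simpa using hY)
  have g2 := log_neg_of_im_neg (z := (x₁ : ℂ) + (-u - Y * I)) (by simpa using hY)
  rw [show (u : ℂ) - x₁ + -1 * Y * I = -((x₁ : ℂ) + (-u + Y * I)) by ring,
    show (u : ℂ) - x₁ + -1 * ((-Y : ℝ) : ℂ) * I = -((x₁ : ℂ) + (-u - Y * I)) by push_cast; ring,
    show (x₂ : ℂ) - u + 1 * Y * I = (x₂ : ℂ) + (-u + Y * I) by ring,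
    show (x₂ : ℂ) - u + 1 * ((-Y : ℝ) : ℂ) * I = (x₂ : ℂ) + (-u - Y * I) by push_cast; ring,
    g1, g2]
  ring

theorem ne_of_mem_bd (hY : 0 < Y) {u : ℝ} (h₁ : u ≠ x₁) (h₂ : u ≠ x₂) {w : ℂ}
    (hw : w ∈ bd x₁ x₂ Y) : w - (u : ℂ) ≠ 0 := by
  intro h
  have hw' : w = u := sub_eq_zero.mp h
  subst hw'
  rcases hw.2 with h | h | h | h
  · exact h₁ (by simpa using h)
  · exact h₂ (by simpa using h)
  · simp only [ofReal_im] at h
    linarith
  · simp only [ofReal_im] at h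
    linarith

theorem cont_inv (hY : 0 < Y) {u : ℝ} (h₁ : u ≠ x₁) (h₂ : u ≠ x₂) :
    ContinuousOn (fun w : ℂ => (w - (u : ℂ))⁻¹) (bd x₁ x₂ Y) :=
  ContinuousOn.inv₀ (by fun_prop) fun _ hw => ne_of_mem_bd hY h₁ h₂ hw

theorem rectInt_single (hx : x₁ < x₂) (hY : 0 < Y) {H : ℂ → ℂ}
    (hH : DifferentiableOn ℂ H (Set.Icc x₁ x₂ ×ℂ Set.Icc (-Y) Y)) {u : ℝ} (h₁ : u ≠ x₁)
    (h₂ : u ≠ x₂) :
    rectInt (fun w => H w * (w - (u : ℂ))⁻¹) x₁ x₂ Y =
      if x₁ < u ∧ u < x₂ then 2 * Real.pi * I * H u else 0 := by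
  split_ifs with h
  · have hn : (Set.Icc x₁ x₂ ×ℂ Set.Icc (-Y) Y) ∈ 𝓝 (u : ℂ) := by
      have ho : IsOpen (Set.Ioo x₁ x₂ ×ℂ Set.Ioo (-Y) Y) := isOpen_Ioo.reProdIm isOpen_Ioo
      refine mem_of_superset (ho.mem_nhds ?_) ?_
      · rw [mem_reProdIm]
        exact ⟨by simpa using h, by simp [hY]⟩
      · intro w hw
        rw [mem_reProdIm] at hw ⊢
        exact ⟨Set.Ioo_subset_Icc_self hw.1, Set.Ioo_subset_Icc_self hw.2⟩
    have hd : DifferentiableOn ℂ (dslope H u) (Set.Icc x₁ x₂ ×ℂ Set.Icc (-Y) Y) :=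
      (differentiableOn_dslope hn).mpr hH
    rw [rectInt_congr hx hY (G := fun w => dslope H u w + H u * (w - (u : ℂ))⁻¹),
      rectInt_add hx hY (G := fun w => H u * (w - (u : ℂ))⁻¹)
      (hd.continuousOn.mono (bd_subset _ _ _)) (continuousOn_const.mul (cont_inv hY h₁ h₂)),
      rectInt_eq_zero hx hY hd, rectInt_const_mul, rectInt_inv hY h.1 h.2]
    · ring
    · intro w hw
      have hw' := ne_of_mem_bd hY h₁ h₂ hw
      simp only
      rw [dslope_of_ne _ (sub_ne_zero.mp hw'), slope_def_field]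
      field_simp
      ring
  · refine rectInt_eq_zero hx hY (hH.mul (DifferentiableOn.inv (by fun_prop) ?_))
    intro w hw h0
    have hw' : w = u := sub_eq_zero.mp h0
    subst hw'
    rw [mem_reProdIm] at hw
    simp only [ofReal_re, Set.mem_Icc] at hw
    exact h ⟨lt_of_le_of_ne hw.1.1 h₁.symm, lt_of_le_of_ne hw.1.2 h₂⟩

theorem inv_prod_eq_sum (W : Finset ℝ) (hW : W.Nonempty) (w : ℂ)
    (hw : ∀ u ∈ W, w - (u : ℂ) ≠ 0) :
    (∏ u ∈ W, (w - (u : ℂ)))⁻¹ = ∑ u ∈ W, (pd W u : ℂ)⁻¹ * (w - (u : ℂ))⁻¹ := by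
  have hinj : Set.InjOn (fun u : ℝ => (u : ℂ)) W := fun a _ b _ h => ofReal_injective h
  have h := Lagrange.eval_interpolate_not_at_node (s := W) (v := fun u : ℝ => (u : ℂ)) (x := w)
    (1 : ℝ → ℂ) fun u hu => sub_ne_zero.mp (hw u hu)
  rw [Lagrange.interpolate_one hinj hW, Polynomial.eval_one, Lagrange.eval_nodal] at h
  have hp : (∏ u ∈ W, (w - (u : ℂ))) ≠ 0 := Finset.prod_ne_zero_iff.mpr hw
  symm
  apply eq_inv_of_mul_eq_one_right
  rw [h]
  congr 1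
  refine Finset.sum_congr rfl fun u _ => ?_
  simp only [Lagrange.nodalWeight, pd, Pi.one_apply, mul_one, Finset.prod_inv_distrib]
  push_cast
  rfl

/-- Among four points at mutual distance `2 r` one is far from three shifted copies of `V`. -/
theorem exists_free (V : Finset ℝ) (r c : ℝ) (hr : 0 < r)
    (sep : ∀ u ∈ V, ∀ u' ∈ V, u ≠ u' → 10 * r ≤ |u - u'|) (s : Fin 3 → ℝ) :
    ∃ x : ℝ, c ≤ x ∧ x ≤ c + 6 * r ∧ ∀ u ∈ V, ∀ j, r ≤ |x - (u + s j)| := by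
  by_contra hcon
  push Not at hcon
  have hk : ∀ k : Fin 4, ∃ u ∈ V, ∃ j, |c + 2 * (k : ℕ) * r - (u + s j)| < r := by
    intro k
    have h0 : (0 : ℝ) ≤ (k : ℕ) := Nat.cast_nonneg _
    have h3 : ((k : ℕ) : ℝ) ≤ 3 := by exact_mod_cast Nat.lt_succ_iff.mp k.2
    exact hcon _ (by nlinarith) (by nlinarith)
  choose u hu j hj using hk
  obtain ⟨k, k', hne, hjj⟩ := Fintype.exists_ne_map_eq_of_card_lt j (by simp)
  have a1 := abs_lt.mp (hj k)
  have a2 := abs_lt.mp (hj k')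
  rw [hjj] at a1
  have h0 : (0 : ℝ) ≤ (k : ℕ) := Nat.cast_nonneg _
  have h3 : ((k : ℕ) : ℝ) ≤ 3 := by exact_mod_cast Nat.lt_succ_iff.mp k.2
  have h0' : (0 : ℝ) ≤ (k' : ℕ) := Nat.cast_nonneg _
  have h3' : ((k' : ℕ) : ℝ) ≤ 3 := by exact_mod_cast Nat.lt_succ_iff.mp k'.2
  by_cases huu : u k = u k'
  · rw [huu] at a1
    have hne' : (k : ℕ) ≠ (k' : ℕ) := fun h => hne (Fin.ext h)
    rcases lt_or_gt_of_ne hne' with h | h
    · have : ((k : ℕ) : ℝ) + 1 ≤ (k' : ℕ) := by exact_mod_cast h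
      nlinarith [a1.1, a2.2]
    · have : ((k' : ℕ) : ℝ) + 1 ≤ (k : ℕ) := by exact_mod_cast h
      nlinarith [a1.2, a2.1]
  · have := sep _ (hu k) _ (hu k') huu
    have hlt : |u k - u k'| < 10 * r := by
      rw [abs_lt]
      constructor <;> nlinarith [a1.1, a1.2, a2.1, a2.2]
    linarith

theorem sum_exp_le (W : Finset ℝ) (g : ℝ → ℝ) (δ : ℝ) (hδ : 0 < δ) (hδ' : δ ≤ 1)
    (hg : ∀ u ∈ W, 0 ≤ g u) (sep : ∀ u ∈ W, ∀ u' ∈ W, u ≠ u' → δ ≤ |g u - g u'|) :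
    ∑ u ∈ W, Real.exp (-g u) ≤ 2 / δ := by
  set q := Real.exp (-δ) with hq
  have hq0 : 0 ≤ q := (Real.exp_pos _).le
  have hq1 : q ≤ 1 - δ / 2 := by
    have h1 : 1 + δ ≤ Real.exp δ := by linarith [Real.add_one_le_exp δ]
    have h2 : q * Real.exp δ = 1 := by rw [hq, ← Real.exp_add]; simp
    nlinarith
  have hq2 : q < 1 := by linarith
  let φ : ℝ → ℕ := fun u => ⌊g u / δ⌋₊
  have hφ1 : ∀ u ∈ W, (φ u : ℝ) * δ ≤ g u := fun u hu =>
    (le_div_iff₀ hδ).mp (Nat.floor_le (div_nonneg (hg u hu) hδ.le))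
  have hφ2 : ∀ u ∈ W, g u < ((φ u : ℝ) + 1) * δ := fun u _ =>
    (div_lt_iff₀ hδ).mp (Nat.lt_floor_add_one _)
  have hinj : Set.InjOn φ W := by
    intro u hu u' hu' h
    by_contra hne
    have := sep u hu u' hu' hne
    have a1 := hφ1 u hu
    have a2 := hφ2 u hu
    have a3 := hφ1 u' hu'
    have a4 := hφ2 u' hu'
    rw [h] at a1 a2
    have : |g u - g u'| < δ := by
      rw [abs_lt]
      constructor <;> nlinarith
    linarith
  calc ∑ u ∈ W, Real.exp (-g u) ≤ ∑ u ∈ W, q ^ φ u := by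
        refine Finset.sum_le_sum fun u hu => ?_
        rw [hq, ← Real.exp_nat_mul]
        exact Real.exp_le_exp.mpr (by linarith [hφ1 u hu])
    _ = ∑ k ∈ W.image φ, q ^ k := (Finset.sum_image (f := fun k => q ^ k) hinj).symm
    _ ≤ (1 - q)⁻¹ := sum_le_hasSum _ (fun k _ => pow_nonneg hq0 k)
        (hasSum_geometric_of_lt_one hq0 hq2)
    _ ≤ 2 / δ := by
        rw [inv_eq_one_div, div_le_div_iff₀ (by linarith) hδ]
        linarith

end Residue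

open Residue

theorem rect_residue (H : ℂ → ℂ) (x₁ x₂ Y : ℝ) (hx : x₁ < x₂) (hY : 0 < Y)
    (hH : DifferentiableOn ℂ H (Set.Icc x₁ x₂ ×ℂ Set.Icc (-Y) Y)) (W : Finset ℝ)
    (h₁ : x₁ ∉ W) (h₂ : x₂ ∉ W) :
    rectInt (fun w => H w / ∏ u ∈ W, (w - (u : ℂ))) x₁ x₂ Y =
      2 * Real.pi * I * ∑ u ∈ mid W x₁ x₂, H u / (pd W u : ℂ) := by
  rcases W.eq_empty_or_nonempty with rfl | hW
  · simp only [Finset.prod_empty, div_one, mid, Finset.filter_empty, Finset.sum_empty, mul_zero]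
    exact rectInt_eq_zero hx hY hH
  have n1 : ∀ u ∈ W, u ≠ x₁ := fun u hu h => h₁ (h ▸ hu)
  have n2 : ∀ u ∈ W, u ≠ x₂ := fun u hu h => h₂ (h ▸ hu)
  rw [rectInt_congr hx hY
    (G := fun w => ∑ u ∈ W, (pd W u : ℂ)⁻¹ * (H w * (w - (u : ℂ))⁻¹)),
    rectInt_sum hx hY W (fun u w => (pd W u : ℂ)⁻¹ * (H w * (w - (u : ℂ))⁻¹))]
  · rw [mid, Finset.sum_filter, Finset.mul_sum]
    refine Finset.sum_congr rfl fun u hu => ?_
    rw [rectInt_const_mul, rectInt_single hx hY hH (n1 u hu) (n2 u hu)]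
    split_ifs
    · rw [div_eq_mul_inv]
      ring
    · simp
  · intro u hu
    exact continuousOn_const.mul ((hH.continuousOn.mono (bd_subset _ _ _)).mul
      (cont_inv hY (n1 u hu) (n2 u hu)))
  · intro w hw
    simp only
    rw [div_eq_mul_inv, inv_prod_eq_sum W hW w fun u hu => ne_of_mem_bd hY (n1 u hu) (n2 u hu) hw,
      Finset.mul_sum]
    refine Finset.sum_congr rfl fun u _ => ?_
    ring

theorem exists_sides : ∃ r₀ T₀ : ℝ, 0 < r₀ ∧ ∀ T : ℝ, T₀ ≤ T → ∀ (δ a : ℝ) (V : Finset ℝ),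
    1 / Real.log T ≤ δ → (∀ u ∈ V, ∀ u' ∈ V, u ≠ u' → δ ≤ |u - u'|) →
      ∃ x₁ x₂ : ℝ, Sides T a (r₀ / Real.log T) V x₁ x₂ := by
  refine ⟨1 / 10, 100, by norm_num, fun T hT δ a V hδ sep => ?_⟩
  have hL : 1 ≤ Real.log T := by
    rw [Real.le_log_iff_exp_le (by linarith)]
    linarith [Real.exp_one_lt_d9]
  set r := 1 / 10 / Real.log T with hr
  have hr0 : 0 < r := by positivity
  have hr1 : r ≤ 1 / 10 := div_le_self (by norm_num) hL
  have sep' : ∀ u ∈ V, ∀ u' ∈ V, u ≠ u' → 10 * r ≤ |u - u'| := fun u hu u' hu' hne => by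
    refine le_trans (le_of_eq ?_) (hδ.trans (sep u hu u' hu' hne))
    rw [hr]
    ring
  obtain ⟨x₁, a1, a2, a3⟩ := exists_free V r (3 * T / 2 - T / 10) hr0 sep' ![0, a, -a]
  obtain ⟨x₂, b1, b2, b3⟩ := exists_free V r (3 * T / 2 + T / 11) hr0 sep' ![0, a, -a]
  refine ⟨x₁, x₂, a1, by linarith, b1, by linarith, fun u hu x hx => ?_⟩
  rcases hx with rfl | rfl
  · exact ⟨by simpa using a3 u hu 0, by simpa using a3 u hu 1,
      by simpa [sub_eq_add_neg] using a3 u hu 2⟩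
  · exact ⟨by simpa using b3 u hu 0, by simpa using b3 u hu 1,
      by simpa [sub_eq_add_neg] using b3 u hu 2⟩

/-- Gaussian sums over a separated set. -/
theorem sum_gauss_le : ∃ K : ℝ, 0 < K ∧ ∀ (W : Finset ℝ) (δ t : ℝ), 0 < δ → δ ≤ 1 →
    (∀ u ∈ W, ∀ u' ∈ W, u ≠ u' → δ ≤ |u - u'|) →
      ∑ u ∈ W, Real.exp (-(u - t) ^ 2) * (1 + |u - t|) ≤ K / δ := by
  refine ⟨4 * Real.exp 1, by positivity, fun W δ t hδ hδ' sep => ?_⟩
  have h1 : ∑ u ∈ W, Real.exp (-(u - t) ^ 2) * (1 + |u - t|) ≤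
      ∑ u ∈ W, Real.exp 1 * Real.exp (-|u - t|) := by
    refine Finset.sum_le_sum fun u _ => ?_
    calc Real.exp (-(u - t) ^ 2) * (1 + |u - t|)
        ≤ Real.exp (-(u - t) ^ 2) * Real.exp |u - t| := by
          gcongr
          linarith [Real.add_one_le_exp |u - t|]
      _ ≤ Real.exp 1 * Real.exp (-|u - t|) := by
          rw [← Real.exp_add, ← Real.exp_add]
          apply Real.exp_le_exp.mpr
          nlinarith [sq_nonneg (|u - t| - 1), sq_abs (u - t)]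
  have h2 := sum_exp_le (W.filter fun u => t ≤ u) (fun u => |u - t|) δ hδ hδ'
    (fun u _ => abs_nonneg _) (fun u hu u' hu' hne => by
      rw [Finset.mem_filter] at hu hu'
      rw [abs_of_nonneg (sub_nonneg.mpr hu.2), abs_of_nonneg (sub_nonneg.mpr hu'.2),
        sub_sub_sub_cancel_right]
      exact sep u hu.1 u' hu'.1 hne)
  have h3 := sum_exp_le (W.filter fun u => ¬ t ≤ u) (fun u => |u - t|) δ hδ hδ'
    (fun u _ => abs_nonneg _) (fun u hu u' hu' hne => by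
      rw [Finset.mem_filter, not_le] at hu hu'
      rw [abs_of_neg (sub_neg.mpr hu.2), abs_of_neg (sub_neg.mpr hu'.2),
        show -(u - t) - -(u' - t) = -(u - u') by ring, abs_neg]
      exact sep u hu.1 u' hu'.1 hne)
  have h4 := Finset.sum_filter_add_sum_filter_not W (fun u => t ≤ u)
    fun u => Real.exp (-|u - t|)
  rw [← Finset.mul_sum] at h1
  calc _ ≤ _ := h1
    _ ≤ Real.exp 1 * (2 / δ + 2 / δ) := by
        gcongr
        linarith
    _ = 4 * Real.exp 1 / δ := by ring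

end Pool.Agent.MP_ca0a54_nt.L0
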