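import Pool.Agent.MP_ca0a54_nt.L0.Defs

/-! PART A4: without a close pair, the zeros are on the line, simple and separated. -/

open Complex Filter Topology

namespace Pool.Agent.MP_ca0a54_nt.L0

namespace Zeros

theorem reflect {ρ : ℂ} (h : riemannZeta ρ = 0) (him : ρ.im ≠ 0) :
    riemannZeta (1 - (starRingEnd ℂ) ρ) = 0 := by
  rw [riemannZeta_one_sub, riemannZeta_conj, h, map_zero, mul_zero]
  · intro n hn
    have h1 := congrArg Complex.im hn
    simp only [conj_im, neg_im, natCast_im, neg_zero, neg_eq_zero] at h1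
    exact him h1
  · intro hn
    have h1 := congrArg Complex.im hn
    simp only [conj_im, one_im, neg_eq_zero] at h1
    exact him h1

theorem pt_re (w : ℂ) : (1 / 2 + I * w).re = 1 / 2 - w.im := by
  simp [sub_eq_add_neg]

theorem pt_im (w : ℂ) : (1 / 2 + I * w).im = w.re := by simp

end Zeros

theorem zeros_of_no_pair (T δ : ℝ) (hT : 0 < T) (hδ : 0 < δ)
    (H : ¬ ∃ ρ ρ' : ℂ, riemannZeta ρ = 0 ∧ riemannZeta ρ' = 0 ∧ T ≤ ρ.im ∧ ρ.im ≤ ρ'.im ∧
      ρ'.im ≤ 2 * T ∧ (ρ ≠ ρ' ∨ deriv riemannZeta ρ = 0) ∧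
      (∀ σ : ℂ, riemannZeta σ = 0 → ¬ (ρ.im < σ.im ∧ σ.im < ρ'.im)) ∧ ρ'.im - ρ.im < δ) :
    ∃ U : Finset ℝ, (∀ w : ℂ, T ≤ w.re → w.re ≤ 2 * T → (zf w = 0 ↔ ∃ u ∈ U, w = u)) ∧
      (∀ u ∈ U, deriv zf u ≠ 0) ∧ ∀ u ∈ U, ∀ u' ∈ U, u ≠ u' → δ ≤ |u - u'| := by
  classical
  have hline : ∀ ρ : ℂ, riemannZeta ρ = 0 → T ≤ ρ.im → ρ.im ≤ 2 * T → ρ.re = 1 / 2 := by
    intro ρ h h1 h2
    by_contra h3
    have h4 : (1 - (starRingEnd ℂ) ρ).im = ρ.im := by simp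
    refine H ⟨ρ, 1 - (starRingEnd ℂ) ρ, h, Zeros.reflect h (by linarith), h1, h4.ge,
      h4.trans_le h2, Or.inl fun h5 => h3 ?_, fun σ _ h5 => ?_, by rw [h4]; linarith⟩
    · have h6 := congrArg Complex.re h5
      simp only [sub_re, one_re, conj_re] at h6
      linarith
    · rw [h4] at h5
      exact lt_asymm h5.1 h5.2
  have hsimple : ∀ ρ : ℂ, riemannZeta ρ = 0 → T ≤ ρ.im → ρ.im ≤ 2 * T →
      deriv riemannZeta ρ ≠ 0 := fun ρ h h1 h2 h3 =>
    H ⟨ρ, ρ, h, h, h1, le_rfl, h2, Or.inr h3, fun σ _ h5 => lt_asymm h5.1 h5.2, by linarith⟩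
  have hfin : {u : ℝ | T ≤ u ∧ u ≤ 2 * T ∧ zf u = 0}.Finite := by
    have h1 : IsCompact ((fun u : ℝ => (1 / 2 + I * u : ℂ)) '' Set.Icc T (2 * T)) :=
      isCompact_Icc.image (by fun_prop)
    refine (h1.inter_riemannZetaZeros_finite.image Complex.im).subset ?_
    rintro u ⟨h2, h3, h4⟩
    exact ⟨1 / 2 + I * u, ⟨⟨u, ⟨h2, h3⟩, rfl⟩, h4⟩, by rw [Zeros.pt_im, ofReal_re]⟩
  have hmem : ∀ u : ℝ, u ∈ hfin.toFinset ↔ T ≤ u ∧ u ≤ 2 * T ∧ zf u = 0 := fun u =>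
    hfin.mem_toFinset
  have him : ∀ u : ℝ, (1 / 2 + I * u : ℂ).im = u := fun u => by rw [Zeros.pt_im, ofReal_re]
  have hlt : ∀ u ∈ hfin.toFinset, ∀ u' ∈ hfin.toFinset, u < u' → δ ≤ u' - u := by
    intro u hu u' hu' hlt
    obtain ⟨v, hv, hmin⟩ := (hfin.toFinset.filter fun v => u < v).exists_min_image id
      ⟨u', Finset.mem_filter.2 ⟨hu', hlt⟩⟩
    obtain ⟨hv1, hv2⟩ := Finset.mem_filter.1 hv
    have h1 : v ≤ u' := hmin u' (Finset.mem_filter.2 ⟨hu', hlt⟩)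
    obtain ⟨h2, h3, h4⟩ := (hmem u).1 hu
    obtain ⟨h5, h6, h7⟩ := (hmem v).1 hv1
    by_contra h8
    refine H ⟨1 / 2 + I * u, 1 / 2 + I * v, h4, h7, by rw [him]; exact h2,
      by rw [him, him]; exact hv2.le, by rw [him]; exact h6, Or.inl fun h9 => ?_,
      fun σ hσ h9 => ?_, by rw [him, him]; linarith⟩
    · have h10 := congrArg Complex.im h9
      rw [him, him] at h10
      exact hv2.ne h10
    · rw [him, him] at h9
      have h10 : T ≤ σ.im := by linarith [h9.1]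
      have h11 : σ.im ≤ 2 * T := by linarith [h9.2]
      have h12 : (1 / 2 + I * (σ.im : ℝ) : ℂ) = σ := by
        apply Complex.ext
        · rw [Zeros.pt_re, ofReal_im, sub_zero, hline σ hσ h10 h11]
        · exact him _
      have h13 : σ.im ∈ hfin.toFinset := (hmem _).2 ⟨h10, h11, by unfold zf; rw [h12]; exact hσ⟩
      have h14 : v ≤ σ.im := hmin _ (Finset.mem_filter.2 ⟨h13, h9.1⟩)
      linarith [h9.2]
  refine ⟨hfin.toFinset, fun w h1 h2 => ⟨fun h => ?_, ?_⟩, fun u hu => ?_,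
    fun u hu u' hu' hne => ?_⟩
  · have h3 := hline _ h (by rw [Zeros.pt_im]; exact h1) (by rw [Zeros.pt_im]; exact h2)
    rw [Zeros.pt_re] at h3
    have h4 : w = (w.re : ℂ) := Complex.ext (by simp) (by rw [ofReal_im]; linarith)
    exact ⟨w.re, (hmem _).2 ⟨h1, h2, by rw [← h4]; exact h⟩, h4⟩
  · rintro ⟨u, hu, rfl⟩
    exact ((hmem u).1 hu).2.2
  · obtain ⟨h1, h2, h3⟩ := (hmem u).1 hu
    have h4 : (1 / 2 + I * u : ℂ) ≠ 1 := fun h => by
      have h5 := congrArg Complex.im h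
      rw [him, one_im] at h5
      linarith
    have h5 : HasDerivAt (fun w : ℂ => 1 / 2 + I * w) I (u : ℂ) := by
      simpa using ((hasDerivAt_id (u : ℂ)).const_mul I).const_add (1 / 2)
    have h6 : HasDerivAt zf (deriv riemannZeta (1 / 2 + I * u) * I) (u : ℂ) :=
      (differentiableAt_riemannZeta h4).hasDerivAt.comp (u : ℂ) h5
    rw [h6.deriv]
    exact mul_ne_zero (hsimple _ h3 (by rw [him]; exact h1) (by rw [him]; exact h2)) I_ne_zero
  · rcases lt_or_gt_of_ne hne with h | h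
    · rw [abs_sub_comm]
      exact (hlt u hu u' hu' h).trans (le_abs_self _)
    · exact (hlt u' hu' u hu h).trans (le_abs_self _)

end Pool.Agent.MP_ca0a54_nt.L0
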