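import Pool.Agent.MP_ca0a54_nt.L0.Defs

/-! PART C: the scaled Cauchy matrix of two interlacing families of nodes is orthogonal. -/

open Complex Filter Topology

namespace Pool.Agent.MP_ca0a54_nt.L0

theorem cauchy_pos (V : Finset ℝ) (a : ℝ) (ha : 0 < a)
    (sep : ∀ u ∈ V, ∀ u' ∈ V, u ≠ u' → a < |u - u'|) (u : ℝ) (hu : u ∈ V) :
    0 < pd V u * pv V (u + a) ∧ pd V u * pv V (u - a) < 0 := by
  have h1 : ∀ x : ℝ, |x - u| = a → 0 < ∏ u' ∈ V.erase u, ((u - u') * (x - u')) := by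
    intro x hx
    refine Finset.prod_pos fun u' hu' => ?_
    obtain ⟨h2, h3⟩ := Finset.mem_erase.1 hu'
    have h4 := sep u hu u' h3 h2.symm
    have h5 := abs_le.1 hx.le
    rcases lt_abs.1 h4 with h6 | h6
    · exact mul_pos (by linarith) (by linarith)
    · exact mul_pos_of_neg_of_neg (by linarith) (by linarith)
  have h2 : ∀ x : ℝ, pd V u * pv V x = (x - u) * ∏ u' ∈ V.erase u, ((u - u') * (x - u')) := by
    intro x
    unfold pd pv
    rw [← Finset.mul_prod_erase V (fun u => x - u) hu, Finset.prod_mul_distrib]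
    ring
  constructor
  · rw [h2]
    exact mul_pos (by linarith) (h1 _ (by rw [add_sub_cancel_left, abs_of_pos ha]))
  · rw [h2]
    exact mul_neg_of_neg_of_pos (by linarith)
      (h1 _ (by rw [sub_sub_cancel_left, abs_neg, abs_of_pos ha]))

namespace Cauchy

theorem ne_zero {V : Finset ℝ} {a : ℝ} (ha : 0 < a)
    (sep : ∀ u ∈ V, ∀ u' ∈ V, u ≠ u' → a < |u - u'|) {u u' : ℝ} (hu : u ∈ V) (hu' : u' ∈ V) :
    u - u' + a ≠ 0 := by
  intro h
  by_cases h1 : u = u'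
  · rw [h1] at h; linarith
  · have h2 := sep u hu u' hu' h1
    rw [show u - u' = -a by linarith, abs_neg, abs_of_pos ha] at h2
    exact lt_irrefl _ h2

/-- orthogonality of the rows -/
theorem orth {V : Finset ℝ} {a : ℝ} (ha : 0 < a)
    (sep : ∀ u ∈ V, ∀ u' ∈ V, u ≠ u' → a < |u - u'|) {i k : ℝ} (hi : i ∈ V) (hk : k ∈ V) :
    ∑ j ∈ V, -(pv V (j - a) / pd V j) * ((i - j + a)⁻¹ * (k - j + a)⁻¹) =
      if i = k then pd V i / pv V (i + a) else 0 := by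
  have hinj : Set.InjOn (fun u : ℝ => u - a) V := fun x _ y _ h => by simpa using h
  have hdeg : (Lagrange.nodal (V.erase i) (fun u : ℝ => u)).degree < V.card := by
    rw [Lagrange.degree_nodal]
    exact_mod_cast Finset.card_erase_lt_of_mem hi
  have h1 := congrArg (Polynomial.eval k) (Lagrange.eq_interpolate hinj hdeg)
  rw [Lagrange.eval_interpolate_not_at_node _ (fun j hj h => ne_zero ha sep hk hj (by linarith)),
    Lagrange.eval_nodal, Lagrange.eval_nodal] at h1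
  have h2 : ∏ j ∈ V, (k - (j - a)) = pv V (k + a) :=
    Finset.prod_congr rfl fun j _ => by ring
  have h3 : pv V (k + a) ≠ 0 := right_ne_zero_of_mul (cauchy_pos V a ha sep k hk).1.ne'
  have h4 : ∑ j ∈ V, -(pv V (j - a) / pd V j) * ((i - j + a)⁻¹ * (k - j + a)⁻¹) =
      ∑ j ∈ V, Lagrange.nodalWeight V (fun u : ℝ => u - a) j * (k - (j - a))⁻¹ *
        Polynomial.eval (j - a) (Lagrange.nodal (V.erase i) (fun u : ℝ => u)) := by
    refine Finset.sum_congr rfl fun j hj => ?_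
    have h5 : Lagrange.nodalWeight V (fun u : ℝ => u - a) j = (pd V j)⁻¹ := by
      unfold Lagrange.nodalWeight pd
      rw [← Finset.prod_inv_distrib]
      exact Finset.prod_congr rfl fun l _ => by rw [sub_sub_sub_cancel_right]
    have h6 : pv V (j - a) = (j - a - i) * ∏ l ∈ V.erase i, (j - a - l) :=
      (Finset.mul_prod_erase V (fun l => j - a - l) hi).symm
    have h7 := ne_zero ha sep hi hj
    rw [h5, Lagrange.eval_nodal, h6, show k - (j - a) = k - j + a by ring,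
      show j - a - i = -(i - j + a) by ring]
    field_simp
  rw [h2] at h1
  rw [h4, eq_div_of_mul_eq h3 ((mul_comm _ _).trans h1.symm)]
  split_ifs with h
  · rw [← h]; rfl
  · rw [Finset.prod_eq_zero (Finset.mem_erase.2 ⟨Ne.symm h, hk⟩) (sub_self k), zero_div]

theorem real_sum {V : Finset ℝ} {a : ℝ} (ha : 0 < a)
    (sep : ∀ u ∈ V, ∀ u' ∈ V, u ≠ u' → a < |u - u'|) {W : Finset ℝ} (hW : W ⊆ V) (x : ℝ → ℝ) :
    ∑ j ∈ V, -(pv V (j - a) / pd V j) * (∑ i ∈ W, x i * (i - j + a)⁻¹) ^ 2 =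
      ∑ i ∈ W, x i ^ 2 * (pd V i / pv V (i + a)) := by
  have h1 : ∀ j, -(pv V (j - a) / pd V j) * (∑ i ∈ W, x i * (i - j + a)⁻¹) ^ 2 =
      ∑ i ∈ W, ∑ k ∈ W, x i * x k *
        (-(pv V (j - a) / pd V j) * ((i - j + a)⁻¹ * (k - j + a)⁻¹)) := by
    intro j
    rw [sq, Finset.sum_mul_sum, Finset.mul_sum]
    refine Finset.sum_congr rfl fun i _ => ?_
    rw [Finset.mul_sum]
    exact Finset.sum_congr rfl fun k _ => by ring
  simp_rw [h1]
  rw [Finset.sum_comm]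
  refine Finset.sum_congr rfl fun i hi => ?_
  rw [Finset.sum_comm, Finset.sum_eq_single i]
  · rw [← Finset.mul_sum, orth ha sep (hW hi) (hW hi), if_pos rfl, sq]
  · intro k hk hki
    rw [← Finset.mul_sum, orth ha sep (hW hi) (hW hk), if_neg (Ne.symm hki), mul_zero]
  · intro h
    exact absurd hi h

end Cauchy

theorem cauchy_ineq (V : Finset ℝ) (a : ℝ) (ha : 0 < a)
    (sep : ∀ u ∈ V, ∀ u' ∈ V, u ≠ u' → a < |u - u'|) (W : Finset ℝ) (hW : W ⊆ V) (c d : ℝ → ℂ) :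
    ‖∑ u ∈ W, ∑ u' ∈ W, c u * (starRingEnd ℂ) (d u') / ((u - u' + a : ℝ) : ℂ)‖ ^ 2 ≤
      (∑ u ∈ W, ‖c u‖ ^ 2 * (pd V u / pv V (u + a))) *
        ∑ u ∈ W, ‖d u‖ ^ 2 * (-(pd V u / pv V (u - a))) := by
  set z : ℝ → ℂ := fun j => ∑ i ∈ W, c i * (((i - j + a)⁻¹ : ℝ) : ℂ) with hz
  have hβ : ∀ j ∈ V, 0 < -(pv V (j - a) / pd V j) := by
    intro j hj
    have h1 := (cauchy_pos V a ha sep j hj).2
    rw [neg_pos, div_neg_iff]
    rcases mul_neg_iff.1 h1 with h2 | h2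
    · exact Or.inr ⟨h2.2, h2.1⟩
    · exact Or.inl ⟨h2.2, h2.1⟩
  have h1 : ∑ u ∈ W, ∑ u' ∈ W, c u * (starRingEnd ℂ) (d u') / ((u - u' + a : ℝ) : ℂ) =
      ∑ j ∈ W, z j * (starRingEnd ℂ) (d j) := by
    rw [Finset.sum_comm]
    refine Finset.sum_congr rfl fun j _ => ?_
    rw [hz, Finset.sum_mul]
    refine Finset.sum_congr rfl fun i _ => ?_
    rw [ofReal_inv, div_eq_mul_inv]; ring
  have h2 : ‖∑ j ∈ W, z j * (starRingEnd ℂ) (d j)‖ ≤ ∑ j ∈ W, ‖z j‖ * ‖d j‖ := by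
    refine (norm_sum_le _ _).trans (le_of_eq (Finset.sum_congr rfl fun j _ => ?_))
    rw [norm_mul, Complex.norm_conj]
  have h3 : (∑ j ∈ W, ‖z j‖ * ‖d j‖) ^ 2 ≤
      (∑ j ∈ W, -(pv V (j - a) / pd V j) * ‖z j‖ ^ 2) *
        ∑ u ∈ W, ‖d u‖ ^ 2 * (-(pd V u / pv V (u - a))) := by
    refine Finset.sum_sq_le_sum_mul_sum_of_sq_le_mul W
      (fun j hj => mul_nonneg (hβ j (hW hj)).le (sq_nonneg _)) (fun j hj => ?_) fun j hj => ?_
    · refine mul_nonneg (sq_nonneg _) ?_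
      rw [← inv_div, ← inv_neg]
      exact (inv_pos.2 (hβ j (hW hj))).le
    · have h4 := (cauchy_pos V a ha sep j (hW hj)).2.ne
      have h5 := left_ne_zero_of_mul h4
      have h6 := right_ne_zero_of_mul h4
      refine le_of_eq ?_
      field_simp
  have h4 : ∑ j ∈ W, -(pv V (j - a) / pd V j) * ‖z j‖ ^ 2 ≤
      ∑ j ∈ V, -(pv V (j - a) / pd V j) * ‖z j‖ ^ 2 :=
    Finset.sum_le_sum_of_subset_of_nonneg hW fun j hj _ => mul_nonneg (hβ j hj).le (sq_nonneg _)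
  have h5 : ∑ j ∈ V, -(pv V (j - a) / pd V j) * ‖z j‖ ^ 2 =
      ∑ u ∈ W, ‖c u‖ ^ 2 * (pd V u / pv V (u + a)) := by
    have h6 : ∀ j, ‖z j‖ ^ 2 = (∑ i ∈ W, (c i).re * (i - j + a)⁻¹) ^ 2 +
        (∑ i ∈ W, (c i).im * (i - j + a)⁻¹) ^ 2 := by
      intro j
      rw [Complex.sq_norm, normSq_apply, hz]
      simp only [re_sum, im_sum, re_mul_ofReal, im_mul_ofReal]
      ring
    simp_rw [h6, mul_add]
    rw [Finset.sum_add_distrib, Cauchy.real_sum ha sep hW, Cauchy.real_sum ha sep hW,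
      ← Finset.sum_add_distrib]
    refine Finset.sum_congr rfl fun i _ => ?_
    rw [Complex.sq_norm, normSq_apply]
    ring
  have h6 : 0 ≤ ∑ u ∈ W, ‖d u‖ ^ 2 * (-(pd V u / pv V (u - a))) := by
    refine Finset.sum_nonneg fun j hj => mul_nonneg (sq_nonneg _) ?_
    rw [← inv_div, ← inv_neg]
    exact (inv_pos.2 (hβ j (hW hj))).le
  rw [h1, ← h5]
  exact ((pow_le_pow_left₀ (norm_nonneg _) h2 2).trans h3).trans (mul_le_mul_of_nonneg_right h4 h6)

end Pool.Agent.MP_ca0a54_nt.L0
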