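import Pool.Agent.MP_ca0a54_nt.L0.ZetaA

/-!
Lower bounds for `zf` near the real line under the factorisation `Fac`.
-/

open Complex Filter Topology

namespace Pool.Agent.MP_ca0a54_nt.L0

namespace Lower

theorem euler (z : ℝ) (hz : 0 ≤ z) (n : ℕ) :
    ∏ k ∈ Finset.range n, (1 + z ^ 2 / ((k : ℝ) + 1) ^ 2) ≤ Real.exp (Real.pi * z) := by
  rcases hz.eq_or_lt with rfl | hz
  · simp
  have hpz : 0 < Real.pi * z := mul_pos Real.pi_pos hz
  have h1 := (Complex.continuous_im.tendsto _).comp (Complex.tendsto_euler_sin_prod ((z : ℂ) * I))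
  have h2 : (Complex.sin ((Real.pi : ℂ) * ((z : ℂ) * I))).im = Real.sinh (Real.pi * z) := by
    rw [← mul_assoc, Complex.sin_mul_I, ← Complex.ofReal_mul, ← Complex.ofReal_sinh]
    simp only [Complex.mul_im, Complex.ofReal_re, Complex.I_im, mul_one, Complex.ofReal_im,
      Complex.I_re, mul_zero, add_zero]
  rw [h2] at h1
  have h3 : (Complex.im ∘ fun n : ℕ => (Real.pi : ℂ) * ((z : ℂ) * I) *
      ∏ j ∈ Finset.range n, ((1 : ℂ) - ((z : ℂ) * I) ^ 2 / ((j : ℂ) + 1) ^ 2)) =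
      fun n : ℕ => Real.pi * z * ∏ k ∈ Finset.range n, (1 + z ^ 2 / ((k : ℝ) + 1) ^ 2) := by
    funext n
    have : ∏ j ∈ Finset.range n, ((1 : ℂ) - ((z : ℂ) * I) ^ 2 / ((j : ℂ) + 1) ^ 2) =
        ((∏ k ∈ Finset.range n, (1 + z ^ 2 / ((k : ℝ) + 1) ^ 2) : ℝ) : ℂ) := by
      rw [Complex.ofReal_prod]
      refine Finset.prod_congr rfl fun j _ => ?_
      push_cast
      rw [mul_pow, Complex.I_sq]
      ring
    rw [Function.comp_apply, this]
    have e : (Real.pi : ℂ) * ((z : ℂ) * I) *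
        ((∏ k ∈ Finset.range n, (1 + z ^ 2 / ((k : ℝ) + 1) ^ 2) : ℝ) : ℂ) =
        ((Real.pi * z * ∏ k ∈ Finset.range n, (1 + z ^ 2 / ((k : ℝ) + 1) ^ 2) : ℝ) : ℂ) * I := by
      rw [Complex.ofReal_mul, Complex.ofReal_mul]; ring
    rw [e]
    simp only [Complex.mul_im, Complex.ofReal_re, Complex.I_im, mul_one, Complex.ofReal_im,
      Complex.I_re, mul_zero, add_zero]
  rw [h3] at h1
  have hmono : Monotone fun n : ℕ =>
      Real.pi * z * ∏ k ∈ Finset.range n, (1 + z ^ 2 / ((k : ℝ) + 1) ^ 2) := by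
    refine monotone_nat_of_le_succ fun n => ?_
    refine mul_le_mul_of_nonneg_left ?_ hpz.le
    rw [Finset.prod_range_succ]
    have hp : 0 ≤ ∏ k ∈ Finset.range n, (1 + z ^ 2 / ((k : ℝ) + 1) ^ 2) :=
      Finset.prod_nonneg fun k _ => by positivity
    refine le_mul_of_one_le_right hp ?_
    have : 0 ≤ z ^ 2 / ((n : ℝ) + 1) ^ 2 := by positivity
    linarith
  have h4 := hmono.ge_of_tendsto h1 n
  have h5 : Real.sinh (Real.pi * z) ≤ Real.pi * z * Real.exp (Real.pi * z) := by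
    set t := Real.pi * z
    rw [Real.sinh_eq]
    have a1 : 1 - 2 * t ≤ Real.exp (-(2 * t)) := by
      have := Real.add_one_le_exp (-(2 * t)); linarith
    have a2 : Real.exp (-t) = Real.exp t * Real.exp (-(2 * t)) := by
      rw [← Real.exp_add]; congr 1; ring
    have a3 := Real.exp_pos t
    rw [a2]
    nlinarith
  exact le_of_mul_le_mul_left (h4.trans h5) hpz

/-- The comparison weights. -/
noncomputable def gw (δ r y : ℝ) (k : ℕ) : ℝ :=
  if k = 0 then 1 + y ^ 2 / r ^ 2 else 1 + y ^ 2 / ((k : ℝ) * δ) ^ 2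

theorem gw_prod (δ r y : ℝ) (hδ : 0 < δ) (hy : 0 ≤ y) (n : ℕ) :
    ∏ k ∈ Finset.range n, gw δ r y k ≤ (1 + y ^ 2 / r ^ 2) * Real.exp (Real.pi * y / δ) := by
  have h0 : 1 ≤ 1 + y ^ 2 / r ^ 2 := by
    have : 0 ≤ y ^ 2 / r ^ 2 := by positivity
    linarith
  rcases n with _ | n
  · rw [Finset.prod_range_zero]
    exact one_le_mul_of_one_le_of_one_le h0 (Real.one_le_exp (by positivity))
  · rw [Finset.prod_range_succ', mul_comm]
    have e0 : gw δ r y 0 = 1 + y ^ 2 / r ^ 2 := by simp [gw]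
    rw [e0]
    refine mul_le_mul_of_nonneg_left ?_ (by linarith)
    have := euler (y / δ) (by positivity) n
    rw [← mul_div_assoc] at this
    refine le_of_eq_of_le (Finset.prod_congr rfl fun k _ => ?_) this
    simp only [gw, Nat.succ_ne_zero, if_false]
    push_cast
    field_simp

theorem one_side (W : Finset ℝ) (d : ℝ → ℝ) (δ r y : ℝ) (hδ : 0 < δ) (hr : 0 < r) :
    (∀ u ∈ W, ∀ u' ∈ W, u ≠ u' → δ ≤ |d u - d u'|) → (∀ u ∈ W, r ≤ d u) →
      (∀ b : ℝ, 0 ≤ b → (∀ u ∈ W, d u + δ ≤ b) → (W.card : ℝ) * δ ≤ b) ∧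
        ∏ u ∈ W, (1 + y ^ 2 / d u ^ 2) ≤ ∏ k ∈ Finset.range W.card, gw δ r y k := by
  classical
  induction W using Finset.induction_on_max_value d with
  | empty => intro _ _; exact ⟨fun b hb _ => by simpa using hb, by simp⟩
  | insert a s ha hmax ih =>
    intro sep far
    obtain ⟨i1, i2⟩ := ih (fun u hu u' hu' => sep u (Finset.mem_insert_of_mem hu) u'
      (Finset.mem_insert_of_mem hu')) (fun u hu => far u (Finset.mem_insert_of_mem hu))
    have hra : r ≤ d a := far a (Finset.mem_insert_self _ _)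
    have hk : (s.card : ℝ) * δ ≤ d a := by
      refine i1 _ (by linarith) fun u hu => ?_
      have h1 := sep u (Finset.mem_insert_of_mem hu) a (Finset.mem_insert_self _ _)
        (fun e => ha (e ▸ hu))
      have h2 := hmax u hu
      rw [abs_of_nonpos (by linarith)] at h1
      linarith
    rw [Finset.card_insert_of_notMem ha]
    refine ⟨fun b _ hb => ?_, ?_⟩
    · have := hb a (Finset.mem_insert_self _ _)
      push_cast
      linarith
    · rw [Finset.prod_insert ha, Finset.prod_range_succ, mul_comm]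
      refine mul_le_mul i2 ?_ (by positivity) ?_
      · unfold gw
        split_ifs with h0
        · have : y ^ 2 / d a ^ 2 ≤ y ^ 2 / r ^ 2 :=
            div_le_div_of_nonneg_left (by positivity) (by positivity) (by gcongr)
          linarith
        · have hc : (0 : ℝ) < s.card := by exact_mod_cast Nat.pos_of_ne_zero h0
          have : y ^ 2 / d a ^ 2 ≤ y ^ 2 / ((s.card : ℝ) * δ) ^ 2 :=
            div_le_div_of_nonneg_left (by positivity) (by positivity) (by gcongr)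
          linarith
      · exact le_trans (Finset.prod_nonneg fun u _ => by positivity) i2

end Lower

open Lower

theorem prod_sep_le (W : Finset ℝ) (δ r x y : ℝ) (hδ : 0 < δ) (hr : 0 < r) (hy : 0 ≤ y)
    (sep : ∀ u ∈ W, ∀ u' ∈ W, u ≠ u' → δ ≤ |u - u'|) (far : ∀ u ∈ W, r ≤ |x - u|) :
    ∏ u ∈ W, (1 + y ^ 2 / (x - u) ^ 2) ≤ (1 + y ^ 2 / r ^ 2) ^ 2 * Real.exp (2 * Real.pi * y / δ) := by
  classical
  rw [← Finset.prod_filter_mul_prod_filter_not W (fun u => u ≤ x)]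
  have h1 := (one_side (W.filter fun u => u ≤ x) (fun u => x - u) δ r y hδ hr
    (fun u hu u' hu' hne => by
      have := sep u (Finset.mem_filter.1 hu).1 u' (Finset.mem_filter.1 hu').1 hne
      rw [abs_sub_comm] at this
      rwa [show x - u - (x - u') = u' - u by ring])
    (fun u hu => by
      have := far u (Finset.mem_filter.1 hu).1
      rwa [abs_of_nonneg (by linarith [(Finset.mem_filter.1 hu).2])] at this)).2.trans
    (gw_prod δ r y hδ hy _)
  have h2 := (one_side (W.filter fun u => ¬ u ≤ x) (fun u => u - x) δ r y hδ hr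
    (fun u hu u' hu' hne => by
      have := sep u (Finset.mem_filter.1 hu).1 u' (Finset.mem_filter.1 hu').1 hne
      rwa [show u - x - (u' - x) = u - u' by ring])
    (fun u hu => by
      have := far u (Finset.mem_filter.1 hu).1
      rw [abs_of_nonpos (by linarith [not_le.1 (Finset.mem_filter.1 hu).2])] at this
      linarith)).2.trans
    (gw_prod δ r y hδ hy _)
  have h3 : ∏ u ∈ W.filter (fun u => ¬ u ≤ x), (1 + y ^ 2 / (x - u) ^ 2) =
      ∏ u ∈ W.filter (fun u => ¬ u ≤ x), (1 + y ^ 2 / (u - x) ^ 2) :=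
    Finset.prod_congr rfl fun u _ => by rw [show (x - u) ^ 2 = (u - x) ^ 2 by ring]
  rw [h3]
  refine (mul_le_mul h1 h2 (Finset.prod_nonneg fun u _ => by positivity) (by positivity)).trans
    (le_of_eq ?_)
  rw [show 2 * Real.pi * y / δ = Real.pi * y / δ + Real.pi * y / δ by ring, Real.exp_add]
  ring

namespace Lower

variable {C T δ : ℝ} {V : Finset ℝ} {h : ℂ → ℂ} {x : ℝ}

theorem mem_disc (hT : 200 ≤ T) (hx : |x - 3 * T / 2| ≤ T / 9) {w : ℂ}
    (hw : w ∈ Metric.closedBall (x : ℂ) 2) : w ∈ disc T := by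
  unfold disc
  rw [Metric.mem_ball]
  rw [Metric.mem_closedBall] at hw
  have h1 : dist (x : ℂ) ((3 * T / 2 : ℝ) : ℂ) ≤ T / 9 := by
    rw [Complex.dist_eq, ← Complex.ofReal_sub, Complex.norm_real, Real.norm_eq_abs]
    exact hx
  have := dist_triangle w (x : ℂ) ((3 * T / 2 : ℝ) : ℂ)
  linarith

theorem vert_mem (x y : ℝ) (hy : |y| ≤ 2) : (x : ℂ) + y * I ∈ Metric.closedBall (x : ℂ) 2 := by
  rw [Metric.mem_closedBall, Complex.dist_eq, add_sub_cancel_left, norm_mul, Complex.norm_I,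
    mul_one, Complex.norm_real, Real.norm_eq_abs]
  exact hy

theorem hasDeriv (F : Fac C T δ V h) {w : ℂ} (hw : w ∈ disc T) : HasDerivAt h (deriv h w) w :=
  (F.diff.differentiableAt (Metric.isOpen_ball.mem_nhds hw)).hasDerivAt

theorem log_pos' (hT : 200 ≤ T) : 1 ≤ Real.log T := by
  rw [Real.le_log_iff_exp_le (by linarith)]
  have := Real.exp_one_lt_d9
  linarith

theorem taylor (F : Fac C T δ V h) (hT : 200 ≤ T) (hx : |x - 3 * T / 2| ≤ T / 9) {w w' : ℂ}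
    (hw : w ∈ Metric.closedBall (x : ℂ) 2) (hw' : w' ∈ Metric.closedBall (x : ℂ) 2) :
    ‖h w' - h w - (w' - w) * deriv h x‖ ≤ 2 * |C| * ‖w' - w‖ := by
  have hxm : (x : ℂ) ∈ disc T := mem_disc hT hx (Metric.mem_closedBall_self (by norm_num))
  have key := (convex_closedBall (x : ℂ) 2).norm_image_sub_le_of_norm_hasDerivWithin_le
    (f := fun z => h z - z * deriv h x) (f' := fun z => deriv h z - deriv h x) (C := 2 * |C|)
    (fun z hz => by
      have := (hasDeriv F (mem_disc hT hx hz)).sub ((hasDerivAt_id z).mul_const (deriv h x))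
      simp only [one_mul, id] at this
      exact this.hasDerivWithinAt)
    (fun z hz => by
      refine (F.d2 z (mem_disc hT hx hz) x hxm).trans ?_
      have h1 : ‖z - x‖ ≤ 2 := by
        rw [Metric.mem_closedBall, Complex.dist_eq] at hz; exact hz
      have h2 : Real.log T / T ≤ 1 := by
        rw [div_le_one (by linarith)]
        have := Real.log_le_sub_one_of_pos (show 0 < T by linarith)
        linarith
      have h3 : 0 ≤ Real.log T / T := by
        have := log_pos' hT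
        have : 0 < T := by linarith
        positivity
      have h4 : C * Real.log T / T ≤ |C| := by
        rw [mul_div_assoc]
        calc C * (Real.log T / T) ≤ |C| * (Real.log T / T) :=
              mul_le_mul_of_nonneg_right (le_abs_self C) h3
          _ ≤ |C| := mul_le_of_le_one_right (abs_nonneg C) h2
      calc C * Real.log T / T * ‖z - x‖ ≤ |C| * ‖z - x‖ :=
            mul_le_mul_of_nonneg_right h4 (norm_nonneg _)
        _ ≤ |C| * 2 := mul_le_mul_of_nonneg_left h1 (abs_nonneg C)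
        _ = 2 * |C| := by ring) hw hw'
  refine le_of_eq_of_le ?_ key
  congr 1
  ring

theorem lip (F : Fac C T δ V h) (hT : 200 ≤ T) (hx : |x - 3 * T / 2| ≤ T / 9) {w w' : ℂ}
    (hw : w ∈ Metric.closedBall (x : ℂ) 2) (hw' : w' ∈ Metric.closedBall (x : ℂ) 2) :
    ‖h w' - h w‖ ≤ |C| * Real.log T * ‖w' - w‖ :=
  (convex_closedBall (x : ℂ) 2).norm_image_sub_le_of_norm_hasDerivWithin_le
    (f' := fun z => deriv h z) (fun z hz => (hasDeriv F (mem_disc hT hx hz)).hasDerivWithinAt)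
    (fun z hz => (F.d1 z (mem_disc hT hx hz)).trans
      (mul_le_mul_of_nonneg_right (le_abs_self C) (by linarith [log_pos' hT]))) hw hw'

theorem norm_sq_vert (x y u : ℝ) : ‖(x : ℂ) + y * I - u‖ ^ 2 = (x - u) ^ 2 + y ^ 2 := by
  rw [Complex.sq_norm, Complex.normSq_apply]
  simp
  ring

theorem norm_prod_sq (W : Finset ℝ) (x y : ℝ) :
    ‖∏ u ∈ W, ((x : ℂ) + y * I - u)‖ ^ 2 = ∏ u ∈ W, ((x - u) ^ 2 + y ^ 2) := by
  rw [norm_prod, ← Finset.prod_pow]
  exact Finset.prod_congr rfl fun u _ => norm_sq_vert x y u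

theorem norm_prod_neg (W : Finset ℝ) (x y : ℝ) :
    ‖∏ u ∈ W, ((x : ℂ) + y * I - u)‖ = ‖∏ u ∈ W, ((x : ℂ) + (-y : ℝ) * I - u)‖ := by
  rw [← sq_eq_sq₀ (norm_nonneg _) (norm_nonneg _), norm_prod_sq, norm_prod_sq]
  simp

theorem abs_prod_le (W : Finset ℝ) (x y : ℝ) :
    |∏ u ∈ W, (x - u)| ≤ ‖∏ u ∈ W, ((x : ℂ) + y * I - u)‖ := by
  rw [← sq_le_sq₀ (abs_nonneg _) (norm_nonneg _), norm_prod_sq, sq_abs, ← Finset.prod_pow]
  exact Finset.prod_le_prod (fun u _ => sq_nonneg _) fun u _ => by nlinarith [sq_nonneg y]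

theorem norm_prod_le (W : Finset ℝ) (δ r x y : ℝ) (hδ : 0 < δ) (hr : 0 < r)
    (sep : ∀ u ∈ W, ∀ u' ∈ W, u ≠ u' → δ ≤ |u - u'|) (far : ∀ u ∈ W, r ≤ |x - u|) :
    ‖∏ u ∈ W, ((x : ℂ) + y * I - u)‖ ≤
      |∏ u ∈ W, (x - u)| * ((1 + y ^ 2 / r ^ 2) * Real.exp (Real.pi * |y| / δ)) := by
  rw [← sq_le_sq₀ (norm_nonneg _) (by positivity), norm_prod_sq, mul_pow, sq_abs,
    ← Finset.prod_pow, mul_pow, ← Real.exp_nat_mul]
  have h1 := prod_sep_le W δ r x |y| hδ hr (abs_nonneg y) sep far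
  rw [sq_abs] at h1
  have h2 : ∏ u ∈ W, ((x - u) ^ 2 + y ^ 2) =
      (∏ u ∈ W, (x - u) ^ 2) * ∏ u ∈ W, (1 + y ^ 2 / (x - u) ^ 2) := by
    rw [← Finset.prod_mul_distrib]
    refine Finset.prod_congr rfl fun u hu => ?_
    have : x - u ≠ 0 := by
      intro e
      have := far u hu
      rw [e, abs_zero] at this
      linarith
    field_simp
  rw [h2]
  refine mul_le_mul_of_nonneg_left (h1.trans (le_of_eq ?_))
    (Finset.prod_nonneg fun u _ => sq_nonneg _)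
  congr 2
  push_cast
  ring

theorem prod_ne (W : Finset ℝ) (r x : ℝ) (hr : 0 < r) (far : ∀ u ∈ W, r ≤ |x - u|) :
    0 < |∏ u ∈ W, (x - u)| := by
  rw [abs_pos, Finset.prod_ne_zero_iff]
  intro u hu e
  have := far u hu
  rw [e, abs_zero] at this
  linarith

end Lower

theorem phase (C : ℝ) : ∃ K T₀ : ℝ, ∀ T : ℝ, T₀ ≤ T → ∀ (δ : ℝ) (V : Finset ℝ) (h : ℂ → ℂ),
    Fac C T δ V h → ∀ x : ℝ, |x - 3 * T / 2| ≤ T / 9 →
      |(deriv h x).im + Real.log T / 2| ≤ K := by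
  obtain ⟨C₀, hC₀, hR⟩ := zf_right
  obtain ⟨c, C₁, hc, hC₁, hL⟩ := zf_left
  refine ⟨|Real.log c| + |Real.log C₁| + |Real.log C₀| + 6 * |C|, 200, ?_⟩
  intro T hT δ V h F x hx
  have hT0 : 0 < T := by linarith
  obtain ⟨hx1, hx2⟩ := abs_le.1 hx
  have m1 := vert_mem x (3 / 2) (by rw [abs_of_pos] <;> norm_num)
  have m2 := vert_mem x (-(3 / 2)) (by rw [abs_neg, abs_of_pos] <;> norm_num)
  have f1 := congrArg norm (F.fac _ (mem_disc hT hx m1))
  have f2 := congrArg norm (F.fac _ (mem_disc hT hx m2))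
  rw [norm_mul, Complex.norm_exp] at f1 f2
  rw [norm_prod_neg] at f1
  obtain ⟨l1, l2⟩ := hL T (by linarith) x (by linarith) (by linarith)
  obtain ⟨r0, r1, r2⟩ := hR ((x : ℂ) + (-(3 / 2) : ℝ) * I) (by simp; norm_num)
  have t := taylor F hT hx m2 m1
  set P := ‖∏ u ∈ V, ((x : ℂ) + (-(3 / 2) : ℝ) * I - u)‖ with hP
  set A := h ((x : ℂ) + (3 / 2 : ℝ) * I) with hA
  set B := h ((x : ℂ) + (-(3 / 2) : ℝ) * I) with hB
  have hz : 0 < ‖zf ((x : ℂ) + (-(3 / 2) : ℝ) * I)‖ := norm_pos_iff.2 r0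
  have hP0 : 0 < P := by
    rw [f2] at hz
    exact (mul_pos_iff_of_pos_right (Real.exp_pos _)).1 hz
  have hr : 0 < T ^ (3 / 2 : ℝ) := Real.rpow_pos_of_pos hT0 _
  rw [f1] at l1 l2
  rw [norm_inv, f2] at r2
  rw [f2] at r1
  have a1 := Real.log_le_log (by positivity) l1
  have a2 := Real.log_le_log (by positivity) l2
  have a3 := Real.log_le_log (by positivity) r1
  have a4 := Real.log_le_log (by positivity) r2
  rw [Real.log_mul hc.ne' hr.ne', Real.log_mul hP0.ne' (Real.exp_pos _).ne', Real.log_exp,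
    Real.log_rpow hT0] at a1
  rw [Real.log_mul hC₁.ne' hr.ne', Real.log_mul hP0.ne' (Real.exp_pos _).ne', Real.log_exp,
    Real.log_rpow hT0] at a2
  rw [Real.log_mul hP0.ne' (Real.exp_pos _).ne', Real.log_exp] at a3
  rw [Real.log_inv, Real.log_mul hP0.ne' (Real.exp_pos _).ne', Real.log_exp] at a4
  have e : (x : ℂ) + (3 / 2 : ℝ) * I - ((x : ℂ) + (-(3 / 2) : ℝ) * I) = (3 : ℝ) * I := by
    push_cast; ring
  rw [e, norm_mul, Complex.norm_I, Complex.norm_real, Real.norm_eq_abs,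
    abs_of_pos (show (0 : ℝ) < 3 by norm_num)] at t
  have t2 := (Complex.abs_re_le_norm _).trans t
  have e2 : (A - B - ((3 : ℝ) : ℂ) * I * deriv h x).re = A.re - B.re + 3 * (deriv h x).im := by
    simp
  rw [e2] at t2
  obtain ⟨t3, t4⟩ := abs_le.1 t2
  have b1 := le_abs_self (Real.log c)
  have b2 := neg_abs_le (Real.log c)
  have b3 := le_abs_self (Real.log C₁)
  have b4 := neg_abs_le (Real.log C₁)
  have b5 := le_abs_self (Real.log C₀)
  have b6 := neg_abs_le (Real.log C₀)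
  have b7 := abs_nonneg C
  rw [abs_le]
  constructor <;> linarith

namespace Lower

/-- Comparison of `exp (-h x) / ∏ (x - u)` with the value of `zf` at `x - i y`. -/
theorem compare (W : Finset ℝ) (δ r x y C₀ : ℝ) (q Z A B : ℂ) (hδ : 0 < δ) (hr : 0 < r)
    (sep : ∀ u ∈ W, ∀ u' ∈ W, u ≠ u' → δ ≤ |u - u'|) (far : ∀ u ∈ W, r ≤ |x - u|)
    (hq : ‖q‖ ≤ 1) (hZ : Z = q * (∏ u ∈ W, ((x : ℂ) + y * I - u)) * exp A) (hZ0 : Z ≠ 0)
    (hC : ‖Z⁻¹‖ ≤ C₀) :
    Real.exp (-B.re) / |∏ u ∈ W, (x - u)| ≤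
      C₀ * ((1 + y ^ 2 / r ^ 2) * Real.exp (Real.pi * |y| / δ)) * Real.exp (A.re - B.re) := by
  have hP := prod_ne W r x hr far
  have h1 := norm_prod_le W δ r x y hδ hr sep far
  have hz : 0 < ‖Z‖ := norm_pos_iff.2 hZ0
  rw [norm_inv, inv_le_iff_one_le_mul₀ hz] at hC
  have hC0 : 0 ≤ C₀ := by
    by_contra hn
    have : C₀ * ‖Z‖ < 0 := mul_neg_of_neg_of_pos (not_le.1 hn) hz
    linarith
  set P := |∏ u ∈ W, (x - u)|
  set D := (1 + y ^ 2 / r ^ 2) * Real.exp (Real.pi * |y| / δ)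
  have h2 : ‖Z‖ ≤ P * D * Real.exp A.re := by
    rw [hZ, norm_mul, norm_mul, Complex.norm_exp]
    refine mul_le_mul_of_nonneg_right ?_ (Real.exp_pos _).le
    exact (mul_le_of_le_one_left (norm_nonneg _) hq).trans h1
  have h3 : 1 ≤ C₀ * (P * D * Real.exp A.re) := hC.trans (mul_le_mul_of_nonneg_left h2 hC0)
  rw [div_le_iff₀ hP, sub_eq_add_neg, Real.exp_add]
  have h4 := mul_le_mul_of_nonneg_right h3 (Real.exp_pos (-B.re)).le
  linarith

theorem poly_le_exp (A r : ℝ) (hA : 0 ≤ A) : ∃ L₀ : ℝ, ∀ L : ℝ, L₀ ≤ L →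
    A * (1 + 4 * L ^ 2 / r ^ 2) ≤ Real.exp (L / 40) := by
  refine ⟨max 1 (6 * 40 ^ 3 * (A * (1 + 4 / r ^ 2))), fun L hL => ?_⟩
  have h1 : 1 ≤ L := (le_max_left _ _).trans hL
  have h2 : 6 * 40 ^ 3 * (A * (1 + 4 / r ^ 2)) ≤ L := (le_max_right _ _).trans hL
  have h3 := Real.pow_div_factorial_le_exp (L / 40) (by positivity) 3
  refine le_trans ?_ h3
  have h4 : 1 ≤ L ^ 2 := by nlinarith
  have h5 : A * (1 + 4 * L ^ 2 / r ^ 2) ≤ A * (1 + 4 / r ^ 2) * L ^ 2 := by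
    rw [mul_assoc]
    refine mul_le_mul_of_nonneg_left ?_ hA
    rw [add_mul, one_mul, div_mul_eq_mul_div]
    linarith
  refine h5.trans ?_
  have h6 : A * (1 + 4 / r ^ 2) ≤ L / (6 * 40 ^ 3) := by
    rw [le_div_iff₀ (by norm_num)]; linarith
  have h7 := mul_le_mul_of_nonneg_right h6 (sq_nonneg L)
  refine h7.trans (le_of_eq ?_)
  norm_num [Nat.factorial]
  ring

end Lower

/-- Lower bounds on the real line, exponent `3/8` (here `2/5` absorbs the logarithms). -/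
theorem lower_real (C r₀ : ℝ) (hr₀ : 0 < r₀) : ∃ T₀ : ℝ, ∀ T : ℝ, T₀ ≤ T →
    ∀ (δ : ℝ) (V : Finset ℝ) (h : ℂ → ℂ), Real.pi / Real.log T ≤ δ → Fac C T δ V h →
      ∀ x : ℝ, |x - 3 * T / 2| ≤ T / 9 →
        (x ∈ V → ‖exp (-h x) / (pd V x : ℂ)‖ ≤ T ^ (2 / 5 : ℝ)) ∧
        ((∀ u ∈ V, r₀ / Real.log T ≤ |x - u|) → ‖exp (-h x) / (pv V x : ℂ)‖ ≤ T ^ (2 / 5 : ℝ)) := by
  obtain ⟨C₀, hC₀, hR⟩ := zf_right
  obtain ⟨K, T₁, hK⟩ := phase C
  set r₁ := min r₀ Real.pi with hr₁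
  have hr1 : 0 < r₁ := lt_min hr₀ Real.pi_pos
  obtain ⟨L₀, hL₀⟩ := poly_le_exp (C₀ * Real.exp (K + 2 * |C|)) r₁ (by positivity)
  refine ⟨max (max 200 T₁) (Real.exp L₀), ?_⟩
  intro T hT δ V h hδ F x hx
  have hT2 : 200 ≤ T := ((le_max_left _ _).trans (le_max_left _ _)).trans hT
  have hT1 : T₁ ≤ T := ((le_max_right _ _).trans (le_max_left _ _)).trans hT
  have hT0 : 0 < T := by linarith
  have hL : L₀ ≤ Real.log T := by
    rw [Real.le_log_iff_exp_le hT0]; exact (le_max_right _ _).trans hT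
  have hL1 := log_pos' hT2
  set L := Real.log T with hLdef
  have hL0 : 0 < L := by linarith
  have hδ0 : 0 < δ := lt_of_lt_of_le (div_pos Real.pi_pos hL0) hδ
  have hr : 0 < r₁ / L := div_pos hr1 hL0
  have m0 : (x : ℂ) ∈ Metric.closedBall (x : ℂ) 2 := Metric.mem_closedBall_self (by norm_num)
  have m2 := vert_mem x (-(3 / 4)) (by rw [abs_neg, abs_of_pos] <;> norm_num)
  have f2 := F.fac _ (mem_disc hT2 hx m2)
  obtain ⟨r0, -, r2⟩ := hR ((x : ℂ) + (-(3 / 4) : ℝ) * I) (by simp; norm_num)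
  have t := taylor F hT2 hx m0 m2
  have hk := hK T hT1 δ V h F x hx
  rw [← hLdef] at hk
  have hK0 : 0 ≤ K := (abs_nonneg _).trans hk
  set A := h ((x : ℂ) + (-(3 / 4) : ℝ) * I) with hA
  rw [add_sub_cancel_left, norm_mul, Complex.norm_I, Complex.norm_real, Real.norm_eq_abs,
    abs_neg, abs_of_pos (show (0 : ℝ) < 3 / 4 by norm_num)] at t
  have t2 := (Complex.abs_re_le_norm _).trans t
  have e2 : (A - h x - ((-(3 / 4) : ℝ) : ℂ) * I * deriv h x).re =
      A.re - (h x).re - 3 / 4 * (deriv h x).im := by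
    simp [sub_eq_add_neg]
  rw [e2] at t2
  have t3 : A.re - (h x).re ≤ -(3 / 8) * L + (K + 2 * |C|) := by
    have := (abs_le.1 t2).2
    have := (abs_le.1 hk).2
    have := abs_nonneg C
    linarith
  have final : C₀ * ((1 + (-(3 / 4) : ℝ) ^ 2 / (r₁ / L) ^ 2) *
      Real.exp (Real.pi * |(-(3 / 4) : ℝ)| / δ)) * Real.exp (A.re - (h x).re) ≤
      T ^ (2 / 5 : ℝ) := by
    have g1 : (1 + (-(3 / 4) : ℝ) ^ 2 / (r₁ / L) ^ 2) ≤ 1 + 4 * L ^ 2 / r₁ ^ 2 := by
      rw [div_pow r₁, div_div_eq_mul_div]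
      gcongr
      norm_num
    have g2 : Real.exp (Real.pi * |(-(3 / 4) : ℝ)| / δ) ≤ Real.exp (3 / 4 * L) := by
      rw [abs_neg, abs_of_pos (show (0 : ℝ) < 3 / 4 by norm_num)]
      refine Real.exp_le_exp.2 ?_
      rw [div_le_iff₀ hδ0]
      rw [div_le_iff₀ hL0] at hδ
      nlinarith
    have g3 := Real.exp_le_exp.2 t3
    have g4 := hL₀ L hL
    rw [Real.rpow_def_of_pos hT0, ← hLdef]
    calc C₀ * ((1 + (-(3 / 4) : ℝ) ^ 2 / (r₁ / L) ^ 2) *
          Real.exp (Real.pi * |(-(3 / 4) : ℝ)| / δ)) * Real.exp (A.re - (h x).re)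
        ≤ C₀ * ((1 + 4 * L ^ 2 / r₁ ^ 2) * Real.exp (3 / 4 * L)) *
          Real.exp (-(3 / 8) * L + (K + 2 * |C|)) := by gcongr
      _ = (C₀ * Real.exp (K + 2 * |C|) * (1 + 4 * L ^ 2 / r₁ ^ 2)) *
          (Real.exp (3 / 4 * L) * Real.exp (-(3 / 8) * L)) := by rw [Real.exp_add]; ring
      _ ≤ Real.exp (L / 40) * (Real.exp (3 / 4 * L) * Real.exp (-(3 / 8) * L)) := by gcongr
      _ = Real.exp (L * (2 / 5)) := by
          rw [← Real.exp_add, ← Real.exp_add]; congr 1; ring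
  constructor
  · intro hxV
    rw [norm_div, Complex.norm_exp, Complex.neg_re, Complex.norm_real, Real.norm_eq_abs]
    refine le_trans (compare (V.erase x) δ (r₁ / L) x (-(3 / 4)) C₀ ((-(3 / 4) : ℝ) * I) _ A (h x)
      hδ0 hr (fun u hu u' hu' => F.sep u (Finset.mem_of_mem_erase hu) u'
        (Finset.mem_of_mem_erase hu')) (fun u hu => ?_) ?_ ?_ r0 r2) final
    · refine le_trans ?_ (F.sep x hxV u (Finset.mem_of_mem_erase hu)
        (Finset.ne_of_mem_erase hu).symm)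
      refine le_trans ?_ hδ
      exact div_le_div_of_nonneg_right (min_le_right _ _) hL0.le
    · rw [norm_mul, Complex.norm_I, Complex.norm_real, Real.norm_eq_abs, abs_neg,
        abs_of_pos (show (0 : ℝ) < 3 / 4 by norm_num)]
      norm_num
    · rw [f2, ← Finset.mul_prod_erase V _ hxV, add_sub_cancel_left]
  · intro hfar
    rw [norm_div, Complex.norm_exp, Complex.neg_re, Complex.norm_real, Real.norm_eq_abs]
    refine le_trans (compare V δ (r₁ / L) x (-(3 / 4)) C₀ 1 _ A (h x)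
      hδ0 hr F.sep (fun u hu => ?_) (by simp) (by rw [f2, one_mul]) r0 r2) final
    exact le_trans (div_le_div_of_nonneg_right (min_le_left _ _) hL0.le) (hfar u hu)

theorem lower_vert (C r₀ : ℝ) (hr₀ : 0 < r₀) : ∃ A T₀ : ℝ, ∀ T : ℝ, T₀ ≤ T →
    ∀ (δ : ℝ) (V : Finset ℝ) (h : ℂ → ℂ), Real.pi / Real.log T ≤ δ → Fac C T δ V h →
      ∀ x y : ℝ, |x - 3 * T / 2| ≤ T / 9 → |y| ≤ 3 / 2 → (∀ u ∈ V, r₀ / Real.log T ≤ |x - u|) →
        zf (x + y * I) ≠ 0 ∧ ‖(zf (x + y * I))⁻¹‖ ≤ T ^ A := by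
  obtain ⟨C₀, hC₀, hR⟩ := zf_right
  obtain ⟨L₀, hL₀⟩ := poly_le_exp C₀ r₀ hC₀.le
  refine ⟨2 + 3 * |C|, max 200 (Real.exp L₀), ?_⟩
  intro T hT δ V h hδ F x y hx hy hfar
  have hT2 : 200 ≤ T := (le_max_left _ _).trans hT
  have hT0 : 0 < T := by linarith
  have hL : L₀ ≤ Real.log T := by
    rw [Real.le_log_iff_exp_le hT0]; exact (le_max_right _ _).trans hT
  have hL1 := log_pos' hT2
  set L := Real.log T with hLdef
  have hL0 : 0 < L := by linarith
  have hδ0 : 0 < δ := lt_of_lt_of_le (div_pos Real.pi_pos hL0) hδ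
  have hr : 0 < r₀ / L := div_pos hr₀ hL0
  have m1 := vert_mem x y (by linarith)
  have m2 := vert_mem x (-(3 / 2)) (by rw [abs_neg, abs_of_pos] <;> norm_num)
  have f1 := congrArg norm (F.fac _ (mem_disc hT2 hx m1))
  rw [norm_mul, Complex.norm_exp] at f1
  have f2 := F.fac _ (mem_disc hT2 hx m2)
  obtain ⟨r0, -, r2⟩ := hR ((x : ℂ) + (-(3 / 2) : ℝ) * I) (by simp; norm_num)
  have t := lip F hT2 hx m1 m2
  rw [← hLdef] at t
  set A := h ((x : ℂ) + (-(3 / 2) : ℝ) * I) with hA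
  set B := h ((x : ℂ) + y * I) with hB
  have e : (x : ℂ) + (-(3 / 2) : ℝ) * I - ((x : ℂ) + y * I) = (-(3 / 2) - y : ℝ) * I := by
    push_cast; ring
  rw [e, norm_mul, Complex.norm_I, Complex.norm_real, Real.norm_eq_abs, mul_one] at t
  have t1 : |-(3 / 2) - y| ≤ 3 := by
    obtain ⟨y1, y2⟩ := abs_le.1 hy
    rw [abs_le]; constructor <;> linarith
  have t2 : A.re - B.re ≤ 3 * |C| * L := by
    have h1 := (Complex.re_le_norm (A - B)).trans t
    rw [Complex.sub_re] at h1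
    have h2 : |C| * L * |-(3 / 2) - y| ≤ |C| * L * 3 :=
      mul_le_mul_of_nonneg_left t1 (by positivity)
    linarith
  have hc := compare V δ (r₀ / L) x (-(3 / 2)) C₀ 1 _ A B hδ0 hr F.sep hfar (by simp)
    (by rw [f2, one_mul]) r0 r2
  have hP := prod_ne V _ x hr hfar
  have hle := abs_prod_le V x y
  have hz : 0 < ‖zf (x + y * I)‖ := by
    rw [f1]; exact mul_pos (hP.trans_le hle) (Real.exp_pos _)
  refine ⟨norm_pos_iff.1 hz, ?_⟩
  have g0 : ‖(zf (x + y * I))⁻¹‖ ≤ Real.exp (-B.re) / |∏ u ∈ V, (x - u)| := by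
    rw [norm_inv, f1, mul_inv, Real.exp_neg, div_eq_mul_inv, mul_comm]
    refine mul_le_mul_of_nonneg_left ?_ (by positivity)
    exact inv_anti₀ hP hle
  refine g0.trans (hc.trans ?_)
  have g1 : (1 + (-(3 / 2) : ℝ) ^ 2 / (r₀ / L) ^ 2) ≤ 1 + 4 * L ^ 2 / r₀ ^ 2 := by
    rw [div_pow r₀, div_div_eq_mul_div]
    gcongr
    norm_num
  have g2 : Real.exp (Real.pi * |(-(3 / 2) : ℝ)| / δ) ≤ Real.exp (3 / 2 * L) := by
    rw [abs_neg, abs_of_pos (show (0 : ℝ) < 3 / 2 by norm_num)]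
    refine Real.exp_le_exp.2 ?_
    rw [div_le_iff₀ hδ0]
    rw [div_le_iff₀ hL0] at hδ
    nlinarith
  have g3 := Real.exp_le_exp.2 t2
  have g4 := hL₀ L hL
  rw [Real.rpow_def_of_pos hT0, ← hLdef]
  calc C₀ * ((1 + (-(3 / 2) : ℝ) ^ 2 / (r₀ / L) ^ 2) *
        Real.exp (Real.pi * |(-(3 / 2) : ℝ)| / δ)) * Real.exp (A.re - B.re)
      ≤ C₀ * ((1 + 4 * L ^ 2 / r₀ ^ 2) * Real.exp (3 / 2 * L)) * Real.exp (3 * |C| * L) := by
        gcongr
    _ = (C₀ * (1 + 4 * L ^ 2 / r₀ ^ 2)) * (Real.exp (3 / 2 * L) * Real.exp (3 * |C| * L)) := by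
        ring
    _ ≤ Real.exp (L / 40) * (Real.exp (3 / 2 * L) * Real.exp (3 * |C| * L)) := by gcongr
    _ ≤ Real.exp (L * (2 + 3 * |C|)) := by
        rw [← Real.exp_add, ← Real.exp_add]
        refine Real.exp_le_exp.2 ?_
        nlinarith

end Pool.Agent.MP_ca0a54_nt.L0
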