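import Pool.Agent.MP_ca0a54_nt.L0.ApproxAux
import Pool.Agent.MP_ca0a54_nt.L0.ZetaA
import Pool.Agent.MP_ca0a54_nt.L0.Lower
import Pool.Agent.MP_ca0a54_nt.L0.Residue

/-!
PART D2: the residue sums are approximated by Dirichlet polynomials.
-/

open Complex Filter Topology MeasureTheory

namespace Pool.Agent.MP_ca0a54_nt.L0

namespace Approx

lemma exp_log_mul {T : ℝ} (hT : 0 < T) (c : ℝ) : Real.exp (Real.log T * c) = T ^ c :=
  (Real.rpow_def_of_pos hT c).symm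

/-- the top side and the two vertical sides of the rectangle are small -/
lemma three_sides (C r₀ B : ℝ) (hr₀ : 0 < r₀) (hB : 0 ≤ B) :
    ∃ K T₀ : ℝ, ∀ T : ℝ, T₀ ≤ T → ∀ (δ a : ℝ) (V : Finset ℝ) (h : ℂ → ℂ) (x₁ x₂ t ξ : ℝ)
      (m : ℂ → ℂ), Real.pi / Real.log T ≤ δ → Fac C T δ V h →
      Sides T a (r₀ / Real.log T) V x₁ x₂ → |t - 3 * T / 2| ≤ T / 20 + 1 →
      -Real.log T / 2 ≤ ξ → ξ ≤ Real.log T →
      (∀ x : ℝ, ‖m (x + (3 / 2 : ℝ) * I)‖ ≤ 1) →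
      (∀ x ∈ ({x₁, x₂} : Set ℝ), ∀ y : ℝ, ‖m (x + y * I)‖ ≤ B * T) →
      ‖rectInt (fun w => E t ξ w * (zf w)⁻¹ * m w) x₁ x₂ (3 / 2) -
        ∫ x in x₁..x₂, E t ξ (x - (3 / 2 : ℝ) * I) * (zf (x - (3 / 2 : ℝ) * I))⁻¹ *
          m (x - (3 / 2 : ℝ) * I)‖ ≤ K * T ^ (-3 / 4 : ℝ) := by
  obtain ⟨c, C₁, hc, -, hleft⟩ := zf_left
  obtain ⟨A, T₁, hvert⟩ := lower_vert C r₀ hr₀
  obtain ⟨T₂, hT₂, hsmall⟩ := small (A + 5 / 2) (1 / 900) (by norm_num)
  refine ⟨Real.exp (9 / 4) / c * 2 + 2 * (Real.exp (9 / 4) * B * 3),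
    max (max T₁ T₂) 200, ?_⟩
  intro T hT δ a V h x₁ x₂ t ξ m hδ hF hS ht hξ1 hξ2 hm1 hm2
  have hT1 : T₁ ≤ T := ((le_max_left _ _).trans (le_max_left _ _)).trans hT
  have hT2 : T₂ ≤ T := ((le_max_right _ _).trans (le_max_left _ _)).trans hT
  have hT3 : 200 ≤ T := (le_max_right _ _).trans hT
  have hT0 : 0 < T := by linarith
  have hL0 : 0 ≤ Real.log T := Real.log_nonneg (by linarith)
  have hp : 0 < T ^ (-3 / 4 : ℝ) := Real.rpow_pos_of_pos hT0 _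
  have hx12 : x₁ ≤ x₂ := by linarith [hS.l2, hS.r1]
  rw [abs_le] at ht
  -- top side
  have htop : ‖∫ x in x₁..x₂, E t ξ (x + (3 / 2 : ℝ) * I) * (zf (x + (3 / 2 : ℝ) * I))⁻¹ *
      m (x + (3 / 2 : ℝ) * I)‖ ≤ Real.exp (9 / 4) / c * 2 * T ^ (-3 / 4 : ℝ) := by
    rw [intervalIntegral.integral_of_le hx12]
    refine (set_gauss measurableSet_Ioc _ (B := Real.exp (9 / 4) / c * T ^ (-3 / 4 : ℝ)) t one_pos
      (by positivity) fun x hx => ?_).trans ?_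
    · have h1 := (hleft T (by linarith) x (by linarith [hx.1, hS.l1])
        (by linarith [hx.2, hS.r2])).1
      have hp2 : 0 < T ^ (3 / 2 : ℝ) := Real.rpow_pos_of_pos hT0 _
      have h2 : ‖(zf (x + (3 / 2 : ℝ) * I))⁻¹‖ ≤ (c * T ^ (3 / 2 : ℝ))⁻¹ := by
        rw [norm_inv]
        exact inv_anti₀ (by positivity) h1
      have h3 : ‖E t ξ (x + (3 / 2 : ℝ) * I)‖ ≤
          Real.exp (9 / 4) * T ^ (3 / 4 : ℝ) * Real.exp (-1 * (x - t) ^ 2) := by
        rw [norm_E, ← exp_log_mul hT0, ← Real.exp_add, ← Real.exp_add, Real.exp_le_exp]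
        linarith
      have h4 : T ^ (3 / 4 : ℝ) = T ^ (-3 / 4 : ℝ) * T ^ (3 / 2 : ℝ) := by
        rw [← Real.rpow_add hT0]; norm_num
      rw [norm_mul, norm_mul]
      calc _ ≤ (Real.exp (9 / 4) * T ^ (3 / 4 : ℝ) * Real.exp (-1 * (x - t) ^ 2)) *
            (c * T ^ (3 / 2 : ℝ))⁻¹ * 1 := by
            gcongr
            exact hm1 x
        _ = _ := by rw [h4]; field_simp
    · have := sqrt_pi_le
      calc _ ≤ Real.exp (9 / 4) / c * T ^ (-3 / 4 : ℝ) * 2 := by gcongr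
        _ = _ := by ring
  -- vertical sides
  have hside : ∀ x ∈ ({x₁, x₂} : Set ℝ), ‖∫ y in (-(3 / 2 : ℝ))..(3 / 2),
      E t ξ (x + y * I) * (zf (x + y * I))⁻¹ * m (x + y * I)‖ ≤
        Real.exp (9 / 4) * B * 3 * T ^ (-3 / 4 : ℝ) := by
    intro x hx
    have hxt : T / 30 ≤ |x - t| := by
      rcases hx with rfl | rfl
      · rw [abs_sub_comm]
        exact le_trans (by linarith [hS.l2]) (le_abs_self _)
      · exact le_trans (by linarith [hS.r1]) (le_abs_self _)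
    have hx0 : |x - 3 * T / 2| ≤ T / 9 := by
      rw [abs_le]
      rcases hx with rfl | rfl
      · constructor <;> linarith [hS.l1, hS.l2]
      · constructor <;> linarith [hS.r1, hS.r2]
    have hsq : 1 / 900 * T ^ 2 ≤ (x - t) ^ 2 := by
      have := pow_le_pow_left₀ (by positivity) hxt 2
      rw [sq_abs] at this
      linarith
    refine (intervalIntegral.norm_integral_le_of_norm_le_const
      (C := Real.exp (9 / 4) * B * T ^ (-3 / 4 : ℝ)) fun y hy => ?_).trans (le_of_eq ?_)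
    · rw [Set.uIoc_of_le (by norm_num)] at hy
      have hy' : |y| ≤ 3 / 2 := abs_le.2 ⟨hy.1.le, hy.2⟩
      have h1 := (hvert T hT1 δ V h hδ hF x y hx0 hy' fun u hu => (hS.far u hu x hx).1).2
      have h3 : ‖E t ξ (x + y * I)‖ ≤
          Real.exp (9 / 4) * T ^ (3 / 2 : ℝ) * Real.exp (-(1 / 900) * T ^ 2) := by
        rw [norm_E, ← exp_log_mul hT0, ← Real.exp_add, ← Real.exp_add, Real.exp_le_exp]
        have h5 : y ^ 2 ≤ 9 / 4 := by nlinarith [hy.1, hy.2]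
        have h6 : -(ξ * y) ≤ Real.log T * (3 / 2) := by
          calc -(ξ * y) ≤ |ξ * y| := neg_le_abs _
            _ = |ξ| * |y| := abs_mul _ _
            _ ≤ Real.log T * (3 / 2) := by
              gcongr
              exact abs_le.2 ⟨by linarith, hξ2⟩
        linarith
      have h4 : T ^ (A + 5 / 2) = T ^ (3 / 2 : ℝ) * T ^ A * T := by
        rw [show A + 5 / 2 = 3 / 2 + A + 1 by ring, Real.rpow_add hT0, Real.rpow_add hT0,
          Real.rpow_one]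
      have h7 := hsmall T hT2
      rw [norm_mul, norm_mul]
      calc _ ≤ (Real.exp (9 / 4) * T ^ (3 / 2 : ℝ) * Real.exp (-(1 / 900) * T ^ 2)) * T ^ A *
            (B * T) := by
            gcongr
            exact hm2 x hx y
        _ = Real.exp (9 / 4) * B * (T ^ (A + 5 / 2) * Real.exp (-(1 / 900) * T ^ 2)) := by
            rw [h4]; ring
        _ ≤ _ := by gcongr
    · rw [show (3 / 2 : ℝ) - -(3 / 2) = 3 by norm_num, abs_of_pos (by norm_num)]; ring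
  have h1 := hside x₁ (by simp)
  have h2 := hside x₂ (by simp)
  unfold rectInt
  simp only
  rw [show ∀ a b c d : ℂ, a - b + I * c - I * d - a = -b + I * c - I * d from
    fun a b c d => by ring]
  refine (norm_sub_le _ _).trans ((add_le_add_left (norm_add_le _ _) _).trans ?_)
  rw [norm_neg, norm_mul, norm_mul, norm_I, one_mul, one_mul]
  linarith

/-- the residue theorem for `E / zf` times the factor coming from extra poles -/
lemma residue {C T δ : ℝ} {V : Finset ℝ} {h : ℂ → ℂ} (hF : Fac C T δ V h) (hT : 100 ≤ T)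
    {x₁ x₂ : ℝ} (hx : x₁ < x₂) (hx₁ : 3 * T / 2 - T / 10 ≤ x₁) (hx₂ : x₂ ≤ 3 * T / 2 + T / 10)
    (t ξ : ℝ) (W : Finset ℝ) (m : ℂ → ℂ)
    (hW : ∀ w : ℂ, (∏ u ∈ W, (w - (u : ℂ)))⁻¹ = (∏ u ∈ V, (w - (u : ℂ)))⁻¹ * m w)
    (h₁ : x₁ ∉ W) (h₂ : x₂ ∉ W) :
    rectInt (fun w => E t ξ w * (zf w)⁻¹ * m w) x₁ x₂ (3 / 2) =
      2 * Real.pi * I * ∑ u ∈ mid W x₁ x₂,
        exp (-((u - t : ℝ) : ℂ) ^ 2 + I * ξ * u - h u) / (pd W u : ℂ) := by
  have hmem : ∀ x y : ℝ, x₁ ≤ x → x ≤ x₂ → |y| ≤ 3 / 2 → (x : ℂ) + y * I ∈ disc T :=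
    fun x y h1 h2 h3 => mem_disc hT (abs_le.2 ⟨by linarith, by linarith⟩) h3
  have hH : DifferentiableOn ℂ (fun w : ℂ => exp (-(w - t) ^ 2 + I * ξ * w - h w))
      (Set.Icc x₁ x₂ ×ℂ Set.Icc (-(3 / 2 : ℝ)) (3 / 2)) := by
    have hsub : (Set.Icc x₁ x₂ ×ℂ Set.Icc (-(3 / 2 : ℝ)) (3 / 2)) ⊆ disc T := by
      intro w hw
      rw [mem_reProdIm] at hw
      have := hmem w.re w.im hw.1.1 hw.1.2 (abs_le.2 hw.2)
      rwa [re_add_im] at this
    refine DifferentiableOn.cexp (DifferentiableOn.sub ?_ (hF.diff.mono hsub))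
    fun_prop
  have key := rect_residue _ x₁ x₂ (3 / 2) hx (by norm_num) hH W h₁ h₂
  rw [rectInt_congr hx.le (by norm_num) (G := fun w : ℂ =>
    exp (-(w - t) ^ 2 + I * ξ * w - h w) / ∏ u ∈ W, (w - (u : ℂ))), key]
  · congr 1
    refine Finset.sum_congr rfl fun u _ => ?_
    push_cast
    rfl
  · intro x y h1 h2 h3
    rw [hF.fac _ (hmem x y h1 h2 h3), div_eq_mul_inv, hW, E, Complex.exp_sub, mul_inv,
      div_eq_mul_inv]
    ring

lemma continuous_bottom (t ξ : ℝ) : Continuous fun x : ℝ =>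
    E t ξ (x - (3 / 2 : ℝ) * I) * (zf (x - (3 / 2 : ℝ) * I))⁻¹ := by
  obtain ⟨C, -, hC⟩ := zf_right
  refine Continuous.mul (by unfold E; fun_prop) (Continuous.inv₀ ?_ fun x => (hC _ ?_).1)
  · rw [continuous_iff_continuousAt]
    intro x
    unfold zf
    refine ContinuousAt.comp (f := fun x : ℝ => 1 / 2 + I * ((x : ℂ) - (3 / 2 : ℝ) * I))
      (differentiableAt_riemannZeta ?_).continuousAt (by fun_prop)
    intro h
    have := congrArg Complex.re h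
    simp at this
    norm_num at this
  · simp; norm_num

lemma norm_two_pi_I : ‖(2 * Real.pi * I : ℂ)‖ = 2 * Real.pi := by
  simp [abs_of_pos Real.pi_pos]

end Approx

open Approx

theorem approx_dirichlet (C r₀ ε₁ : ℝ) (hr₀ : 0 < r₀) (hε : 0 < ε₁) (hε' : ε₁ ≤ 1) :
    ∃ K T₀ : ℝ, ∀ T : ℝ, T₀ ≤ T → ∀ (δ a : ℝ) (V : Finset ℝ) (h : ℂ → ℂ) (x₁ x₂ t ξ : ℝ),
      Real.pi / Real.log T ≤ δ → Fac C T δ V h → Sides T a (r₀ / Real.log T) V x₁ x₂ →
      |t - 3 * T / 2| ≤ T / 20 + 1 → -Real.log T / 2 ≤ ξ → ξ ≤ (1 - ε₁) * Real.log T →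
      ‖As V h x₁ x₂ t ξ -
        (Real.sqrt Real.pi : ℂ) / (2 * Real.pi * I) * Pn ⌊T ^ (1 - ε₁ / 2)⌋₊ t ξ‖ ≤
          K * T ^ (-3 / 4 : ℝ) := by
  obtain ⟨K₁, T₁, h3⟩ := three_sides C r₀ 1 hr₀ zero_le_one
  obtain ⟨T₂, htail⟩ := tail_le ε₁ hε hε'
  obtain ⟨C₂, hC₂, hright⟩ := zf_right
  obtain ⟨T₃, -, hsmall⟩ := small (3 / 2) (1 / 1800) (by norm_num)
  refine ⟨(K₁ + Real.exp (9 / 4) * C₂ * 3 + 2 * 2) / (2 * Real.pi),
    max (max T₁ T₂) (max T₃ 200), ?_⟩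
  intro T hT δ a V h x₁ x₂ t ξ hδ hF hS ht hξ1 hξ2
  have hT1 : T₁ ≤ T := ((le_max_left _ _).trans (le_max_left _ _)).trans hT
  have hT2 : T₂ ≤ T := ((le_max_right _ _).trans (le_max_left _ _)).trans hT
  have hT3 : T₃ ≤ T := ((le_max_left _ _).trans (le_max_right _ _)).trans hT
  have hT4 : 200 ≤ T := ((le_max_right _ _).trans (le_max_right _ _)).trans hT
  have hT0 : 0 < T := by linarith
  have hL0 : 0 < Real.log T := Real.log_pos (by linarith)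
  have hp : 0 < T ^ (-3 / 4 : ℝ) := Real.rpow_pos_of_pos hT0 _
  have hx12 : x₁ < x₂ := by linarith [hS.l2, hS.r1]
  have hξ3 : ξ ≤ Real.log T := by nlinarith
  have hr : 0 < r₀ / Real.log T := by positivity
  have hnot : ∀ x ∈ ({x₁, x₂} : Set ℝ), x ∉ V := by
    intro x hx hV
    have := (hS.far x hV x hx).1
    rw [sub_self, abs_zero] at this
    linarith
  have e1 := h3 T hT1 δ a V h x₁ x₂ t ξ (fun _ => 1) hδ hF hS ht hξ1 hξ3 (by simp)
    (fun _ _ _ => by simp; linarith)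
  rw [residue hF (by linarith) hx12 hS.l1 hS.r2 t ξ V (fun _ => 1) (by simp)
    (hnot _ (by simp)) (hnot _ (by simp))] at e1
  simp only [mul_one] at e1
  set Fb : ℝ → ℂ := fun x => E t ξ (x - (3 / 2 : ℝ) * I) * (zf (x - (3 / 2 : ℝ) * I))⁻¹
    with hFb
  have him : ∀ x : ℝ, ((x : ℂ) - (3 / 2 : ℝ) * I).im = -3 / 2 := by
    intro x; simp; norm_num
  have hFbn : ∀ x : ℝ, ‖Fb x‖ ≤
      Real.exp (9 / 4) * C₂ * T ^ (3 / 2 : ℝ) * Real.exp (-1 * (x - t) ^ 2) := by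
    intro x
    have h1 := (hright (x - (3 / 2 : ℝ) * I) (by rw [him]; norm_num)).2.2
    have h2 : ‖E t ξ (x - (3 / 2 : ℝ) * I)‖ ≤
        Real.exp (9 / 4) * T ^ (3 / 2 : ℝ) * Real.exp (-1 * (x - t) ^ 2) := by
      rw [norm_E_sub, ← exp_log_mul hT0, ← Real.exp_add, ← Real.exp_add, Real.exp_le_exp]
      linarith
    rw [hFb]
    simp only [norm_mul]
    calc _ ≤ Real.exp (9 / 4) * T ^ (3 / 2 : ℝ) * Real.exp (-1 * (x - t) ^ 2) * C₂ := by gcongr
      _ = _ := by ring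
  have hFbi : Integrable Fb :=
    Integrable.mono' ((gauss_integrable one_pos t).const_mul _)
      (continuous_bottom t ξ).aestronglyMeasurable (Eventually.of_forall hFbn)
  -- the part of the line outside the rectangle
  have e2 : ‖∫ x in (Set.Ioc x₁ x₂)ᶜ, Fb x‖ ≤ Real.exp (9 / 4) * C₂ * 3 * T ^ (-3 / 4 : ℝ) := by
    refine (set_gauss measurableSet_Ioc.compl _ (B := Real.exp (9 / 4) * C₂ * T ^ (-3 / 4 : ℝ))
      (b := 1 / 2) t (by norm_num) (by positivity) fun x hx => (hFbn x).trans ?_).trans ?_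
    · have hxt : T / 30 ≤ |x - t| := by
        rw [abs_le] at ht
        rw [Set.mem_compl_iff, Set.mem_Ioc, not_and_or, not_lt, not_le] at hx
        rcases hx with hx | hx
        · rw [abs_sub_comm]
          exact le_trans (by linarith [hS.l2]) (le_abs_self _)
        · exact le_trans (by linarith [hS.r1]) (le_abs_self _)
      have hsq : 1 / 900 * T ^ 2 ≤ (x - t) ^ 2 := by
        have := pow_le_pow_left₀ (by positivity) hxt 2
        rw [sq_abs] at this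
        linarith
      have h1 : Real.exp (-1 * (x - t) ^ 2) ≤
          Real.exp (-(1 / 1800) * T ^ 2) * Real.exp (-(1 / 2) * (x - t) ^ 2) := by
        rw [← Real.exp_add, Real.exp_le_exp]; linarith
      have h2 := hsmall T hT3
      calc _ ≤ Real.exp (9 / 4) * C₂ * T ^ (3 / 2 : ℝ) *
            (Real.exp (-(1 / 1800) * T ^ 2) * Real.exp (-(1 / 2) * (x - t) ^ 2)) := by gcongr
        _ = Real.exp (9 / 4) * C₂ * (T ^ (3 / 2 : ℝ) * Real.exp (-(1 / 1800) * T ^ 2)) *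
            Real.exp (-(1 / 2) * (x - t) ^ 2) := by ring
        _ ≤ _ := by gcongr
    · have := sqrt_two_pi_le
      calc _ ≤ Real.exp (9 / 4) * C₂ * T ^ (-3 / 4 : ℝ) * 3 := by gcongr
        _ = _ := by ring
  -- the whole line
  have hsq0 : (Real.sqrt Real.pi : ℂ) ≠ 0 := by
    exact_mod_cast (Real.sqrt_pos.2 Real.pi_pos).ne'
  have e3 : HasSum (term t ξ) ((Real.sqrt Real.pi : ℂ)⁻¹ * ∫ x, Fb x) := by
    have h1 := (hasSum_Fn t ξ).mul_left (Real.sqrt Real.pi : ℂ)⁻¹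
    simp only [inv_mul_cancel_left₀ hsq0] at h1
    have h2 : Fb = fun x => ∑' n, Fn t ξ n x :=
      funext fun x => (((zf_inv_hasSum _ (him x)).mul_left _).tsum_eq).symm
    rw [h2]
    exact h1
  have e4 := htail T hT2 t ξ hξ2 _ e3
  have e5 := integral_add_compl (measurableSet_Ioc (a := x₁) (b := x₂)) hFbi
  rw [intervalIntegral.integral_of_le hx12.le] at e1
  have hpi : (2 * Real.pi * I : ℂ) ≠ 0 := two_pi_I_ne_zero
  have hid : As V h x₁ x₂ t ξ -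
      (Real.sqrt Real.pi : ℂ) / (2 * Real.pi * I) * Pn ⌊T ^ (1 - ε₁ / 2)⌋₊ t ξ =
      (2 * Real.pi * I)⁻¹ * ((2 * Real.pi * I * As V h x₁ x₂ t ξ -
        ∫ x in Set.Ioc x₁ x₂, Fb x) - (∫ x in (Set.Ioc x₁ x₂)ᶜ, Fb x) +
        (Real.sqrt Real.pi : ℂ) * (((Real.sqrt Real.pi : ℂ)⁻¹ * ∫ x, Fb x) -
          Pn ⌊T ^ (1 - ε₁ / 2)⌋₊ t ξ)) := by
    rw [← e5]; field_simp; ring
  have hs2 : ‖(Real.sqrt Real.pi : ℂ)‖ ≤ 2 := by
    rw [norm_real, Real.norm_eq_abs, abs_of_nonneg (Real.sqrt_nonneg _)]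
    simpa using sqrt_pi_le
  rw [hid, norm_mul, norm_inv, norm_two_pi_I, div_mul_eq_mul_div, div_eq_inv_mul _ (2 * Real.pi)]
  have := Real.pi_pos
  refine mul_le_mul_of_nonneg_left ?_ (by positivity)
  refine (norm_add_le _ _).trans ((add_le_add_left (norm_sub_le _ _) _).trans ?_)
  rw [norm_mul]
  have e6 : ‖(Real.sqrt Real.pi : ℂ)‖ * ‖((Real.sqrt Real.pi : ℂ)⁻¹ * ∫ x, Fb x) -
      Pn ⌊T ^ (1 - ε₁ / 2)⌋₊ t ξ‖ ≤ 2 * (2 * T ^ (-3 / 4 : ℝ)) := by gcongr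
  have e7 : ‖2 * Real.pi * I * As V h x₁ x₂ t ξ - ∫ x in Set.Ioc x₁ x₂, Fb x‖ ≤
      K₁ * T ^ (-3 / 4 : ℝ) := e1
  linarith

theorem approx_pole (C r₀ : ℝ) (hr₀ : 0 < r₀) :
    ∃ K T₀ : ℝ, ∀ T : ℝ, T₀ ≤ T → ∀ (δ a : ℝ) (V : Finset ℝ) (h : ℂ → ℂ) (x₁ x₂ t v : ℝ),
      Real.pi / Real.log T ≤ δ → Fac C T δ V h → Sides T a (r₀ / Real.log T) V x₁ x₂ →
      |t - 3 * T / 2| ≤ T / 20 + 1 → x₁ - 1 ≤ v → v ≤ x₂ + 1 →
      (∀ u ∈ V, r₀ / Real.log T ≤ |v - u|) → r₀ / Real.log T ≤ |x₁ - v| →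
      r₀ / Real.log T ≤ |x₂ - v| →
      ‖(∑ u ∈ mid V x₁ x₂, exp (-((u - t : ℝ) : ℂ) ^ 2 + I * (-Real.log T / 2 : ℝ) * u - h u) /
          ((pd V u : ℂ) * ((u - v : ℝ) : ℂ))) +
        exp (-((v - t : ℝ) : ℂ) ^ 2 + I * (-Real.log T / 2 : ℝ) * v - h v) / (pv V v : ℂ)‖ ≤
          K * T ^ (-3 / 4 : ℝ) := by
  obtain ⟨K₁, T₁, h3⟩ := three_sides C r₀ r₀⁻¹ hr₀ (by positivity)
  obtain ⟨T₂, hreal⟩ := lower_real C r₀ hr₀
  obtain ⟨C₂, hC₂, hright⟩ := zf_right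
  obtain ⟨T₃, -, hsmall⟩ := small (2 / 5) (1 / 900) (by norm_num)
  refine ⟨(K₁ + Real.exp (9 / 4) * C₂ * 2) / (2 * Real.pi) + 1,
    max (max T₁ T₂) (max T₃ 200), ?_⟩
  intro T hT δ a V h x₁ x₂ t v hδ hF hS ht hv1 hv2 hvV hv3 hv4
  have hT1 : T₁ ≤ T := ((le_max_left _ _).trans (le_max_left _ _)).trans hT
  have hT2 : T₂ ≤ T := ((le_max_right _ _).trans (le_max_left _ _)).trans hT
  have hT3 : T₃ ≤ T := ((le_max_left _ _).trans (le_max_right _ _)).trans hT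
  have hT4 : 200 ≤ T := ((le_max_right _ _).trans (le_max_right _ _)).trans hT
  have hT0 : 0 < T := by linarith
  have hL0 : 0 < Real.log T := Real.log_pos (by linarith)
  have hL1 : Real.log T ≤ T := (Real.log_le_sub_one_of_pos hT0).trans (by linarith)
  have hp : 0 < T ^ (-3 / 4 : ℝ) := Real.rpow_pos_of_pos hT0 _
  have hx12 : x₁ < x₂ := by linarith [hS.l2, hS.r1]
  have hr : 0 < r₀ / Real.log T := by positivity
  have hvn : v ∉ V := by
    intro hV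
    have := hvV v hV
    rw [sub_self, abs_zero] at this
    linarith
  have hfar : ∀ x ∈ ({x₁, x₂} : Set ℝ), r₀ / Real.log T ≤ |x - v| := by
    rintro x (rfl | rfl)
    · exact hv3
    · exact hv4
  have hnot : ∀ x ∈ ({x₁, x₂} : Set ℝ), x ∉ insert v V := by
    intro x hx hV
    rcases Finset.mem_insert.1 hV with rfl | hV
    · have := hfar x hx
      rw [sub_self, abs_zero] at this
      linarith
    · have := (hS.far x hV x hx).1
      rw [sub_self, abs_zero] at this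
      linarith
  set ξ : ℝ := -Real.log T / 2 with hξ
  have hm : ∀ x y : ℝ, |y| = 3 / 2 → ‖((x : ℂ) + y * I - v)⁻¹‖ ≤ 1 := by
    intro x y hy
    rw [norm_inv]
    refine inv_le_one_of_one_le₀ (le_trans ?_ (abs_im_le_norm _))
    simp only [sub_im, add_im, ofReal_im, mul_im, ofReal_re, I_im, I_re]
    rw [show 0 + (y * 1 + 0 * 0) - 0 = y by ring, hy]; norm_num
  have e1 := h3 T hT1 δ a V h x₁ x₂ t ξ (fun w => (w - v)⁻¹) hδ hF hS ht le_rfl
    (by rw [hξ]; linarith) (fun x => hm x (3 / 2) (by norm_num))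
    (fun x hx y => by
      rw [norm_inv]
      have h1 : r₀ / Real.log T ≤ ‖(x : ℂ) + y * I - v‖ := by
        refine (hfar x hx).trans (le_trans (le_of_eq ?_) (abs_re_le_norm _))
        simp
      refine (inv_anti₀ hr h1).trans ?_
      rw [inv_div, div_eq_inv_mul]
      gcongr)
  rw [residue hF (by linarith) hx12 hS.l1 hS.r2 t ξ (insert v V) (fun w => (w - v)⁻¹)
    (fun w => by rw [Finset.prod_insert hvn, mul_inv, mul_comm])
    (hnot _ (by simp)) (hnot _ (by simp))] at e1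
  -- the bottom side
  have e2 : ‖∫ x in x₁..x₂, E t ξ (x - (3 / 2 : ℝ) * I) * (zf (x - (3 / 2 : ℝ) * I))⁻¹ *
      ((x : ℂ) - (3 / 2 : ℝ) * I - v)⁻¹‖ ≤ Real.exp (9 / 4) * C₂ * 2 * T ^ (-3 / 4 : ℝ) := by
    rw [intervalIntegral.integral_of_le hx12.le]
    refine (set_gauss measurableSet_Ioc _ (B := Real.exp (9 / 4) * C₂ * T ^ (-3 / 4 : ℝ)) t
      one_pos (by positivity) fun x _ => ?_).trans ?_
    · have h1 := (hright (x - (3 / 2 : ℝ) * I) (by simp; norm_num)).2.2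
      have h2 : ‖E t ξ (x - (3 / 2 : ℝ) * I)‖ =
          Real.exp (9 / 4) * T ^ (-3 / 4 : ℝ) * Real.exp (-1 * (x - t) ^ 2) := by
        rw [norm_E_sub, ← exp_log_mul hT0, ← Real.exp_add, ← Real.exp_add, hξ]
        congr 1; ring
      have h4 := hm x (-(3 / 2)) (by norm_num)
      rw [show (x : ℂ) + ((-(3 / 2) : ℝ) : ℂ) * I = x - (3 / 2 : ℝ) * I by push_cast; ring] at h4
      rw [norm_mul, norm_mul, h2]
      calc _ ≤ Real.exp (9 / 4) * T ^ (-3 / 4 : ℝ) * Real.exp (-1 * (x - t) ^ 2) * C₂ * 1 := by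
            gcongr
        _ = _ := by ring
    · have := sqrt_pi_le
      calc _ ≤ Real.exp (9 / 4) * C₂ * T ^ (-3 / 4 : ℝ) * 2 := by gcongr
        _ = _ := by ring
  set S : ℂ := ∑ u ∈ mid (insert v V) x₁ x₂,
    exp (-((u - t : ℝ) : ℂ) ^ 2 + I * ξ * u - h u) / (pd (insert v V) u : ℂ) with hSdef
  have e3 : ‖S‖ ≤ (K₁ + Real.exp (9 / 4) * C₂ * 2) / (2 * Real.pi) * T ^ (-3 / 4 : ℝ) := by
    have h1 := norm_le_norm_add_norm_sub' (2 * Real.pi * I * S)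
      (∫ x in x₁..x₂, E t ξ (x - (3 / 2 : ℝ) * I) * (zf (x - (3 / 2 : ℝ) * I))⁻¹ *
        ((x : ℂ) - (3 / 2 : ℝ) * I - v)⁻¹)
    rw [norm_mul, norm_two_pi_I] at h1
    have := Real.pi_pos
    rw [div_mul_eq_mul_div, le_div_iff₀ (by positivity)]
    linarith
  have hpd : ∀ u ∈ V, (pd (insert v V) u : ℂ) = (pd V u : ℂ) * ((u - v : ℝ) : ℂ) := by
    intro u hu
    have hne : v ≠ u := fun h => hvn (h ▸ hu)
    rw [pd, pd, Finset.erase_insert_of_ne hne,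
      Finset.prod_insert fun h => hvn (Finset.mem_of_mem_erase h), mul_comm]
    push_cast; rfl
  have hpv : pd (insert v V) v = pv V v := by rw [pd, pv, Finset.erase_insert hvn]
  have hsum : ∑ u ∈ mid V x₁ x₂,
      exp (-((u - t : ℝ) : ℂ) ^ 2 + I * ξ * u - h u) / (pd (insert v V) u : ℂ) =
      ∑ u ∈ mid V x₁ x₂, exp (-((u - t : ℝ) : ℂ) ^ 2 + I * ξ * u - h u) /
        ((pd V u : ℂ) * ((u - v : ℝ) : ℂ)) :=
    Finset.sum_congr rfl fun u hu => by rw [hpd u (Finset.mem_filter.1 hu).1]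
  by_cases hvm : x₁ < v ∧ v < x₂
  · have hmid : mid (insert v V) x₁ x₂ = insert v (mid V x₁ x₂) := by
      rw [mid, Finset.filter_insert, if_pos hvm, mid]
    have hvmid : v ∉ mid V x₁ x₂ := fun h => hvn (Finset.mem_filter.1 h).1
    rw [hmid, Finset.sum_insert hvmid, hsum, hpv, add_comm] at hSdef
    rw [← hSdef]
    linarith
  · have hmid : mid (insert v V) x₁ x₂ = mid V x₁ x₂ := by
      rw [mid, Finset.filter_insert, if_neg hvm, mid]
    rw [hmid, hsum] at hSdef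
    rw [← hSdef]
    have e4 : ‖exp (-((v - t : ℝ) : ℂ) ^ 2 + I * ξ * v - h v) / (pv V v : ℂ)‖ ≤
        T ^ (-3 / 4 : ℝ) := by
      rw [abs_le] at ht
      have h1 := (hreal T hT2 δ V h hδ hF v
        (abs_le.2 ⟨by linarith [hS.l1], by linarith [hS.r2]⟩)).2 hvV
      have hxt : T / 30 ≤ |v - t| := by
        rw [not_and_or, not_lt, not_lt] at hvm
        rcases hvm with hx | hx
        · rw [abs_sub_comm]
          exact le_trans (by linarith [hS.l2]) (le_abs_self _)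
        · exact le_trans (by linarith [hS.r1]) (le_abs_self _)
      have hsq : 1 / 900 * T ^ 2 ≤ (v - t) ^ 2 := by
        have := pow_le_pow_left₀ (by positivity) hxt 2
        rw [sq_abs] at this
        linarith
      have h2 : ‖exp (-((v - t : ℝ) : ℂ) ^ 2 + I * ξ * v)‖ ≤ Real.exp (-(1 / 900) * T ^ 2) := by
        rw [norm_exp, Real.exp_le_exp, ← ofReal_pow]
        simp only [add_re, neg_re, ofReal_re, mul_re, I_re, I_im, ofReal_im, mul_im]
        linarith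
      rw [sub_eq_add_neg _ (h v), Complex.exp_add, mul_div_assoc, norm_mul]
      calc _ ≤ Real.exp (-(1 / 900) * T ^ 2) * T ^ (2 / 5 : ℝ) := by gcongr
        _ ≤ _ := by rw [mul_comm]; exact hsmall T hT3
    refine (norm_add_le _ _).trans ?_
    linarith

end Pool.Agent.MP_ca0a54_nt.L0
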