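import Pool.Agent.MP_ca0a54_nt.L0.Defs

/-!
Auxiliary lemmas for the contour estimates: Gaussian bounds, the termwise integration of the
Dirichlet series of `1 / zeta`, and the tail of that series.
-/

open Complex Filter Topology MeasureTheory

namespace Pool.Agent.MP_ca0a54_nt.L0.Approx

/-- The Gaussian kernel. -/
noncomputable def E (t ξ : ℝ) (w : ℂ) : ℂ := exp (-(w - t) ^ 2 + I * ξ * w)

lemma norm_E (t ξ x y : ℝ) :
    ‖E t ξ (x + y * I)‖ = Real.exp (-(x - t) ^ 2 + y ^ 2 - ξ * y) := by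
  rw [E, norm_exp]
  congr 1
  simp [pow_two]
  ring

lemma norm_E_sub (t ξ x y : ℝ) :
    ‖E t ξ (x - y * I)‖ = Real.exp (-(x - t) ^ 2 + y ^ 2 + ξ * y) := by
  have := norm_E t ξ x (-y)
  rw [show (x : ℂ) + ((-y : ℝ) : ℂ) * I = x - y * I by push_cast; ring] at this
  rw [this]; congr 1; ring

lemma gauss_int (b t : ℝ) : ∫ x : ℝ, Real.exp (-b * (x - t) ^ 2) = √(Real.pi / b) := by
  rw [integral_sub_right_eq_self (fun x => Real.exp (-b * x ^ 2)) t, integral_gaussian]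

lemma gauss_integrable {b : ℝ} (hb : 0 < b) (t : ℝ) :
    Integrable fun x : ℝ => Real.exp (-b * (x - t) ^ 2) :=
  (integrable_exp_neg_mul_sq hb).comp_sub_right t

lemma set_gauss {s : Set ℝ} (hs : MeasurableSet s) (f : ℝ → ℂ) {B b : ℝ} (t : ℝ) (hb : 0 < b)
    (hB : 0 ≤ B) (h : ∀ x ∈ s, ‖f x‖ ≤ B * Real.exp (-b * (x - t) ^ 2)) :
    ‖∫ x in s, f x‖ ≤ B * √(Real.pi / b) := by
  have hi : Integrable fun x : ℝ => B * Real.exp (-b * (x - t) ^ 2) :=
    (gauss_integrable hb t).const_mul B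
  calc ‖∫ x in s, f x‖ ≤ ∫ x in s, B * Real.exp (-b * (x - t) ^ 2) :=
        norm_integral_le_of_norm_le hi.integrableOn
          ((ae_restrict_iff' hs).2 (Eventually.of_forall h))
    _ ≤ ∫ x, B * Real.exp (-b * (x - t) ^ 2) :=
        setIntegral_le_integral hi (Eventually.of_forall fun x => by positivity)
    _ = B * √(Real.pi / b) := by rw [integral_const_mul, gauss_int]

lemma sqrt_pi_le : √(Real.pi / 1) ≤ 2 := by
  rw [Real.sqrt_le_left (by norm_num)]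
  have := Real.pi_le_four
  linarith

lemma sqrt_two_pi_le : √(Real.pi / (1 / 2)) ≤ 3 := by
  rw [Real.sqrt_le_left (by norm_num)]
  have := Real.pi_le_four
  linarith

/-- a Gaussian beats every power -/
lemma small (A c : ℝ) (hc : 0 < c) : ∃ T₀ : ℝ, 1 ≤ T₀ ∧ ∀ T : ℝ, T₀ ≤ T →
    T ^ A * Real.exp (-c * T ^ 2) ≤ T ^ (-3 / 4 : ℝ) := by
  refine ⟨max 1 (|A + 3 / 4| / c), le_max_left _ _, fun T hT => ?_⟩
  have h1 : 1 ≤ T := (le_max_left _ _).trans hT
  have h2 : |A + 3 / 4| / c ≤ T := (le_max_right _ _).trans hT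
  have h0 : 0 < T := by linarith
  rw [Real.rpow_def_of_pos h0, Real.rpow_def_of_pos h0, ← Real.exp_add, Real.exp_le_exp]
  have hl0 : 0 ≤ Real.log T := Real.log_nonneg h1
  have hl1 : Real.log T ≤ T := (Real.log_le_sub_one_of_pos h0).trans (by linarith)
  have h3 : |A + 3 / 4| ≤ c * T := by rwa [div_le_iff₀' hc] at h2
  have h4 : (A + 3 / 4) * Real.log T ≤ c * T * T :=
    calc (A + 3 / 4) * Real.log T ≤ |A + 3 / 4| * Real.log T :=
          mul_le_mul_of_nonneg_right (le_abs_self _) hl0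
      _ ≤ c * T * T := mul_le_mul h3 hl1 hl0 (by positivity)
  nlinarith

/-- the general term of the Dirichlet series after integration -/
noncomputable def term (t ξ : ℝ) (n : ℕ) : ℂ :=
  ((ArithmeticFunction.moebius n : ℤ) : ℂ) *
    exp (-(Real.log n : ℂ) / 2 + I * ((ξ - Real.log n : ℝ) : ℂ) * t -
      ((ξ - Real.log n : ℝ) : ℂ) ^ 2 / 4)

lemma norm_moebius_le (n : ℕ) : ‖((ArithmeticFunction.moebius n : ℤ) : ℂ)‖ ≤ 1 := by
  rw [Complex.norm_intCast]
  exact_mod_cast ArithmeticFunction.abs_moebius_le_one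

lemma exp_neg_two_log (n : ℕ) (hn : n ≠ 0) :
    Real.exp (-2 * Real.log n) = 1 / (n : ℝ) ^ 2 := by
  have h0 : (0 : ℝ) < n := by positivity
  rw [show -2 * Real.log n = -(Real.log ((n : ℝ) ^ 2)) by rw [Real.log_pow]; push_cast; ring,
    Real.exp_neg, Real.exp_log (by positivity), one_div]

/-- the integrand of the `n`-th term on the line `im w = -3/2` -/
noncomputable def Fn (t ξ : ℝ) (n : ℕ) (x : ℝ) : ℂ :=
  E t ξ (x - (3 / 2 : ℝ) * I) * (((ArithmeticFunction.moebius n : ℤ) : ℂ) *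
    exp (-(1 / 2 + I * (x - (3 / 2 : ℝ) * I)) * (Real.log n : ℂ)))

lemma Fn_eq (t ξ : ℝ) (n : ℕ) (x : ℝ) : Fn t ξ n x =
    ((ArithmeticFunction.moebius n : ℤ) : ℂ) *
      exp ((-1 : ℂ) * x ^ 2 + (2 * (t + 3 / 2 * I) + I * ((ξ - Real.log n : ℝ) : ℂ)) * x +
        (-(t + 3 / 2 * I) ^ 2 + 3 / 2 * ((ξ - Real.log n : ℝ) : ℂ) - (Real.log n : ℂ) / 2)) := by
  rw [Fn, E, mul_left_comm, ← Complex.exp_add]
  congr 2
  push_cast
  linear_combination (-(3 / 2 : ℂ) * (ξ - Complex.log n)) * I_mul_I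

lemma Fn_integrable (t ξ : ℝ) (n : ℕ) : Integrable (Fn t ξ n) := by
  have : Fn t ξ n = fun x : ℝ => _ := funext (Fn_eq t ξ n)
  rw [this]
  exact (integrable_cexp_quadratic' (by simp) _ _).const_mul _

lemma Fn_integral (t ξ : ℝ) (n : ℕ) :
    ∫ x, Fn t ξ n x = (Real.sqrt Real.pi : ℂ) * term t ξ n := by
  have : Fn t ξ n = fun x : ℝ => _ := funext (Fn_eq t ξ n)
  rw [this, integral_const_mul, integral_cexp_quadratic (by simp), term, mul_left_comm]
  congr 1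
  · rw [Real.sqrt_eq_rpow, Complex.ofReal_cpow Real.pi_pos.le]
    simp
  · congr 2
    linear_combination (3 / 2 * ((ξ - Real.log n : ℝ) : ℂ) +
      ((ξ - Real.log n : ℝ) : ℂ) ^ 2 / 4) * I_mul_I

lemma norm_Fn_le (t ξ : ℝ) (n : ℕ) (x : ℝ) : ‖Fn t ξ n x‖ ≤
    Real.exp (9 / 4 + ξ * (3 / 2)) * (1 / (n : ℝ) ^ 2) * Real.exp (-1 * (x - t) ^ 2) := by
  rcases eq_or_ne n 0 with rfl | hn
  · simp [Fn]
  rw [Fn, norm_mul, norm_mul, norm_E_sub, norm_exp, ← exp_neg_two_log n hn]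
  have h1 : (-(1 / 2 + I * ((x : ℂ) - (3 / 2 : ℝ) * I)) * (Real.log n : ℂ)).re =
      -2 * Real.log n := by
    simp only [neg_re, mul_re, add_re, div_ofNat_re, one_re, I_re, sub_re, ofReal_re, I_im,
      ofReal_im, sub_im, mul_im, neg_im, add_im, div_ofNat_im, one_im]
    ring
  rw [h1]
  have h2 := norm_moebius_le n
  have h3 : Real.exp (-(x - t) ^ 2 + (3 / 2) ^ 2 + ξ * (3 / 2)) =
      Real.exp (9 / 4 + ξ * (3 / 2)) * Real.exp (-1 * (x - t) ^ 2) := by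
    rw [← Real.exp_add]; congr 1; ring
  rw [h3]
  have h4 : 0 < Real.exp (9 / 4 + ξ * (3 / 2)) * Real.exp (-1 * (x - t) ^ 2) *
    Real.exp (-2 * Real.log n) := by positivity
  nlinarith

lemma hasSum_Fn (t ξ : ℝ) : HasSum (fun n => (Real.sqrt Real.pi : ℂ) * term t ξ n)
    (∫ x, ∑' n, Fn t ξ n x) := by
  have h := hasSum_integral_of_summable_integral_norm (Fn_integrable t ξ) (by
    refine Summable.of_nonneg_of_le (fun n => integral_nonneg fun x => norm_nonneg _)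
      (fun n => ?_) ((hasSum_zeta_two.summable.mul_left
        (Real.exp (9 / 4 + ξ * (3 / 2)))).mul_right (√(Real.pi / 1)))
    rw [← gauss_int 1 t, ← integral_const_mul]
    exact integral_mono (Fn_integrable t ξ n).norm
      ((gauss_integrable one_pos t).const_mul _) (norm_Fn_le t ξ n))
  simpa only [Fn_integral] using h

lemma norm_term (t ξ : ℝ) (n : ℕ) :
    ‖term t ξ n‖ ≤ Real.exp (-Real.log n / 2 - (ξ - Real.log n) ^ 2 / 4) := by
  rw [term, norm_mul, norm_exp]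
  have h1 : (-(Real.log n : ℂ) / 2 + I * ((ξ - Real.log n : ℝ) : ℂ) * t -
      ((ξ - Real.log n : ℝ) : ℂ) ^ 2 / 4).re = -Real.log n / 2 - (ξ - Real.log n) ^ 2 / 4 := by
    rw [← ofReal_pow]
    simp only [sub_re, add_re, div_ofNat_re, neg_re, ofReal_re, mul_re, I_re, I_im, ofReal_im,
      mul_im]
    ring
  rw [h1]
  exact mul_le_of_le_one_left (Real.exp_pos _).le (norm_moebius_le n)

/-- the tail of the integrated Dirichlet series -/
lemma tail_le (ε : ℝ) (hε : 0 < ε) (hε' : ε ≤ 1) : ∃ T₀ : ℝ, ∀ T : ℝ, T₀ ≤ T → ∀ t ξ : ℝ,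
    ξ ≤ (1 - ε) * Real.log T → ∀ S : ℂ, HasSum (term t ξ) S →
      ‖S - Pn ⌊T ^ (1 - ε / 2)⌋₊ t ξ‖ ≤ 2 * T ^ (-3 / 4 : ℝ) := by
  refine ⟨Real.exp (96 / ε ^ 2), fun T hT t ξ hξ S hS => ?_⟩
  have hT0 : 0 < T := (Real.exp_pos _).trans_le hT
  have hL : 96 / ε ^ 2 ≤ Real.log T := by
    rw [Real.le_log_iff_exp_le hT0]; exact hT
  have hL0 : 0 < Real.log T := lt_of_lt_of_le (by positivity) hL
  set N := ⌊T ^ (1 - ε / 2)⌋₊ with hN
  have h1 : HasSum (fun n => if n ∈ Finset.Icc 1 N then term t ξ n else 0) (Pn N t ξ) := by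
    have : Pn N t ξ = ∑ n ∈ Finset.Icc 1 N, if n ∈ Finset.Icc 1 N then term t ξ n else 0 := by
      rw [Pn]
      exact Finset.sum_congr rfl fun n hn => by rw [if_pos hn]; rfl
    rw [this]
    exact hasSum_sum_of_ne_finset_zero fun n hn => if_neg hn
  have h2 := hS.sub h1
  have h3 : HasSum (fun n : ℕ => T ^ (-3 / 4 : ℝ) * (1 / (n : ℝ) ^ 2))
      (T ^ (-3 / 4 : ℝ) * (Real.pi ^ 2 / 6)) := hasSum_zeta_two.mul_left _
  have hp : 0 < T ^ (-3 / 4 : ℝ) := Real.rpow_pos_of_pos hT0 _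
  refine (h2.norm_le_of_bounded h3 fun n => ?_).trans ?_
  · split_ifs with hn
    · simp only [sub_self, norm_zero]; positivity
    rcases eq_or_ne n 0 with rfl | hn0
    · simp [term]
    rw [sub_zero]
    refine (norm_term t ξ n).trans ?_
    have hNn : N + 1 ≤ n := by
      rw [Finset.mem_Icc] at hn
      omega
    have hlt : T ^ (1 - ε / 2) < n :=
      (Nat.lt_floor_add_one _).trans_le (by exact_mod_cast hNn)
    have hlog : (1 - ε / 2) * Real.log T ≤ Real.log n := by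
      rw [← Real.log_rpow hT0]
      exact Real.log_le_log (Real.rpow_pos_of_pos hT0 _) hlt.le
    set l := Real.log n with hl
    set L := Real.log T with hLL
    have hl1 : L ≤ 2 * l := by nlinarith
    have hl0 : 0 < l := by linarith
    have hb : ε / 2 * l ≤ l - ξ := by
      have : (1 - ε) * L ≤ (1 - ε / 2) * l := by
        have h5 : (1 - ε) * L ≤ (1 - ε / 2) * ((1 - ε / 2) * L) := by nlinarith
        have h6 : (1 - ε / 2) * ((1 - ε / 2) * L) ≤ (1 - ε / 2) * l :=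
          mul_le_mul_of_nonneg_left hlog (by linarith)
        linarith
      linarith
    have hb2 : (ε / 2 * l) ^ 2 ≤ (ξ - l) ^ 2 := by
      rw [show (ξ - l) ^ 2 = (l - ξ) ^ 2 by ring]
      exact pow_le_pow_left₀ (by positivity) hb 2
    have hb3 : 48 ≤ ε ^ 2 * l := by
      rw [div_le_iff₀ (by positivity)] at hL
      nlinarith [sq_nonneg ε]
    rw [← exp_neg_two_log n hn0, Real.rpow_def_of_pos hT0, ← Real.exp_add, Real.exp_le_exp]
    nlinarith
  · have h4 : Real.pi ^ 2 / 6 ≤ 2 := by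
      have := Real.pi_lt_d2
      have := Real.pi_pos
      nlinarith
    nlinarith

lemma rectInt_congr {F G : ℂ → ℂ} {x₁ x₂ Y : ℝ} (hx : x₁ ≤ x₂) (hY : 0 ≤ Y)
    (h : ∀ x y : ℝ, x₁ ≤ x → x ≤ x₂ → |y| ≤ Y → F (x + y * I) = G (x + y * I)) :
    rectInt F x₁ x₂ Y = rectInt G x₁ x₂ Y := by
  unfold rectInt
  have e1 : ∫ x in x₁..x₂, F (x - Y * I) = ∫ x in x₁..x₂, G (x - Y * I) := by
    refine intervalIntegral.integral_congr fun x hx' => ?_
    rw [Set.uIcc_of_le hx] at hx'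
    have := h x (-Y) hx'.1 hx'.2 (by rw [abs_neg, abs_of_nonneg hY])
    rwa [show (x : ℂ) + ((-Y : ℝ) : ℂ) * I = x - Y * I by push_cast; ring] at this
  have e2 : ∫ x in x₁..x₂, F (x + Y * I) = ∫ x in x₁..x₂, G (x + Y * I) := by
    refine intervalIntegral.integral_congr fun x hx' => ?_
    rw [Set.uIcc_of_le hx] at hx'
    exact h x Y hx'.1 hx'.2 (by rw [abs_of_nonneg hY])
  have e3 : ∀ x : ℝ, x₁ ≤ x → x ≤ x₂ →
      ∫ y in (-Y)..Y, F (x + y * I) = ∫ y in (-Y)..Y, G (x + y * I) := by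
    intro x h1 h2
    refine intervalIntegral.integral_congr fun y hy => ?_
    rw [Set.uIcc_of_le (by linarith)] at hy
    exact h x y h1 h2 (abs_le.2 hy)
  rw [e1, e2, e3 x₂ hx le_rfl, e3 x₁ le_rfl hx]

lemma mem_disc {T x y : ℝ} (hT : 100 ≤ T) (hx : |x - 3 * T / 2| ≤ T / 10) (hy : |y| ≤ 3 / 2) :
    (x : ℂ) + y * I ∈ disc T := by
  rw [disc, Metric.mem_ball, dist_eq_norm]
  calc ‖(x : ℂ) + y * I - ((3 * T / 2 : ℝ) : ℂ)‖
      = ‖((x - 3 * T / 2 : ℝ) : ℂ) + y * I‖ := by congr 1; push_cast; ring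
    _ ≤ ‖((x - 3 * T / 2 : ℝ) : ℂ)‖ + ‖(y : ℂ) * I‖ := norm_add_le _ _
    _ = |x - 3 * T / 2| + |y| := by
        rw [norm_mul, norm_I, mul_one, norm_real, norm_real, Real.norm_eq_abs, Real.norm_eq_abs]
    _ < T / 8 := by linarith

end Pool.Agent.MP_ca0a54_nt.L0.Approx
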