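import Pool.Agent.MP_ca0a54_nt.L0.Cauchy
import Pool.Agent.MP_ca0a54_nt.L0.Lower
import Pool.Agent.MP_ca0a54_nt.L0.Residue
import Pool.Agent.MP_ca0a54_nt.L0.Approx

open Complex Filter Topology

namespace Pool.Agent.MP_ca0a54_nt.L0

namespace Core

/-- A coefficient. -/
noncomputable def cf (V : Finset ℝ) (h : ℂ → ℂ) (τ θ u : ℝ) : ℂ :=
  exp (-((u - τ : ℝ) : ℂ) ^ 2 + I * θ - h u) / (pd V u : ℂ)

lemma norm_exp_aux (x θ : ℝ) (z p : ℂ) :
    ‖exp (-(x : ℂ) ^ 2 + I * θ - z) / p‖ = Real.exp (-x ^ 2) * ‖exp (-z) / p‖ := by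
  rw [sub_eq_add_neg, exp_add, mul_div_assoc, norm_mul, norm_exp]
  congr 2
  simp [← ofReal_pow]

lemma norm_cf (V : Finset ℝ) (h : ℂ → ℂ) (τ θ u : ℝ) :
    ‖cf V h τ θ u‖ = Real.exp (-(u - τ) ^ 2) * ‖exp (-h u) / (pd V u : ℂ)‖ := norm_exp_aux _ _ _ _

lemma pd_ne (V : Finset ℝ) (u : ℝ) : pd V u ≠ 0 :=
  Finset.prod_ne_zero_iff.2 fun _ hu => sub_ne_zero.2 (Finset.mem_erase.1 hu).1.symm

lemma exp_lip {z w : ℂ} {M : ℝ} (hz : ‖z‖ ≤ M) (hw : ‖w‖ ≤ M) :
    ‖exp z - exp w‖ ≤ Real.exp M * ‖z - w‖ :=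
  (convex_closedBall (0 : ℂ) M).norm_image_sub_le_of_norm_deriv_le (𝕜 := ℂ) (f := exp)
    (fun _ _ => differentiableAt_exp) (fun x hx => by
      rw [Complex.deriv_exp]
      exact (norm_exp_le_exp_norm x).trans (Real.exp_le_exp.2 (by simpa using hx)))
    (by simpa using hw) (by simpa using hz)

lemma mem_disc {T x : ℝ} (hT : 0 < T) (hx : |x - 3 * T / 2| ≤ T / 9) : (x : ℂ) ∈ disc T := by
  rw [disc, Metric.mem_ball, dist_eq_norm, ← ofReal_sub, norm_real, Real.norm_eq_abs]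
  linarith

variable {C T δ : ℝ} {V : Finset ℝ} {h : ℂ → ℂ}

lemma mv1 (F : Fac C T δ V h) {p q : ℂ} (hp : p ∈ disc T) (hq : q ∈ disc T) :
    ‖h p - h q‖ ≤ C * Real.log T * ‖p - q‖ :=
  (convex_ball _ _).norm_image_sub_le_of_norm_deriv_le (𝕜 := ℂ)
    (fun _ hx => F.diff.differentiableAt (Metric.isOpen_ball.mem_nhds hx)) F.d1 hq hp

lemma mv2 (F : Fac C T δ V h) (h0 : 0 ≤ C * Real.log T / T) {p q t : ℂ} {R : ℝ} (hp : p ∈ disc T)
    (hq : q ∈ disc T) (ht : t ∈ disc T) (h1 : ‖p - t‖ ≤ R) (h2 : ‖q - t‖ ≤ R) :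
    ‖h p - h q - (p - q) * deriv h t‖ ≤ C * Real.log T / T * R * ‖p - q‖ := by
  have := ((convex_ball _ _).inter (convex_closedBall t R)).norm_image_sub_le_of_norm_hasDerivWithin_le
    (𝕜 := ℂ) (f := fun w => h w - w * deriv h t) (f' := fun w => deriv h w - deriv h t)
    (C := C * Real.log T / T * R) (fun x hx => by
      have := (F.diff.differentiableAt (Metric.isOpen_ball.mem_nhds hx.1)).hasDerivAt
      exact (this.sub (hasDerivAt_mul_const (deriv h t))).hasDerivWithinAt)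
    (fun x hx => (F.d2 x hx.1 t ht).trans (mul_le_mul_of_nonneg_left
      (by simpa [dist_eq_norm] using hx.2) h0))
    ⟨hq, by simpa [dist_eq_norm] using h2⟩ ⟨hp, by simpa [dist_eq_norm] using h1⟩
  exact le_trans (le_of_eq (by congr 1; ring)) this

lemma half (C r₀ a₀ δ₀ : ℝ) (hr₀ : 0 < r₀) (ha₀ : Real.pi ≤ a₀) (hδ₀ : a₀ < δ₀) (hδ : δ₀ ≤ 10)
    {η : ℝ} (hη : 0 < η) :
    ∃ T₀ : ℝ, ∀ T : ℝ, T₀ ≤ T → ∀ (V : Finset ℝ) (h : ℂ → ℂ) (x₁ x₂ t τ s : ℝ),
      Fac C T (δ₀ / Real.log T) V h → Sides T (a₀ / Real.log T) (r₀ / Real.log T) V x₁ x₂ →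
      |t - 3 * T / 2| ≤ T / 20 → (s = a₀ / Real.log T ∨ s = -(a₀ / Real.log T)) →
      |τ - t| ≤ 1 → |τ + s - t| ≤ 1 →
      ‖(∑ u' ∈ mid V x₁ x₂, (starRingEnd ℂ) (cf V h τ (-Real.log T / 2 * (u' + s)) u') *
          ∑ u ∈ mid V x₁ x₂, cf V h (τ + s) (-Real.log T / 2 * u) u / ((u - (u' + s) : ℝ) : ℂ)) +
        exp (-(s * deriv h t)) * ((∑ u ∈ mid V x₁ x₂, ‖cf V h τ 0 u‖ ^ 2 *
          (pd V u / pv V (u + s)) : ℝ) : ℂ)‖ ≤ η := by
  have hpi := Real.pi_gt_three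
  set r := min r₀ (min a₀ (δ₀ - a₀)) with hr
  have hr0 : 0 < r := lt_min hr₀ (lt_min (by linarith) (by linarith))
  obtain ⟨K₁, T₁, H₁⟩ := approx_pole C r hr0
  obtain ⟨T₂, H₂⟩ := lower_real C r hr0
  obtain ⟨K₂, hK₂, H₃⟩ := sum_gauss_le
  set B := Real.exp (10 * |C|) with hB
  set K := K₂ * (|K₁| + 20 * B ^ 2 * |C|) + 1 with hK
  have hK0 : 0 < K := by positivity
  obtain ⟨T₃, H₄⟩ := eventually_atTop.1 (((isLittleO_log_rpow_atTop
    (show (0 : ℝ) < 1 / 5 by norm_num)).bound (div_pos hη hK0)).and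
      ((Real.tendsto_log_atTop.eventually_ge_atTop 10).and (eventually_ge_atTop 90)))
  refine ⟨max (max T₁ T₂) T₃, fun T hT V h x₁ x₂ t τ s F S ht hs hτ hτs => ?_⟩
  obtain ⟨g1, g2, g3⟩ := H₄ T (le_of_max_le_right hT)
  set L := Real.log T with hL
  have L0 : 0 < L := by linarith
  have T0 : 0 < T := by linarith
  have hsa : |s| = a₀ / L := by
    rcases hs with rfl | rfl <;> simp [abs_of_pos (div_pos (show 0 < a₀ by linarith) L0)]
  have hs1 : |s| ≤ 1 := by rw [hsa, div_le_one L0]; linarith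
  have hsL : L * |s| ≤ 10 := by rw [hsa]; field_simp; linarith
  have hπ : Real.pi / L ≤ δ₀ / L := by gcongr; linarith
  have hrr : r / L ≤ r₀ / L := by gcongr; exact min_le_left _ _
  have S' : Sides T (a₀ / L) (r / L) V x₁ x₂ := ⟨S.l1, S.l2, S.r1, S.r2, fun u hu x hx =>
    ⟨hrr.trans (S.far u hu x hx).1, hrr.trans (S.far u hu x hx).2.1,
      hrr.trans (S.far u hu x hx).2.2⟩⟩
  have htd := mem_disc T0 (ht.trans (by linarith))
  have hC : 0 ≤ C := by
    have := (norm_nonneg _).trans (F.d1 _ htd)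
    exact nonneg_of_mul_nonneg_left this L0
  rw [abs_of_nonneg hC] at hB hK
  have hT1 : (1 : ℝ) ≤ T := by linarith
  set P := T ^ (2 / 5 : ℝ) with hP
  set Q := T ^ (1 / 5 : ℝ) with hQ
  have Q0 : 0 < Q := by positivity
  have P0 : 0 < P := by positivity
  have e1 : P * T ^ (-3 / 4 : ℝ) ≤ 1 / Q := by
    rw [hP, hQ, ← Real.rpow_add T0, one_div, ← Real.rpow_neg T0.le]
    exact Real.rpow_le_rpow_of_exponent_le hT1 (by norm_num)
  have e2 : P * P / T = 1 / Q := by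
    rw [div_eq_div_iff T0.ne' Q0.ne', hP, hQ, ← Real.rpow_add T0, ← Real.rpow_add T0]; norm_num
  rw [ofReal_sum, Finset.mul_sum, ← Finset.sum_add_distrib]
  refine (norm_sum_le_of_le _ (n := fun u => Real.exp (-(u - τ) ^ 2) * (1 + |u - τ|) *
    ((|K₁| + 20 * B ^ 2 * C) / Q)) fun u hu => ?_).trans ?_
  · obtain ⟨huV, hu1, hu2⟩ := Finset.mem_filter.1 hu
    have hs' := abs_le.1 hs1
    have b1 : |u - 3 * T / 2| ≤ T / 9 := abs_le.2 ⟨by linarith [S.l1], by linarith [S.r2]⟩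
    have b2 : |u + s - 3 * T / 2| ≤ T / 9 := abs_le.2 ⟨by linarith [S.l1], by linarith [S.r2]⟩
    have far : ∀ w ∈ V, r / L ≤ |u + s - w| := fun w hw => by
      by_cases e : u = w
      · rw [e, add_sub_cancel_left, hsa]; gcongr; exact (min_le_right _ _).trans (min_le_left _ _)
      · have a1 := F.sep u huV w hw e
        have a2 := abs_sub_abs_le_abs_sub (u - w) (-s)
        have a3 : r / L ≤ (δ₀ - a₀) / L := by
          gcongr; exact (min_le_right _ _).trans (min_le_right _ _)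
        rw [abs_neg, hsa, show u - w - -s = u + s - w by ring] at a2
        rw [sub_div] at a3
        linarith
    have side : ∀ x ∈ ({x₁, x₂} : Set ℝ), r / L ≤ |x - (u + s)| := fun x hx => by
      rcases hs with rfl | rfl
      · exact (S'.far u huV x hx).2.1
      · exact (S'.far u huV x hx).2.2
    have A := H₁ T (le_of_max_le_left (le_of_max_le_left hT)) _ _ V h x₁ x₂ (τ + s) (u + s) hπ F S'
      (by have := abs_sub_le (τ + s) t (3 * T / 2); linarith) (by linarith) (by linarith) far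
      (side _ (by simp)) (side _ (by simp))
    rw [← hL] at A
    have R1 := (H₂ T (le_of_max_le_right (le_of_max_le_left hT)) _ V h hπ F u b1).1 huV
    have R2 := (H₂ T (le_of_max_le_right (le_of_max_le_left hT)) _ V h hπ F (u + s) b2).2 far
    set e := cf V h τ (-L / 2 * (u + s)) u with he
    set G := ∑ w ∈ mid V x₁ x₂, cf V h (τ + s) (-L / 2 * w) w / ((w - (u + s) : ℝ) : ℂ) with hG
    set ρ : ℝ := pd V u / pv V (u + s) with hρ
    set E := exp (h u - h (u + s : ℝ)) with hE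
    set g := Real.exp (-(u - τ) ^ 2) with hg
    have g0 : 0 < g := Real.exp_pos _
    have g1' : g ≤ 1 := Real.exp_le_one_iff.2 (by nlinarith [sq_nonneg (u - τ)])
    have hpd : (pd V u : ℂ) ≠ 0 := by exact_mod_cast pd_ne V u
    have k1 : e * ρ * E = exp (-((u - τ : ℝ) : ℂ) ^ 2 + I * (-L / 2 * (u + s) : ℝ) -
        h (u + s : ℝ)) / (pv V (u + s) : ℂ) := by
      rw [he, cf, hρ, hE, ofReal_div, div_mul_div_cancel₀ hpd, div_mul_eq_mul_div, ← exp_add]
      congr 2; ring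
    have k2 : ‖G + e * ρ * E‖ ≤ |K₁| * T ^ (-3 / 4 : ℝ) := by
      refine le_trans (le_of_eq ?_) (A.trans (by gcongr; exact le_abs_self _))
      rw [k1, hG]
      congr 2
      · exact Finset.sum_congr rfl fun w _ => by rw [cf, div_div]; push_cast; ring_nf
      · push_cast; ring_nf
    have k3 : ‖e‖ ≤ g * P := by rw [he, norm_cf]; gcongr
    have ud := mem_disc T0 b1
    have vd := mem_disc T0 b2
    have n1 : ‖(u : ℂ) - (u + s : ℝ)‖ = |s| := by simp
    have k4 : ‖h u - h (u + s : ℝ)‖ ≤ 10 * C := by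
      have := mv1 F ud vd
      rw [n1] at this; nlinarith
    have k5 : ‖-(s * deriv h t)‖ ≤ 10 * C := by
      rw [norm_neg, norm_mul, norm_real, Real.norm_eq_abs]
      nlinarith [F.d1 _ htd, abs_nonneg s]
    have k6 : ‖exp (-(s * deriv h t)) - E‖ ≤ B * (20 * C * (1 + |u - τ|) / T) := by
      refine (exp_lip k5 k4).trans (mul_le_mul (le_of_eq hB.symm) ?_ (norm_nonneg _) (by positivity))
      have q1 := abs_sub_le u τ t
      have q2 := abs_sub_le (u + s) (τ + s) t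
      rw [add_sub_add_right_eq_sub] at q2
      have := mv2 F (by positivity) (R := 1 + |u - τ|) ud vd htd
        (by rw [← ofReal_sub, norm_real, Real.norm_eq_abs]; linarith)
        (by rw [← ofReal_sub, norm_real, Real.norm_eq_abs]; linarith)
      rw [n1] at this
      rw [norm_sub_rev]
      refine le_trans (le_of_eq (by congr 1; push_cast; ring)) (this.trans ?_)
      rw [show C * L / T * (1 + |u - τ|) * |s| = L * |s| * C * (1 + |u - τ|) / T by ring]
      gcongr; linarith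
    have k7 : ‖e * ρ‖ ≤ P * B := by
      have : e * ρ = e * ρ * E * exp (-(h u - h (u + s : ℝ))) := by
        rw [mul_assoc _ E, hE, ← exp_add]; simp
      rw [this, norm_mul, k1, norm_exp_aux]
      have q := (norm_exp_le_exp_norm (-(h u - h (u + s : ℝ)))).trans
        (Real.exp_le_exp.2 ((norm_neg _).trans_le k4))
      rw [← hB] at q
      exact mul_le_mul ((mul_le_mul g1' R2 (norm_nonneg _) zero_le_one).trans_eq (one_mul _)) q
        (norm_nonneg _) P0.le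
    have k8 : ((‖cf V h τ 0 u‖ ^ 2 * ρ : ℝ) : ℂ) = (starRingEnd ℂ) e * (e * ρ) := by
      rw [← mul_assoc, conj_mul', norm_cf, he, norm_cf]; push_cast; ring
    rw [k8, show (starRingEnd ℂ) e * G + exp (-(s * deriv h t)) * ((starRingEnd ℂ) e * (e * ρ)) =
      (starRingEnd ℂ) e * (G + e * ρ * E + e * ρ * (exp (-(s * deriv h t)) - E)) by ring,
      norm_mul, RCLike.norm_conj]
    have k9 := (norm_add_le _ _).trans (add_le_add k2 ((norm_mul_le _ _).trans
      (mul_le_mul k7 k6 (norm_nonneg _) (by positivity))))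
    refine (mul_le_mul k3 k9 (norm_nonneg _) (by positivity)).trans ?_
    have z0 := abs_nonneg (u - τ)
    calc g * P * (|K₁| * T ^ (-3 / 4 : ℝ) + P * B * (B * (20 * C * (1 + |u - τ|) / T)))
        = g * (|K₁| * (P * T ^ (-3 / 4 : ℝ)) + (1 + |u - τ|) * (20 * B ^ 2 * C) * (P * P / T)) := by
          ring
      _ ≤ g * ((1 + |u - τ|) * |K₁| * (1 / Q) + (1 + |u - τ|) * (20 * B ^ 2 * C) * (1 / Q)) := by
          rw [e2]; gcongr; nlinarith [abs_nonneg K₁]
      _ = _ := by ring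
  · rw [← Finset.sum_mul]
    have := H₃ (mid V x₁ x₂) (δ₀ / L) τ (div_pos (by linarith) L0) (by rw [div_le_one L0]; linarith)
      fun u hu u' hu' => F.sep u (Finset.mem_filter.1 hu).1 u' (Finset.mem_filter.1 hu').1
    refine (mul_le_mul_of_nonneg_right this (by positivity)).trans ?_
    rw [Real.norm_of_nonneg L0.le, Real.norm_of_nonneg Q0.le, div_mul_eq_mul_div,
      le_div_iff₀ hK0] at g1
    have q : K₂ / (δ₀ / L) ≤ K₂ * L := by
      rw [div_div_eq_mul_div]; exact div_le_self (by positivity) (by linarith)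
    rw [mul_div_assoc', div_le_iff₀ Q0]
    have := mul_le_mul_of_nonneg_right q (show 0 ≤ |K₁| + 20 * B ^ 2 * C by positivity)
    nlinarith

lemma integral_eq (V : Finset ℝ) (h : ℂ → ℂ) (x₁ x₂ t a A B : ℝ)
    (hne : ∀ u ∈ mid V x₁ x₂, ∀ u' ∈ mid V x₁ x₂, u - u' + a ≠ 0) :
    I * ∫ ξ in A..B, exp (I * ξ * a) * As V h x₁ x₂ t ξ *
        (starRingEnd ℂ) (As V h x₁ x₂ (t + a) ξ) =
      (∑ u ∈ mid V x₁ x₂, ∑ u' ∈ mid V x₁ x₂, cf V h t (B * u) u *
        (starRingEnd ℂ) (cf V h (t + a) (B * (u' - a)) u') / ((u - u' + a : ℝ) : ℂ)) -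
      ∑ u ∈ mid V x₁ x₂, ∑ u' ∈ mid V x₁ x₂, cf V h t (A * u) u *
        (starRingEnd ℂ) (cf V h (t + a) (A * (u' - a)) u') / ((u - u' + a : ℝ) : ℂ) := by
  have k0 : ∀ τ θ u : ℝ, cf V h τ θ u = cf V h τ 0 u * exp (I * θ) := fun τ θ u => by
    rw [cf, cf, div_mul_eq_mul_div, ← exp_add]; congr 2; push_cast; ring
  have k1 : ∀ ξ u u' : ℝ, cf V h t (ξ * u) u * (starRingEnd ℂ) (cf V h (t + a) (ξ * (u' - a)) u') =
      cf V h t 0 u * (starRingEnd ℂ) (cf V h (t + a) 0 u') *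
        exp (I * ((u - u' + a : ℝ) : ℂ) * ξ) := fun ξ u u' => by
    rw [k0 t, k0 (t + a), map_mul, ← exp_conj, mul_mul_mul_comm, ← exp_add]
    congr 2; simp; ring
  have k2 : ∀ ξ : ℝ, exp (I * ξ * a) * As V h x₁ x₂ t ξ *
      (starRingEnd ℂ) (As V h x₁ x₂ (t + a) ξ) = ∑ u ∈ mid V x₁ x₂, ∑ u' ∈ mid V x₁ x₂,
        cf V h t 0 u * (starRingEnd ℂ) (cf V h (t + a) 0 u') *
          exp (I * ((u - u' + a : ℝ) : ℂ) * ξ) := fun ξ => by
    have e : ∀ τ, As V h x₁ x₂ τ ξ = ∑ u ∈ mid V x₁ x₂, cf V h τ 0 u * exp (I * (ξ * u : ℝ)) :=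
      fun τ => Finset.sum_congr rfl fun u _ => by rw [← k0, cf]; push_cast; ring_nf
    rw [e, e, mul_assoc, map_sum, Finset.sum_mul_sum, Finset.mul_sum]
    refine Finset.sum_congr rfl fun u _ => ?_
    rw [Finset.mul_sum]
    refine Finset.sum_congr rfl fun u' _ => ?_
    rw [map_mul, ← exp_conj, mul_mul_mul_comm, mul_left_comm, ← exp_add, ← exp_add]
    congr 2; simp; ring
  simp only [k1, k2]
  rw [intervalIntegral.integral_finsetSum fun u _ => Continuous.intervalIntegrable (by fun_prop) _ _,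
    ← Finset.sum_sub_distrib, Finset.mul_sum]
  refine Finset.sum_congr rfl fun u hu => ?_
  rw [intervalIntegral.integral_finsetSum fun u _ => Continuous.intervalIntegrable (by fun_prop) _ _,
    ← Finset.sum_sub_distrib, Finset.mul_sum]
  refine Finset.sum_congr rfl fun u' hu' => ?_
  have hz : ((u - u' + a : ℝ) : ℂ) ≠ 0 := by exact_mod_cast hne u hu u' hu'
  rw [intervalIntegral.integral_const_mul, integral_exp_mul_complex (mul_ne_zero I_ne_zero hz)]
  field_simp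

lemma final {S S₀ z : ℂ} {X Y η : ℝ} (hX : 0 ≤ X) (hY : 0 ≤ Y) (h1 : ‖S‖ ^ 2 ≤ X * Y)
    (h2 : ‖S₀ - exp z * Y‖ ≤ η) (h3 : ‖(starRingEnd ℂ) S₀ - exp (-z) * X‖ ≤ η) :
    (exp (-I * z.im) * (S - S₀)).re ≤ η := by
  have n1 : ‖exp (-I * z.im)‖ = 1 := by simp [norm_exp]
  have n2 : ‖exp (I * z.im)‖ = 1 := by simp [norm_exp]
  set k := Real.exp z.re with hk
  have k0 : 0 < k := Real.exp_pos _
  have a1 : (exp (-I * z.im) * S).re ≤ ‖S‖ := (re_le_norm _).trans_eq (by rw [norm_mul, n1, one_mul])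
  have a2 : ‖S‖ ≤ (X / k + k * Y) / 2 := by
    refine abs_le_of_sq_le_sq' ?_ (by positivity) |>.2
    have : X * Y = X / k * (k * Y) := by field_simp
    nlinarith [sq_nonneg (X / k - k * Y)]
  have a3 : k * Y - (exp (-I * z.im) * S₀).re ≤ η := by
    have e : exp (-I * z.im) * (exp z * Y) = (k * Y : ℝ) := by
      rw [← mul_assoc, ← exp_add, hk]; push_cast; congr 2
      apply Complex.ext <;> simp
    have := (abs_re_le_norm (exp (-I * z.im) * (S₀ - exp z * Y))).trans_eq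
      (by rw [norm_mul, n1, one_mul])
    rw [mul_sub, e, sub_re, ofReal_re] at this
    linarith [(abs_le.1 this).1]
  have a4 : X / k - (exp (-I * z.im) * S₀).re ≤ η := by
    have e : exp (I * z.im) * (exp (-z) * X) = (X / k : ℝ) := by
      rw [← mul_assoc, ← exp_add, hk, div_eq_inv_mul, ← Real.exp_neg]; push_cast; congr 2
      apply Complex.ext <;> simp
    have := (abs_re_le_norm (exp (I * z.im) * ((starRingEnd ℂ) S₀ - exp (-z) * X))).trans_eq
      (by rw [norm_mul, n2, one_mul])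
    have e2 : (exp (I * z.im) * (starRingEnd ℂ) S₀).re = (exp (-I * z.im) * S₀).re := by
      rw [← conj_re, map_mul, ← exp_conj]; simp
    rw [mul_sub, e, sub_re, ofReal_re, e2] at this
    linarith [(abs_le.1 this).1]
  rw [mul_sub, sub_re]
  linarith

end Core

open L0.Core in
theorem core (C r₀ a₀ δ₀ : ℝ) (hr₀ : 0 < r₀) (ha₀ : Real.pi ≤ a₀) (hδ₀ : a₀ < δ₀) (hδ : δ₀ ≤ 10) :
    ∃ T₀ : ℝ, ∀ T : ℝ, T₀ ≤ T → ∀ (V : Finset ℝ) (h : ℂ → ℂ) (x₁ x₂ t Λ : ℝ),
      Fac C T (δ₀ / Real.log T) V h → Sides T (a₀ / Real.log T) (r₀ / Real.log T) V x₁ x₂ →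
      |t - 3 * T / 2| ≤ T / 20 →
      (exp (-I * ((a₀ / Real.log T * (deriv h t).im : ℝ) : ℂ)) * I *
        ∫ ξ in (-Real.log T / 2)..Λ, exp (I * ξ * (a₀ / Real.log T : ℝ)) * As V h x₁ x₂ t ξ *
          (starRingEnd ℂ) (As V h x₁ x₂ (t + a₀ / Real.log T) ξ)).re ≤ 1 := by
  obtain ⟨T₁, H⟩ := half C r₀ a₀ δ₀ hr₀ ha₀ hδ₀ hδ one_pos
  refine ⟨max T₁ (Real.exp 10), fun T hT V h x₁ x₂ t Λ F S ht => ?_⟩
  have hL : 10 ≤ Real.log T :=
    (Real.le_log_iff_exp_le ((Real.exp_pos 10).trans_le (le_of_max_le_right hT))).2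
      (le_of_max_le_right hT)
  have hpi := Real.pi_gt_three
  have H1 := H T (le_of_max_le_left hT) V h x₁ x₂ t
  set L := Real.log T
  set a := a₀ / L with ha
  have a0 : 0 < a := div_pos (by linarith) (by linarith)
  have a1 : |a| ≤ 1 := by rw [abs_of_pos a0, div_le_one (by linarith)]; linarith
  have sep : ∀ u ∈ V, ∀ u' ∈ V, u ≠ u' → a < |u - u'| := fun u hu u' hu' e =>
    lt_of_lt_of_le (div_lt_div_of_pos_right hδ₀ (by linarith)) (F.sep u hu u' hu' e)
  have hW : mid V x₁ x₂ ⊆ V := Finset.filter_subset _ _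
  rw [mul_assoc, integral_eq V h x₁ x₂ t a _ _ fun u hu u' hu' e => by
    by_cases g : u = u'
    · rw [g] at e; linarith
    · have := sep u (hW hu) u' (hW hu') g
      rw [show u - u' = -a by linarith, abs_neg, abs_of_pos a0] at this
      exact lt_irrefl _ this]
  have c1 := cauchy_ineq V a a0 sep _ hW (fun u => cf V h t (Λ * u) u)
    fun u => cf V h (t + a) (Λ * (u - a)) u
  have p1 := H1 (t + a) (-a) F S ht (Or.inr rfl) (by simpa using a1) (by simp)
  have p2 := H1 t a F S ht (Or.inl rfl) (by simp) (by simpa using a1)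
  have := final (z := a * deriv h t) (η := 1) (S₀ := ∑ u ∈ mid V x₁ x₂, ∑ u' ∈ mid V x₁ x₂,
      cf V h t (-L / 2 * u) u * (starRingEnd ℂ) (cf V h (t + a) (-L / 2 * (u' - a)) u') /
        ((u - u' + a : ℝ) : ℂ))
    (Finset.sum_nonneg fun u hu => mul_nonneg (sq_nonneg _) (div_nonneg_iff.2
      (mul_nonneg_iff.1 (cauchy_pos V a a0 sep u (hW hu)).1.le)))
    (Finset.sum_nonneg fun u hu => mul_nonneg (sq_nonneg _) (neg_nonneg.2 (div_nonpos_iff.2
      (mul_nonpos_iff.1 (cauchy_pos V a a0 sep u (hW hu)).2.le)))) c1 ?_ ?_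
  · simpa using this
  · refine le_trans (le_of_eq ?_) p1
    congr 1
    rw [Finset.sum_comm, sub_eq_add_neg, ← mul_neg, ← ofReal_neg, ← Finset.sum_neg_distrib]
    congr 1
    · refine Finset.sum_congr rfl fun u' _ => ?_
      rw [Finset.mul_sum]
      refine Finset.sum_congr rfl fun u _ => ?_
      rw [add_neg_cancel_right, ← sub_eq_add_neg, show u - (u' - a) = u - u' + a by ring]; ring
    · simp only [norm_cf, ← sub_eq_add_neg]; simp
  · refine le_trans (le_of_eq ?_) p2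
    rw [← norm_neg, neg_sub, sub_eq_neg_add]
    congr 2
    · rw [map_sum, ← Finset.sum_neg_distrib]
      refine Finset.sum_congr rfl fun u _ => ?_
      rw [map_sum, ← Finset.sum_neg_distrib, Finset.mul_sum]
      refine Finset.sum_congr rfl fun u' _ => ?_
      have k0 : ∀ τ θ θ' u : ℝ, cf V h τ (θ + θ') u = cf V h τ θ u * exp (I * θ') :=
        fun τ θ θ' u => by rw [cf, cf, div_mul_eq_mul_div, ← exp_add]; congr 2; push_cast; ring
      have k1 : (starRingEnd ℂ) (exp (I * (-L / 2 * a : ℝ))) * exp (I * (-L / 2 * a : ℝ)) = 1 := by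
        rw [← exp_conj, ← exp_add, map_mul, conj_I, conj_ofReal]; simp
      rw [mul_add, k0, show -L / 2 * u' = -L / 2 * (u' - a) + -L / 2 * a by ring, k0,
        show u' - (u + a) = -(u - u' + a) by ring, map_div₀, map_mul, map_mul, conj_conj,
        conj_ofReal, ofReal_neg, div_neg]
      linear_combination ((starRingEnd ℂ) (cf V h t (-L / 2 * u) u) *
        cf V h (t + a) (-L / 2 * (u' - a)) u' / ((u - u' + a : ℝ) : ℂ)) * k1
    · simp only [norm_cf]

end Pool.Agent.MP_ca0a54_nt.L0
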