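import Mathlib

/-!
Shared definitions for the proof that some gap between ordinates of zeta zeros in `[T, 2T]` is
smaller than `(1/2 + ε) 2π / log T`.
-/

open Complex

namespace Pool.Agent.MP_ca0a54_nt.L0

/-- `ζ(1/2 + i w)`. -/
noncomputable def zf (w : ℂ) : ℂ := riemannZeta (1 / 2 + I * w)

/-- `∏ (u - u')` over `u' ∈ V`, `u' ≠ u`. -/
noncomputable def pd (V : Finset ℝ) (u : ℝ) : ℝ := ∏ u' ∈ V.erase u, (u - u')

/-- `∏ (x - u)` over `u ∈ V`. -/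
noncomputable def pv (V : Finset ℝ) (x : ℝ) : ℝ := ∏ u ∈ V, (x - u)

/-- The disc of radius `T / 8` about `3 T / 2`. -/
def disc (T : ℝ) : Set ℂ := Metric.ball ((3 * T / 2 : ℝ) : ℂ) (T / 8)

/-- On `disc T`, `zf` is a polynomial with `δ`-separated real roots times `exp h`, and `h'` is of
size `log T` and almost constant. -/
structure Fac (C T δ : ℝ) (V : Finset ℝ) (h : ℂ → ℂ) : Prop where
  sep : ∀ u ∈ V, ∀ u' ∈ V, u ≠ u' → δ ≤ |u - u'|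
  diff : DifferentiableOn ℂ h (disc T)
  fac : ∀ w ∈ disc T, zf w = (∏ u ∈ V, (w - (u : ℂ))) * exp (h w)
  d1 : ∀ w ∈ disc T, ‖deriv h w‖ ≤ C * Real.log T
  d2 : ∀ w ∈ disc T, ∀ w' ∈ disc T, ‖deriv h w - deriv h w'‖ ≤ C * Real.log T / T * ‖w - w'‖

/-- Counterclockwise integral over the boundary of `[x₁, x₂] × [-Y, Y]`. -/
noncomputable def rectInt (F : ℂ → ℂ) (x₁ x₂ Y : ℝ) : ℂ :=
  (∫ x in x₁..x₂, F (x - Y * I)) - (∫ x in x₁..x₂, F (x + Y * I)) +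
    I * (∫ y in (-Y)..Y, F (x₂ + y * I)) - I * ∫ y in (-Y)..Y, F (x₁ + y * I)

/-- The Dirichlet polynomial `∑_{n ≤ N} μ(n) n^{-1/2} e^{i (ξ - log n) t - (ξ - log n)^2 / 4}`. -/
noncomputable def Pn (N : ℕ) (t ξ : ℝ) : ℂ :=
  ∑ n ∈ Finset.Icc 1 N, ((ArithmeticFunction.moebius n : ℤ) : ℂ) *
    exp (-(Real.log n : ℂ) / 2 + I * ((ξ - Real.log n : ℝ) : ℂ) * t -
      ((ξ - Real.log n : ℝ) : ℂ) ^ 2 / 4)

/-- The points of `V` in the open interval `(x₁, x₂)`. -/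
noncomputable def mid (V : Finset ℝ) (x₁ x₂ : ℝ) : Finset ℝ := V.filter fun u => x₁ < u ∧ u < x₂

/-- The residue sum of `exp (-(w - t)^2 + i ξ w) / zf w` over the roots in `(x₁, x₂)`. -/
noncomputable def As (V : Finset ℝ) (h : ℂ → ℂ) (x₁ x₂ t ξ : ℝ) : ℂ :=
  ∑ u ∈ mid V x₁ x₂, exp (-((u - t : ℝ) : ℂ) ^ 2 + I * ξ * u - h u) / (pd V u : ℂ)

/-- The vertical sides `x₁, x₂` of the rectangle lie at distance about `T / 10` from `3 T / 2`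
and at distance at least `r` from `V`, `V + a` and `V - a`. -/
structure Sides (T a r : ℝ) (V : Finset ℝ) (x₁ x₂ : ℝ) : Prop where
  l1 : 3 * T / 2 - T / 10 ≤ x₁
  l2 : x₁ ≤ 3 * T / 2 - T / 11
  r1 : 3 * T / 2 + T / 11 ≤ x₂
  r2 : x₂ ≤ 3 * T / 2 + T / 10
  far : ∀ u ∈ V, ∀ x ∈ ({x₁, x₂} : Set ℝ), r ≤ |x - u| ∧ r ≤ |x - (u + a)| ∧ r ≤ |x - (u - a)|

/-- `∑ μ(n)^2 / n · e^{-(ξ - log n)^2 / 2}`. -/
noncomputable def Qs (ξ : ℝ) : ℝ :=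
  ∑' n : ℕ, ((ArithmeticFunction.moebius n : ℤ) : ℝ) ^ 2 / n * Real.exp (-(ξ - Real.log n) ^ 2 / 2)

end Pool.Agent.MP_ca0a54_nt.L0
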