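import Pool.Agent.MP_ca0a54_nt.L0.Defs

open Filter Topology MeasureTheory Set ArithmeticFunction

namespace Pool.Agent.MP_ca0a54_nt.L0

namespace QLimit

/-- the Gaussian -/
noncomputable def g (x : ℝ) : ℝ := Real.exp (-x ^ 2 / 2)

/-- the summand without the Moebius factor -/
noncomputable def k (ξ : ℝ) (n : ℕ) : ℝ := 1 / (n : ℝ) * g (ξ - Real.log n)

lemma g_pos (x : ℝ) : 0 < g x := Real.exp_pos _

lemma k_nonneg (ξ : ℝ) (n : ℕ) : 0 ≤ k ξ n := mul_nonneg (by positivity) (g_pos _).le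

lemma g_le (x : ℝ) : g x * (1 + |x|) ≤ Real.exp 2 * Real.exp (-|x|) := by
  rw [← Real.exp_add]
  refine (mul_le_mul_of_nonneg_left (add_comm 1 |x| ▸ Real.add_one_le_exp |x|)
    (g_pos x).le).trans ?_
  rw [g, ← Real.exp_add, Real.exp_le_exp, ← sq_abs]
  nlinarith [sq_nonneg (|x| - 2)]

lemma term_le (ξ : ℝ) (n : ℕ) : k ξ n * (1 + |ξ - Real.log n|) ≤
    Real.exp 2 * min (1 / Real.exp ξ) (Real.exp ξ / n ^ 2) := by
  rcases n.eq_zero_or_pos with rfl | hn
  · simp only [k, Nat.cast_zero, div_zero, zero_mul]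
    positivity
  have hn' : (0 : ℝ) < n := by exact_mod_cast hn
  rw [k, mul_assoc]
  refine (mul_le_mul_of_nonneg_left (g_le _) (by positivity)).trans ?_
  rw [mul_left_comm]
  refine mul_le_mul_of_nonneg_left (le_min ?_ ?_) (by positivity)
  · refine (mul_le_mul_of_nonneg_left (Real.exp_le_exp.2 (neg_le_neg (le_abs_self _)))
      (by positivity)).trans (le_of_eq ?_)
    rw [neg_sub, Real.exp_sub, Real.exp_log hn']
    field_simp
  · refine (mul_le_mul_of_nonneg_left (Real.exp_le_exp.2 (neg_abs_le _))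
      (by positivity)).trans (le_of_eq ?_)
    rw [Real.exp_sub, Real.exp_log hn']
    field_simp

lemma k_le (ξ : ℝ) (n : ℕ) : k ξ n ≤ k ξ n * (1 + |ξ - Real.log n|) :=
  le_mul_of_one_le_right (k_nonneg _ _) (le_add_of_nonneg_right (abs_nonneg _))

lemma k_le' (ξ : ℝ) (n : ℕ) : k ξ n ≤ Real.exp ξ * (Real.exp 2 * (1 / n ^ 2)) :=
  ((k_le ξ n).trans (term_le ξ n)).trans
    ((mul_le_mul_of_nonneg_left (min_le_right _ _) (by positivity)).trans (le_of_eq (by ring)))

lemma sum_le (ξ : ℝ) (N : ℕ) :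
    ∑ n ∈ Finset.range N, k ξ n * (1 + |ξ - Real.log n|) ≤ 4 * Real.exp 2 := by
  have hy := Real.exp_pos ξ
  have key : ∀ N : ℕ, ∑ n ∈ Finset.range (N + 1), k ξ n * (1 + |ξ - Real.log n|) ≤
      4 * Real.exp 2 * (1 - Real.exp ξ / (Real.exp ξ + N)) := by
    intro N
    induction N with
    | zero => simp [k, hy.ne']
    | succ N ih =>
      rw [Finset.sum_range_succ]
      refine (add_le_add ih (term_le ξ (N + 1))).trans ?_
      generalize Real.exp ξ = y at hy
      have h1 : min (1 / y) (y / (N + 1 : ℕ) ^ 2) ≤ 4 * (y / (y + N) - y / (y + (N + 1 : ℕ))) := by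
        push_cast
        have hN : (0 : ℝ) ≤ N := by positivity
        rw [div_sub_div _ _ (by positivity) (by positivity), ← mul_div_assoc]
        rcases le_total y (N + 1) with h | h
        · refine (min_le_right _ _).trans ?_
          rw [div_le_div_iff₀ (by positivity) (by positivity)]
          have : (y + N) * (y + (N + 1)) ≤ 4 * (N + 1) ^ 2 := by nlinarith
          nlinarith
        · refine (min_le_left _ _).trans ?_
          rw [div_le_div_iff₀ (by positivity) (by positivity)]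
          nlinarith
      nlinarith [Real.exp_pos 2]
  refine le_trans (Finset.sum_le_sum_of_subset_of_nonneg (Finset.range_mono N.le_succ)
    fun n _ _ => (k_nonneg _ _).trans (k_le _ _)) ((key N).trans ?_)
  exact mul_le_of_le_one_right (by positivity) (sub_le_self _ (by positivity))

lemma summable' (ξ : ℝ) : Summable fun n => k ξ n * (1 + |ξ - Real.log n|) :=
  summable_of_sum_range_le (fun _ => (k_nonneg _ _).trans (k_le _ _)) (sum_le ξ)

lemma summable_k (ξ : ℝ) : Summable (k ξ) := (summable' ξ).of_nonneg_of_le (k_nonneg ξ) (k_le ξ)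

lemma tsum_k_le (ξ : ℝ) : |∑' n, k ξ n| ≤ 4 * Real.exp 2 := by
  rw [abs_of_nonneg (tsum_nonneg (k_nonneg ξ))]
  exact Real.tsum_le_of_sum_range_le (k_nonneg ξ) fun N =>
    (Finset.sum_le_sum fun n _ => k_le ξ n).trans (sum_le ξ N)

lemma g_int : Integrable g := by
  convert integrable_exp_neg_mul_sq (b := 1 / 2) (by norm_num) using 2 with x
  rw [g]; ring_nf

lemma g_lip (x y : ℝ) : |g x - g y| ≤ |x - y| := by
  have hd : ∀ x, HasDerivAt g (g x * -x) x := fun x => by
    refine (((hasDerivAt_pow 2 x).neg).div_const 2).exp.congr_deriv ?_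
    simp only [g, Pi.neg_apply]; ring
  have := convex_univ.norm_image_sub_le_of_norm_hasDerivWithin_le (C := 1)
    (fun x _ => (hd x).hasDerivWithinAt) (fun x _ => by
      rw [norm_mul, norm_neg, Real.norm_eq_abs, Real.norm_eq_abs, abs_of_pos (g_pos x), g,
        neg_div, Real.exp_neg, inv_mul_le_iff₀ (Real.exp_pos _), mul_one]
      nlinarith [Real.add_one_le_exp (x ^ 2 / 2), sq_nonneg (|x| - 1), sq_abs x])
    (mem_univ y) (mem_univ x)
  simpa using this

lemma g_le_one (x : ℝ) : g x ≤ 1 := Real.exp_le_one_iff.2 (by nlinarith [sq_nonneg x])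

/-- the primitive of the Gaussian -/
noncomputable def G (x : ℝ) : ℝ := ∫ t in Iic x, g t

lemma G_top : Tendsto G atTop (𝓝 (∫ t, g t)) :=
  (aecover_Iic tendsto_id).integral_tendsto_of_countably_generated g_int

lemma err_le (ξ : ℝ) (n : ℕ) :
    |k ξ (n + 1) - (G (ξ - Real.log (n + 1 : ℕ)) - G (ξ - Real.log (n + 1 + 1 : ℕ)))| ≤
      2 * (1 / (n + 1 : ℕ) ^ 2) := by
  have hn : (0 : ℝ) < (n + 1 : ℕ) := by positivity
  rw [G, G, intervalIntegral.integral_Iic_sub_Iic g_int.integrableOn g_int.integrableOn, k,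
    Nat.cast_succ (n + 1)]
  generalize ((n + 1 : ℕ) : ℝ) = x at hn
  set a := ξ - Real.log x
  set b := ξ - Real.log (x + 1)
  have h1 : a - b = Real.log ((x + 1) / x) := by
    rw [Real.log_div (by positivity) hn.ne']; ring
  have h2 : a - b ≤ 1 / x := by
    rw [h1]
    exact (Real.log_le_sub_one_of_pos (by positivity)).trans (le_of_eq (by field_simp; ring))
  have h3 : 1 / x - 1 / x ^ 2 ≤ a - b := by
    rw [h1]
    refine le_trans ?_ (Real.one_sub_inv_le_log_of_pos (by positivity))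
    rw [inv_div, one_sub_div (by positivity), div_sub_div _ _ hn.ne' (by positivity),
      div_le_div_iff₀ (by positivity) (by positivity)]
    nlinarith [pow_pos hn 2]
  have h4 : 0 ≤ a - b := h1 ▸ Real.log_nonneg ((one_le_div hn).2 (by linarith))
  have h5 : ‖∫ t in b..a, (g t - g a)‖ ≤ (a - b) * |a - b| :=
    intervalIntegral.norm_integral_le_of_norm_le_const fun t ht => by
      rw [uIoc_of_le (by linarith)] at ht
      exact (g_lip t a).trans (abs_le.2 ⟨by linarith [ht.1], by linarith [ht.2]⟩)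
  rw [intervalIntegral.integral_sub g_int.intervalIntegrable (by simp),
    intervalIntegral.integral_const, abs_of_nonneg h4, Real.norm_eq_abs, abs_le, smul_eq_mul] at h5
  have h6 : (a - b) * (a - b) ≤ 1 / x ^ 2 :=
    (mul_self_le_mul_self h4 h2).trans (le_of_eq (by field_simp))
  have h7 := g_pos a
  have h8 := g_le_one a
  have h9 : 0 < 1 / x ^ 2 := by positivity
  rw [abs_le]
  constructor <;> nlinarith

lemma sum_two : Summable fun n : ℕ => (1 : ℝ) / n ^ 2 := hasSum_zeta_two.summable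

lemma log_top : Tendsto (fun n : ℕ => Real.log (n + 1 : ℕ)) atTop atTop :=
  Real.tendsto_log_atTop.comp (tendsto_natCast_atTop_atTop.comp (tendsto_add_atTop_nat 1))

lemma k_top (n : ℕ) : Tendsto (k · n) atTop (𝓝 0) := by
  refine squeeze_zero (k_nonneg · n) (fun ξ => ((k_le ξ n).trans (term_le ξ n)).trans
    (mul_le_mul_of_nonneg_left (min_le_left _ _) (by positivity))) ?_
  simpa using (tendsto_inv_atTop_zero.comp Real.tendsto_exp_atTop).const_mul (Real.exp 2)

lemma Q1_top : Tendsto (fun ξ => ∑' n, k ξ n) atTop (𝓝 (∫ t, g t)) := by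
  have hs := ((summable_nat_add_iff 1).2 sum_two).mul_left 2
  have h1 := tendsto_tsum_of_dominated_convergence (𝓕 := atTop) hs
    (f := fun ξ n => k ξ (n + 1) -
      (G (ξ - Real.log (n + 1 : ℕ)) - G (ξ - Real.log (n + 1 + 1 : ℕ)))) (g := fun _ => 0)
    (fun n => by
      simpa [sub_eq_add_neg] using (k_top (n + 1)).sub ((G_top.comp (tendsto_atTop_add_const_right _
        (-Real.log (n + 1 : ℕ)) tendsto_id)).sub (G_top.comp (tendsto_atTop_add_const_right _
          (-Real.log (n + 1 + 1 : ℕ)) tendsto_id))))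
    (.of_forall err_le)
  have h2 := h1.add G_top
  rw [tsum_zero, zero_add] at h2
  refine h2.congr fun ξ => ?_
  have h3 := (summable_nat_add_iff 1).2 (summable_k ξ)
  have h4 : Summable fun n : ℕ =>
      G (ξ - Real.log (n + 1 : ℕ)) - G (ξ - Real.log (n + 1 + 1 : ℕ)) := by
    simpa using h3.sub (hs.of_norm_bounded (err_le ξ))
  have h5 : ∑' n : ℕ, (G (ξ - Real.log (n + 1 : ℕ)) - G (ξ - Real.log (n + 1 + 1 : ℕ))) = G ξ := by
    refine tendsto_nhds_unique h4.hasSum.tendsto_sum_nat ?_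
    simp only [Finset.sum_range_sub' fun n : ℕ => G (ξ - Real.log (n + 1 : ℕ))]
    simpa [G, sub_eq_add_neg] using (tendsto_integral_Iic_zero (f := g) (μ := volume)
      (tendsto_atBot_add_const_left _ ξ (tendsto_neg_atTop_atBot.comp log_top))).const_sub (G ξ)
  rw [h3.tsum_sub h4, h5, (summable_k ξ).tsum_eq_zero_add]
  simp [k]

lemma sum_mu {n : ℕ} (hn : 0 < n) :
    ∑' d : ℕ, ((moebius d : ℤ) : ℝ) * (if d ^ 2 ∣ n then 1 else 0) = ((moebius n : ℤ) : ℝ) ^ 2 := by
  obtain ⟨a, b, ha, hb, rfl, hs⟩ := Nat.sq_mul_squarefree_of_pos hn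
  have h1 : ∀ d, d ^ 2 ∣ b ^ 2 * a ↔ d ∣ b := fun d => by
    refine ⟨fun h => ?_, fun h => (pow_dvd_pow_of_dvd h 2).mul_right _⟩
    obtain ⟨d', b', hd, hb', hc⟩ := extract_gcd d b
    have h0 : gcd d b ≠ 0 := fun h => hb.ne' ((gcd_eq_zero_iff _ _).1 h).2
    generalize gcd d b = c at *
    subst hd hb'
    rw [mul_pow, mul_pow, mul_assoc, mul_dvd_mul_iff_left (pow_ne_zero _ h0)] at h
    have h2 := (Nat.Coprime.pow 2 2 (Nat.isUnit_iff.1 hc)).dvd_of_dvd_mul_left h
    rw [Nat.isUnit_iff.1 (hs d' (sq d' ▸ h2))]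
    simp
  simp only [h1]
  rw [tsum_eq_sum (s := b.divisors) fun d hd => by
    rw [if_neg fun h => hd (Nat.mem_divisors.2 ⟨h, hb.ne'⟩), mul_zero],
    Finset.sum_congr rfl fun d hd => by rw [if_pos (Nat.dvd_of_mem_divisors hd), mul_one]]
  have h2 := congrArg (fun f : ArithmeticFunction ℤ => f b) moebius_mul_coe_zeta
  simp only [coe_mul_zeta_apply, one_apply] at h2
  norm_cast
  rw [h2, moebius_sq]
  refine if_congr ⟨fun h => by simpa [h] using hs, fun h => ?_⟩ rfl rfl
  exact Nat.isUnit_iff.1 (h b (sq b ▸ dvd_mul_right _ _))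

lemma hasSum_sq (ξ : ℝ) (d : ℕ) : HasSum (fun n => (if d ^ 2 ∣ n then 1 else 0) * k ξ n)
    (1 / d ^ 2 * ∑' n, k (ξ - 2 * Real.log d) n) := by
  rcases d.eq_zero_or_pos with rfl | hd
  · convert hasSum_zero using 2 with n
    · by_cases h : n = 0 <;> simp [h, k]
    · simp
  rw [← (mul_right_injective₀ (pow_ne_zero 2 hd.ne')).hasSum_iff fun n hn =>
    by rw [if_neg fun ⟨c, h⟩ => hn ⟨c, h.symm⟩, zero_mul]]
  refine ((summable_k (ξ - 2 * Real.log d)).hasSum.mul_left (1 / d ^ 2 : ℝ)).congr_fun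
    fun n => ?_
  rcases n.eq_zero_or_pos with rfl | hn
  · simp [k]
  simp only [Function.comp, dvd_mul_right, if_true, one_mul, k, Nat.cast_mul, Nat.cast_pow]
  rw [Real.log_mul (by positivity) (by positivity), Real.log_pow, ← sub_sub]
  push_cast
  field_simp

lemma mu_le (d : ℕ) : |((moebius d : ℤ) : ℝ)| ≤ 1 := by exact_mod_cast abs_moebius_le_one

lemma Qs_eq' (ξ : ℝ) : Qs ξ = ∑' n, ((moebius n : ℤ) : ℝ) ^ 2 * k ξ n :=
  tsum_congr fun n => by simp only [k, g]; ring

lemma bound (ξ : ℝ) (d : ℕ) :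
    |(1 / d ^ 2 * ∑' n, k ξ n : ℝ)| ≤ 1 / d ^ 2 * (4 * Real.exp 2) := by
  rw [abs_mul, abs_of_nonneg (by positivity)]
  exact mul_le_mul_of_nonneg_left (tsum_k_le _) (by positivity)

lemma Qs_eq (ξ : ℝ) :
    Qs ξ = ∑' d : ℕ, ((moebius d : ℤ) : ℝ) * (1 / d ^ 2 * ∑' n, k (ξ - 2 * Real.log d) n) := by
  have h1 : Summable fun p : ℕ × ℕ => (if p.1 ^ 2 ∣ p.2 then 1 else 0) * k ξ p.2 := by
    refine (summable_prod_of_nonneg fun p => mul_nonneg (by positivity) (k_nonneg _ _)).2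
      ⟨fun d => (hasSum_sq ξ d).summable, ?_⟩
    simp only [(hasSum_sq ξ _).tsum_eq]
    exact (sum_two.mul_right _).of_norm_bounded fun d => bound _ d
  have h2 : Summable (Function.uncurry fun d n : ℕ =>
      ((moebius d : ℤ) : ℝ) * ((if d ^ 2 ∣ n then 1 else 0) * k ξ n)) :=
    h1.of_norm_bounded fun p => by
      have h : 0 ≤ (if p.1 ^ 2 ∣ p.2 then 1 else 0) * k ξ p.2 :=
        mul_nonneg (by positivity) (k_nonneg _ _)
      simp only [Function.uncurry, norm_mul (moebius p.1 : ℝ), Real.norm_eq_abs, abs_of_nonneg h]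
      exact mul_le_of_le_one_left h (mu_le _)
  simp only [← (hasSum_sq ξ _).tsum_eq, ← tsum_mul_left]
  rw [← h2.tsum_comm, Qs_eq']
  refine tsum_congr fun n => ?_
  rcases n.eq_zero_or_pos with rfl | hn
  · simp [k]
  simp only [← sum_mu hn, ← tsum_mul_right, mul_assoc]

lemma mu_pos : 0 < ∑' d : ℕ, ((moebius d : ℤ) : ℝ) * (1 / d ^ 2) := by
  have h1 : Summable fun d : ℕ => ((moebius d : ℤ) : ℝ) * (1 / d ^ 2) :=
    sum_two.of_norm_bounded fun d => by
      rw [norm_mul, Real.norm_eq_abs, Real.norm_eq_abs, abs_of_nonneg (a := 1 / _) (by positivity)]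
      exact mul_le_of_le_one_left (by positivity) (mu_le d)
  have h2 := (h1.add sum_two).le_tsum 1 fun d _ => by
    have : (0 : ℝ) ≤ 1 / d ^ 2 := by positivity
    nlinarith [(abs_le.1 (mu_le d)).1]
  rw [h1.tsum_add sum_two, hasSum_zeta_two.tsum_eq] at h2
  norm_num at h2 ⊢
  nlinarith [Real.pi_lt_d2, Real.pi_pos]

end QLimit

open QLimit in
theorem Qs_facts : ∃ q K : ℝ, 0 < q ∧ Tendsto Qs atTop (𝓝 q) ∧ Tendsto Qs atBot (𝓝 0) ∧
    Continuous Qs ∧ ∀ ξ : ℝ,
      Summable (fun n : ℕ => 1 / (n : ℝ) * Real.exp (-(ξ - Real.log n) ^ 2 / 2) *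
        (1 + |ξ - Real.log n|)) ∧
      ∑' n : ℕ, 1 / (n : ℝ) * Real.exp (-(ξ - Real.log n) ^ 2 / 2) * (1 + |ξ - Real.log n|) ≤ K := by
  have hb : ∀ (n : ℕ) (ξ : ℝ), ‖((moebius n : ℤ) : ℝ) ^ 2 * k ξ n / Real.exp ξ‖ ≤
      Real.exp 2 * (1 / n ^ 2) := fun n ξ => by
    rw [norm_div, norm_mul, Real.norm_of_nonneg (k_nonneg _ _), Real.norm_of_nonneg (sq_nonneg _),
      Real.norm_of_nonneg (Real.exp_pos _).le, div_le_iff₀' (Real.exp_pos _)]
    exact (mul_le_of_le_one_left (k_nonneg _ _) ((sq_le_one_iff_abs_le_one _).2 (mu_le n))).trans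
      (k_le' ξ n)
  have he : Qs = fun ξ => Real.exp ξ * ∑' n, ((moebius n : ℤ) : ℝ) ^ 2 * k ξ n / Real.exp ξ :=
    funext fun ξ => by rw [tsum_div_const, Qs_eq', mul_div_cancel₀ _ (Real.exp_pos _).ne']
  refine ⟨∑' d : ℕ, ((moebius d : ℤ) : ℝ) * (1 / d ^ 2 * ∫ t, g t), 4 * Real.exp 2, ?_, ?_, ?_, ?_,
    fun ξ => ⟨summable' ξ, Real.tsum_le_of_sum_range_le
      (fun _ => (k_nonneg _ _).trans (k_le _ _)) (sum_le ξ)⟩⟩
  · simp only [← mul_assoc, tsum_mul_right]
    exact mul_pos mu_pos (integral_exp_pos g_int)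
  · rw [funext Qs_eq]
    refine tendsto_tsum_of_dominated_convergence (sum_two.mul_right (4 * Real.exp 2))
      (fun d => ((Q1_top.comp (tendsto_atTop_add_const_right _ (-(2 * Real.log d))
        tendsto_id)).const_mul _).const_mul _) (.of_forall fun ξ d => ?_)
    rw [norm_mul]
    exact (mul_le_of_le_one_left (norm_nonneg _) (mu_le d)).trans (bound _ d)
  · rw [he]
    exact Real.tendsto_exp_atBot.zero_mul_isBoundedUnder_le (isBoundedUnder_of
      ⟨_, fun ξ => tsum_of_norm_bounded (sum_two.mul_left (Real.exp 2)).hasSum (hb · ξ)⟩)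
  · rw [he]
    refine Real.continuous_exp.mul (continuous_tsum (fun n => ?_) (sum_two.mul_left _) hb)
    unfold k g
    exact Continuous.div (by fun_prop) (by fun_prop) fun ξ => (Real.exp_pos _).ne'

end Pool.Agent.MP_ca0a54_nt.L0
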