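import Pool.Agent.MP_ca0a54_nt.L0.MeanC
import Pool.Agent.MP_ca0a54_nt.L0.QLimit

/-!
The mean value estimate.
-/

open Complex Filter Topology

namespace Pool.Agent.MP_ca0a54_nt.L0

theorem mean_value : ∃ q : ℝ, 0 < q ∧ ∀ ε₁ K η : ℝ, 0 < ε₁ → ε₁ ≤ 1 → 0 ≤ K → 0 < η →
    ∃ T₀ : ℝ, ∀ T : ℝ, T₀ ≤ T → ∀ (a Λ t₁ : ℝ) (z : ℂ), 0 < a → a ≤ 10 / Real.log T → 0 ≤ Λ →
      Λ ≤ (1 - ε₁) * Real.log T → ‖z‖ ≤ 1 → ∃ t ∈ Set.Icc t₁ (t₁ + T / 10),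
        (z * q * ∫ ξ in (0 : ℝ)..Λ, exp (I * ξ * a)).re - η * Real.log T ≤
          (z * ∫ ξ in (-Real.log T / 2)..Λ, exp (I * ξ * a) * Pn ⌊T ^ (1 - ε₁ / 2)⌋₊ t ξ *
              (starRingEnd ℂ) (Pn ⌊T ^ (1 - ε₁ / 2)⌋₊ (t + a) ξ)).re -
            K / Real.log T * ∫ ξ in (-Real.log T / 2)..Λ,
              ‖Pn ⌊T ^ (1 - ε₁ / 2)⌋₊ t ξ‖ * ‖Pn ⌊T ^ (1 - ε₁ / 2)⌋₊ (t + a) ξ‖ :=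
  MeanC.mean_value_of Qs_facts

end Pool.Agent.MP_ca0a54_nt.L0
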