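import Pool.Agent.MP_ca0a54_nt.L0.Core
import Pool.Agent.MP_ca0a54_nt.L0.Factor
import Pool.Agent.MP_ca0a54_nt.L0.Zeros
import Pool.Agent.MP_ca0a54_nt.L0.Mean

open Complex Filter Topology

namespace Pool.Agent.MP_ca0a54_nt.L0

namespace Final

theorem As_continuous (V : Finset ℝ) (h : ℂ → ℂ) (x₁ x₂ t : ℝ) :
    Continuous fun ξ : ℝ => As V h x₁ x₂ t ξ := by
  unfold As
  fun_prop

theorem Pn_cont (N : ℕ) (t : ℝ) : Continuous fun ξ : ℝ => Pn N t ξ := by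
  unfold Pn
  fun_prop

theorem int_exp (a Λ : ℝ) (ha : 0 < a) :
    ∫ ξ in (0 : ℝ)..Λ, exp (I * ξ * a) = (exp (I * Λ * a) - 1) / (I * a) := by
  have hc : I * (a : ℂ) ≠ 0 := mul_ne_zero I_ne_zero (by exact_mod_cast ha.ne')
  have := integral_exp_mul_complex (a := 0) (b := Λ) hc
  simp only [ofReal_zero, mul_zero, exp_zero] at this
  rw [← show I * a * Λ = I * Λ * a by ring, ← this]
  congr 1
  ext ξ
  congr 1
  ring

/-- The main term. -/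
theorem main_term (q a a₀ Λ : ℝ) (ha : 0 < a) (hΛ : Λ * a + a₀ / 2 = 3 * Real.pi / 2) :
    (I * exp (I * (a₀ / 2 : ℝ)) * q * ∫ ξ in (0 : ℝ)..Λ, exp (I * ξ * a)).re =
      q * (-Real.cos (a₀ / 2)) / a := by
  rw [int_exp a Λ ha]
  have ha' : (a : ℂ) ≠ 0 := by exact_mod_cast ha.ne'
  have h1 : exp (I * (a₀ / 2 : ℝ)) * exp (I * Λ * a) = exp ((3 * Real.pi / 2 : ℝ) * I) := by
    rw [← exp_add, ← hΛ]
    congr 1
    push_cast
    ring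
  have h2 : I * exp (I * (a₀ / 2 : ℝ)) * q * ((exp (I * Λ * a) - 1) / (I * a)) =
      ((q / a : ℝ) : ℂ) * (exp ((3 * Real.pi / 2 : ℝ) * I) - exp ((a₀ / 2 : ℝ) * I)) := by
    rw [← h1, mul_comm ((a₀ / 2 : ℝ) : ℂ) I]
    push_cast
    field_simp
  rw [h2, re_ofReal_mul, sub_re, exp_ofReal_mul_I_re, exp_ofReal_mul_I_re]
  have h3 : Real.cos (3 * Real.pi / 2) = 0 := by
    rw [show 3 * Real.pi / 2 = Real.pi / 2 + Real.pi by ring, Real.cos_add_pi, Real.cos_pi_div_two,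
      neg_zero]
  rw [h3]
  ring

theorem norm_prod_sub (A B P Q κ : ℂ) (E M : ℝ) (hκ : ‖κ‖ ≤ 1) (hA : ‖A - κ * P‖ ≤ E)
    (hB : ‖B - κ * Q‖ ≤ E) (hP : ‖P‖ ≤ M) (hQ : ‖Q‖ ≤ M) :
    ‖A * (starRingEnd ℂ) B - κ * (starRingEnd ℂ) κ * (P * (starRingEnd ℂ) Q)‖ ≤
      E * (E + 2 * M) := by
  have hE : 0 ≤ E := (norm_nonneg _).trans hA
  have hM : 0 ≤ M := (norm_nonneg _).trans hP
  have e : A * (starRingEnd ℂ) B - κ * (starRingEnd ℂ) κ * (P * (starRingEnd ℂ) Q) =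
      (A - κ * P) * (starRingEnd ℂ) (B - κ * Q) + (A - κ * P) * (starRingEnd ℂ) (κ * Q) +
        κ * P * (starRingEnd ℂ) (B - κ * Q) := by
    simp only [map_sub, map_mul]
    ring
  have hκP : ‖κ * P‖ ≤ M := by
    rw [norm_mul]
    nlinarith [norm_nonneg κ, norm_nonneg P]
  have hκQ : ‖κ * Q‖ ≤ M := by
    rw [norm_mul]
    nlinarith [norm_nonneg κ, norm_nonneg Q]
  rw [e]
  refine (norm_add₃_le).trans ?_
  rw [norm_mul, norm_mul, norm_mul (κ * P), RCLike.norm_conj, RCLike.norm_conj]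
  have h1 := mul_le_mul hA hB (norm_nonneg _) hE
  have h2 := mul_le_mul hA hκQ (norm_nonneg _) hE
  have h3 := mul_le_mul hκP hB (norm_nonneg _) hM
  nlinarith

theorem kappa_facts :
    ‖(Real.sqrt Real.pi : ℂ) / (2 * Real.pi * I)‖ ≤ 1 ∧
      (Real.sqrt Real.pi : ℂ) / (2 * Real.pi * I) *
        (starRingEnd ℂ) ((Real.sqrt Real.pi : ℂ) / (2 * Real.pi * I)) =
          ((1 / (4 * Real.pi) : ℝ) : ℂ) := by
  have hπ := Real.pi_pos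
  have hn : ‖(Real.sqrt Real.pi : ℂ) / (2 * Real.pi * I)‖ = Real.sqrt Real.pi / (2 * Real.pi) := by
    simp [abs_of_pos hπ, abs_of_nonneg (Real.sqrt_nonneg _)]
  have hs : Real.sqrt Real.pi ^ 2 = Real.pi := Real.sq_sqrt hπ.le
  constructor
  · rw [hn, div_le_one (by positivity)]
    have : Real.sqrt Real.pi ≤ Real.pi := by
      rw [Real.sqrt_le_left hπ.le]
      nlinarith [Real.pi_gt_three]
    linarith
  · rw [mul_conj, normSq_eq_norm_sq, hn, div_pow, hs]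
    congr 1
    field_simp
    ring

theorem ev_log_pow (K : ℝ) :
    ∀ᶠ T : ℝ in atTop, 3 / 2 * Real.log T * (K * T ^ (-3 / 4 : ℝ) *
      (K * T ^ (-3 / 4 : ℝ) + 2 * (2 * T ^ (1 / 2 : ℝ)))) ≤ 1 := by
  have h1 : Tendsto (fun T : ℝ => T ^ (-(3 / 4) : ℝ)) atTop (𝓝 0) :=
    tendsto_rpow_neg_atTop (by norm_num)
  have h2 : Tendsto (fun T : ℝ => Real.log T / T ^ (3 / 4 : ℝ)) atTop (𝓝 0) :=
    (isLittleO_log_rpow_atTop (by norm_num)).tendsto_div_nhds_zero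
  have h3 : Tendsto (fun T : ℝ => Real.log T / T ^ (1 / 4 : ℝ)) atTop (𝓝 0) :=
    (isLittleO_log_rpow_atTop (by norm_num)).tendsto_div_nhds_zero
  have h4 : Tendsto (fun T : ℝ => 3 / 2 * K * K * (Real.log T / T ^ (3 / 4 : ℝ)) *
      T ^ (-(3 / 4) : ℝ) + 6 * K * (Real.log T / T ^ (1 / 4 : ℝ))) atTop (𝓝 0) := by
    simpa using ((h2.const_mul (3 / 2 * K * K)).mul h1).add (h3.const_mul (6 * K))
  filter_upwards [h4.eventually (gt_mem_nhds zero_lt_one), eventually_gt_atTop 0] with T hT h0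
  have e1 : T ^ (-3 / 4 : ℝ) = (T ^ (3 / 4 : ℝ))⁻¹ := by
    rw [← Real.rpow_neg h0.le]
    norm_num
  have e2 : T ^ (-(3 / 4) : ℝ) = (T ^ (3 / 4 : ℝ))⁻¹ := Real.rpow_neg h0.le _
  have e3 : T ^ (3 / 4 : ℝ) = T ^ (1 / 2 : ℝ) * T ^ (1 / 4 : ℝ) := by
    rw [← Real.rpow_add h0]
    norm_num
  have p2 : 0 < T ^ (1 / 2 : ℝ) := by positivity
  have p4 : 0 < T ^ (1 / 4 : ℝ) := by positivity
  rw [e2, e3] at hT
  rw [e1, e3]
  refine le_of_eq_of_le ?_ hT.le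
  field_simp
  ring

/-- Replace the residue sums by the Dirichlet polynomials inside the integral. -/
theorem int_compare (A B P Q : ℝ → ℂ) (hA : Continuous A) (hB : Continuous B) (hP : Continuous P)
    (hQ : Continuous Q) (a x y E M : ℝ) (hxy : x ≤ y)
    (h1 : ∀ ξ ∈ Set.Icc x y, ‖A ξ - (Real.sqrt Real.pi : ℂ) / (2 * Real.pi * I) * P ξ‖ ≤ E)
    (h2 : ∀ ξ ∈ Set.Icc x y, ‖B ξ - (Real.sqrt Real.pi : ℂ) / (2 * Real.pi * I) * Q ξ‖ ≤ E)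
    (h3 : ∀ ξ, ‖P ξ‖ ≤ M) (h4 : ∀ ξ, ‖Q ξ‖ ≤ M) :
    ‖(∫ ξ in x..y, exp (I * ξ * a) * A ξ * (starRingEnd ℂ) (B ξ)) -
      ((1 / (4 * Real.pi) : ℝ) : ℂ) *
        ∫ ξ in x..y, exp (I * ξ * a) * P ξ * (starRingEnd ℂ) (Q ξ)‖ ≤
      (y - x) * (E * (E + 2 * M)) := by
  have c1 : Continuous fun ξ : ℝ => exp (I * ξ * a) * A ξ * (starRingEnd ℂ) (B ξ) := by
    fun_prop
  have c2 : Continuous fun ξ : ℝ => ((1 / (4 * Real.pi) : ℝ) : ℂ) *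
      (exp (I * ξ * a) * P ξ * (starRingEnd ℂ) (Q ξ)) := by
    fun_prop
  rw [← intervalIntegral.integral_const_mul,
    ← intervalIntegral.integral_sub (c1.intervalIntegrable _ _) (c2.intervalIntegrable _ _)]
  have := intervalIntegral.norm_integral_le_of_norm_le_const (a := x) (b := y)
    (C := E * (E + 2 * M))
    (f := fun ξ : ℝ => exp (I * ξ * a) * A ξ * (starRingEnd ℂ) (B ξ) -
      ((1 / (4 * Real.pi) : ℝ) : ℂ) * (exp (I * ξ * a) * P ξ * (starRingEnd ℂ) (Q ξ))) ?_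
  · rw [abs_of_nonneg (sub_nonneg.2 hxy)] at this
    linarith
  · intro ξ hξ
    rw [Set.uIoc_of_le hxy] at hξ
    have hξ' : ξ ∈ Set.Icc x y := Set.Ioc_subset_Icc_self hξ
    have key := norm_prod_sub (A ξ) (B ξ) (P ξ) (Q ξ) _ E M kappa_facts.1 (h1 ξ hξ') (h2 ξ hξ')
      (h3 ξ) (h4 ξ)
    rw [kappa_facts.2] at key
    have hn : ‖exp (I * ξ * a)‖ = 1 := by
      rw [show I * ξ * a = ((ξ * a : ℝ) : ℂ) * I by push_cast; ring, norm_exp_ofReal_mul_I]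
    have e : exp (I * ξ * a) * A ξ * (starRingEnd ℂ) (B ξ) -
        ((1 / (4 * Real.pi) : ℝ) : ℂ) * (exp (I * ξ * a) * P ξ * (starRingEnd ℂ) (Q ξ)) =
        exp (I * ξ * a) * (A ξ * (starRingEnd ℂ) (B ξ) -
          ((1 / (4 * Real.pi) : ℝ) : ℂ) * (P ξ * (starRingEnd ℂ) (Q ξ))) := by ring
    rw [e, norm_mul, hn, one_mul]
    exact key

theorem norm_int_le (P Q : ℝ → ℂ) (a x y : ℝ) (hxy : x ≤ y) :
    ‖∫ ξ in x..y, exp (I * ξ * a) * P ξ * (starRingEnd ℂ) (Q ξ)‖ ≤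
      ∫ ξ in x..y, ‖P ξ‖ * ‖Q ξ‖ := by
  refine (intervalIntegral.norm_integral_le_integral_norm hxy).trans (le_of_eq ?_)
  congr 1
  ext ξ
  have hn : ‖exp (I * ξ * a)‖ = 1 := by
    rw [show I * ξ * a = ((ξ * a : ℝ) : ℂ) * I by push_cast; ring, norm_exp_ofReal_mul_I]
  rw [norm_mul, norm_mul, hn, one_mul, RCLike.norm_conj]

theorem phase_close (x y : ℝ) : ‖exp (-I * (x : ℂ)) - exp (I * (y : ℂ))‖ ≤ |x + y| := by
  have e : exp (-I * (x : ℂ)) - exp (I * (y : ℂ)) =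
      exp (I * (y : ℂ)) * (exp (I * ((-(x + y) : ℝ) : ℂ)) - 1) := by
    rw [mul_sub, ← exp_add, mul_one]
    congr 2
    push_cast
    ring
  have hn : ‖exp (I * (y : ℂ))‖ = 1 := by rw [mul_comm, norm_exp_ofReal_mul_I]
  rw [e, norm_mul, hn, one_mul]
  refine (Real.norm_exp_I_mul_ofReal_sub_one_le).trans ?_
  rw [Real.norm_eq_abs, abs_neg]

end Final

open Final in
theorem small_gap (ε : ℝ) (hε : 0 < ε) (hε' : ε ≤ 1 / 2) : ∃ T₀ : ℝ, ∀ T : ℝ, T₀ ≤ T →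
    ∃ ρ ρ' : ℂ, riemannZeta ρ = 0 ∧ riemannZeta ρ' = 0 ∧ T ≤ ρ.im ∧ ρ.im ≤ ρ'.im ∧
      ρ'.im ≤ 2 * T ∧ (ρ ≠ ρ' ∨ deriv riemannZeta ρ = 0) ∧
      (∀ σ : ℂ, riemannZeta σ = 0 → ¬ (ρ.im < σ.im ∧ σ.im < ρ'.im)) ∧
      ρ'.im - ρ.im < (1 / 2 + ε) * (2 * Real.pi / Real.log T) := by
  have hπ := Real.pi_pos
  have hπ3 := Real.pi_gt_three
  have hπ4 := Real.pi_lt_four
  set a₀ : ℝ := Real.pi * (1 + ε) with ha₀
  set δ₀ : ℝ := Real.pi * (1 + 2 * ε) with hδ₀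
  set ε₁ : ℝ := 3 / 2 * (ε / (1 + ε)) with hε₁
  have ha₀π : Real.pi ≤ a₀ := by nlinarith
  have ha₀δ : a₀ < δ₀ := by nlinarith
  have hδ10 : δ₀ ≤ 10 := by nlinarith
  have hε₁0 : 0 < ε₁ := by positivity
  have hε₁1 : ε₁ ≤ 1 := by
    have : ε / (1 + ε) ≤ 1 / 2 := by
      rw [div_le_iff₀ (by positivity)]
      linarith
    linarith
  have hcos : 0 < -Real.cos (a₀ / 2) := by
    have := Real.cos_neg_of_pi_div_two_lt_of_lt (x := a₀ / 2) (by nlinarith) (by nlinarith)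
    linarith
  obtain ⟨C, T₁, -, hfac⟩ := exists_fac
  obtain ⟨r₀, T₂, hr₀, hsides⟩ := exists_sides
  obtain ⟨Kp, T₃, hphase⟩ := phase C
  obtain ⟨Kd, T₄, happ⟩ := approx_dirichlet C r₀ ε₁ hr₀ hε₁0 hε₁1
  obtain ⟨T₅, hcore⟩ := core C r₀ a₀ δ₀ hr₀ ha₀π ha₀δ hδ10
  obtain ⟨q, hq, hmean⟩ := mean_value
  set κ : ℝ := q * (-Real.cos (a₀ / 2)) / a₀ with hκ
  have hκ0 : 0 < κ := by positivity
  obtain ⟨T₆, hmv⟩ := hmean ε₁ (a₀ * |Kp|) (κ / 2) hε₁0 hε₁1 (by positivity) (by positivity)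
  have hev : ∀ᶠ T : ℝ in atTop, T₁ ≤ T ∧ T₂ ≤ T ∧ T₃ ≤ T ∧ T₄ ≤ T ∧ T₅ ≤ T ∧ T₆ ≤ T ∧ 100 ≤ T ∧
      10 ≤ Real.log T ∧ 80 / κ ≤ Real.log T ∧
      3 / 2 * Real.log T * (Kd * T ^ (-3 / 4 : ℝ) *
        (Kd * T ^ (-3 / 4 : ℝ) + 2 * (2 * T ^ (1 / 2 : ℝ)))) ≤ 1 := by
    filter_upwards [eventually_ge_atTop T₁, eventually_ge_atTop T₂, eventually_ge_atTop T₃,
      eventually_ge_atTop T₄, eventually_ge_atTop T₅, eventually_ge_atTop T₆,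
      eventually_ge_atTop 100, Real.tendsto_log_atTop.eventually_ge_atTop 10,
      Real.tendsto_log_atTop.eventually_ge_atTop (80 / κ), ev_log_pow Kd]
      with T a b c d e f g h i j using ⟨a, b, c, d, e, f, g, h, i, j⟩
  obtain ⟨T₀, hT₀⟩ := eventually_atTop.1 hev
  refine ⟨T₀, fun T hT => ?_⟩
  obtain ⟨h1, h2, h3, h4, h5, h6, h100, hL10, hLκ, hsmall⟩ := hT₀ T hT
  set L := Real.log T with hL
  have hL0 : 0 < L := by linarith
  have hT0 : 0 < T := by linarith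
  by_contra H
  have hδeq : (1 / 2 + ε) * (2 * Real.pi / L) = δ₀ / L := by
    rw [hδ₀]
    field_simp
  rw [hδeq] at H
  have hδpos : 0 < δ₀ / L := by positivity
  obtain ⟨U, hU1, hU2, hU3⟩ := zeros_of_no_pair T (δ₀ / L) hT0 hδpos H
  have hδ1 : 1 / L ≤ δ₀ / L := by gcongr; linarith
  have hδπ : Real.pi / L ≤ δ₀ / L := by gcongr; linarith
  obtain ⟨V, h, hF⟩ := hfac T h1 _ hδ1 U hU1 hU2 hU3
  set a : ℝ := a₀ / L with ha
  have ha0 : 0 < a := by positivity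
  have ha10 : a ≤ 10 / L := by
    rw [ha]
    gcongr
    linarith
  have ha1 : a ≤ 1 := ha10.trans (by rw [div_le_one hL0]; exact hL10)
  obtain ⟨x₁, x₂, hS⟩ := hsides T h2 _ a V hδ1 hF.sep
  set Λ : ℝ := (1 - ε₁) * L with hΛ
  have hΛ0 : 0 ≤ Λ := mul_nonneg (by linarith) hL0.le
  have hΛL : Λ ≤ L := by nlinarith
  have hΛa : Λ * a + a₀ / 2 = 3 * Real.pi / 2 := by
    rw [hΛ, ha, hε₁, ha₀]
    field_simp
    ring
  set z : ℂ := I * exp (I * (a₀ / 2 : ℝ)) with hz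
  have hz1 : ‖z‖ ≤ 1 := by
    rw [hz, norm_mul, norm_I, one_mul, mul_comm, norm_exp_ofReal_mul_I]
  obtain ⟨t, ht, hineq⟩ := hmv T h6 a Λ (3 * T / 2 - T / 20) z ha0 ha10 hΛ0 le_rfl hz1
  have ht' : |t - 3 * T / 2| ≤ T / 20 := abs_le.2 ⟨by linarith [ht.1], by linarith [ht.2]⟩
  have hmain := main_term q a a₀ Λ ha0 hΛa
  rw [← hz] at hmain
  have hmain' : q * (-Real.cos (a₀ / 2)) / a = κ * L := by
    rw [hκ, ha]
    field_simp
  rw [hmain, hmain'] at hineq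
  set N : ℕ := ⌊T ^ (1 - ε₁ / 2)⌋₊ with hN
  have hNle : 2 * Real.sqrt N ≤ 2 * T ^ (1 / 2 : ℝ) := by
    have : (N : ℝ) ≤ T := by
      refine (Nat.floor_le (by positivity)).trans ?_
      calc T ^ (1 - ε₁ / 2) ≤ T ^ (1 : ℝ) :=
            Real.rpow_le_rpow_of_exponent_le (by linarith) (by linarith)
        _ = T := Real.rpow_one T
    rw [← Real.sqrt_eq_rpow]
    gcongr
  have hxy : -L / 2 ≤ Λ := by linarith
  set JP : ℂ := ∫ ξ in (-L / 2)..Λ, exp (I * ξ * a) * Pn N t ξ * (starRingEnd ℂ) (Pn N (t + a) ξ)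
    with hJP
  set JA : ℂ := ∫ ξ in (-L / 2)..Λ, exp (I * ξ * a) * As V h x₁ x₂ t ξ *
    (starRingEnd ℂ) (As V h x₁ x₂ (t + a) ξ) with hJA
  set B : ℝ := ∫ ξ in (-L / 2)..Λ, ‖Pn N t ξ‖ * ‖Pn N (t + a) ξ‖ with hB
  have hJB : ‖JP‖ ≤ B := norm_int_le _ _ a _ _ hxy
  have hcmp : ‖JA - ((1 / (4 * Real.pi) : ℝ) : ℂ) * JP‖ ≤ 1 := by
    refine (int_compare _ _ _ _ (As_continuous V h x₁ x₂ t) (As_continuous V h x₁ x₂ (t + a))
      (Pn_cont N t) (Pn_cont N (t + a)) a _ _ (Kd * T ^ (-3 / 4 : ℝ)) (2 * T ^ (1 / 2 : ℝ)) hxy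
      (fun ξ hξ => happ T h4 _ a V h x₁ x₂ t ξ hδπ hF hS (by linarith) hξ.1 hξ.2)
      (fun ξ hξ => happ T h4 _ a V h x₁ x₂ (t + a) ξ hδπ hF hS ?_ hξ.1 hξ.2)
      (fun ξ => (Pn_norm_le N t ξ).trans hNle)
      (fun ξ => (Pn_norm_le N (t + a) ξ).trans hNle)).trans (le_trans ?_ hsmall)
    · rw [abs_le] at ht' ⊢
      constructor <;> linarith [ht'.1, ht'.2]
    · have hE : 0 ≤ Kd * T ^ (-3 / 4 : ℝ) :=
        (norm_nonneg _).trans (happ T h4 _ a V h x₁ x₂ t Λ hδπ hF hS (by linarith) hxy le_rfl)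
      gcongr
      linarith
  have hc := hcore T h5 V h x₁ x₂ t Λ hF hS ht'
  set e : ℂ := exp (-I * ((a * (deriv h t).im : ℝ) : ℂ)) with he
  have he1 : ‖e‖ = 1 := by
    rw [he, show -I * ((a * (deriv h t).im : ℝ) : ℂ) = ((-(a * (deriv h t).im) : ℝ) : ℂ) * I by
      push_cast; ring, norm_exp_ofReal_mul_I]
  have hez : ‖e * I - z‖ ≤ a₀ * |Kp| / L := by
    have hp := hphase T h3 _ V h hF t (ht'.trans (by linarith))
    have e1 : e * I - z = I * (e - exp (I * (a₀ / 2 : ℝ))) := by rw [hz]; ring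
    rw [e1, norm_mul, norm_I, one_mul, he]
    refine (phase_close _ _).trans ?_
    have e2 : a * (deriv h t).im + a₀ / 2 = a * ((deriv h t).im + L / 2) := by
      rw [ha]
      field_simp
    rw [e2, abs_mul, abs_of_pos ha0, ha, div_mul_eq_mul_div]
    have hp' : |(deriv h t).im + L / 2| ≤ |Kp| := hp.trans (le_abs_self _)
    have ha₀0 : 0 ≤ a₀ := by linarith
    exact div_le_div_of_nonneg_right (mul_le_mul_of_nonneg_left hp' ha₀0) hL0.le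
  have s1 : (z * JP).re - a₀ * |Kp| / L * B ≤ (e * I * JP).re := by
    have : (z * JP).re - (e * I * JP).re ≤ a₀ * |Kp| / L * B := by
      rw [← sub_re, ← sub_mul]
      refine (re_le_norm _).trans ?_
      rw [norm_mul, norm_sub_rev]
      exact mul_le_mul hez hJB (norm_nonneg _) (by positivity)
    linarith
  have s2 : 1 / (4 * Real.pi) * (e * I * JP).re - (e * I * JA).re ≤ 1 := by
    have : 1 / (4 * Real.pi) * (e * I * JP).re - (e * I * JA).re =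
        (e * I * (((1 / (4 * Real.pi) : ℝ) : ℂ) * JP - JA)).re := by
      rw [mul_sub, sub_re, mul_left_comm, re_ofReal_mul]
    rw [this]
    refine (re_le_norm _).trans ?_
    rw [norm_mul, norm_mul, he1, norm_I, one_mul, one_mul, norm_sub_rev]
    exact hcmp
  have s3 : κ / 2 * L ≤ (e * I * JP).re := by linarith
  have s4 : (e * I * JP).re ≤ 8 * Real.pi := by
    have : 1 / (4 * Real.pi) * (e * I * JP).re ≤ 2 := by linarith
    rw [one_div, inv_mul_le_iff₀ (by positivity)] at this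
    linarith
  have s5 : 80 ≤ κ * L := by
    rw [div_le_iff₀ hκ0] at hLκ
    linarith
  linarith

theorem small_gap_all (ε : ℝ) (hε : 0 < ε) : ∃ T₀ : ℝ, ∀ T : ℝ, T₀ ≤ T →
    ∃ ρ ρ' : ℂ, riemannZeta ρ = 0 ∧ riemannZeta ρ' = 0 ∧ T ≤ ρ.im ∧ ρ.im ≤ ρ'.im ∧
      ρ'.im ≤ 2 * T ∧ (ρ ≠ ρ' ∨ deriv riemannZeta ρ = 0) ∧
      (∀ σ : ℂ, riemannZeta σ = 0 → ¬ (ρ.im < σ.im ∧ σ.im < ρ'.im)) ∧
      ρ'.im - ρ.im < (1 / 2 + ε) * (2 * Real.pi / Real.log T) := by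
  obtain ⟨T₀, h⟩ := small_gap (min ε (1 / 2)) (lt_min hε (by norm_num)) (min_le_right _ _)
  refine ⟨max T₀ 1, fun T hT => ?_⟩
  obtain ⟨ρ, ρ', a, b, c, d, e, f, g, k⟩ := h T ((le_max_left _ _).trans hT)
  refine ⟨ρ, ρ', a, b, c, d, e, f, g, k.trans_le ?_⟩
  have : 0 ≤ Real.log T := Real.log_nonneg ((le_max_right _ _).trans hT)
  have := Real.pi_pos
  have := min_le_left ε (1 / 2)
  gcongr

end Pool.Agent.MP_ca0a54_nt.L0
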