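import Pool.Agent.MP_ca0a54_nt.L0.MeanA

/-!
The mean value over `t` of `Pn N t ξ * conj (Pn N (t + a) ξ)` for a fixed `ξ`.
-/

open Complex Filter Topology

namespace Pool.Agent.MP_ca0a54_nt.L0

namespace MeanB

open MeanA

/-- The coefficient of `n ^ (-i t)` in `Pn N (t + s) ξ`, up to the factor `exp (i ξ t)`. -/
noncomputable def cf (ξ s : ℝ) (n : ℕ) : ℂ :=
  ((ArithmeticFunction.moebius n : ℤ) : ℂ) *
    exp (-(Real.log n : ℂ) / 2 + I * ((ξ - Real.log n : ℝ) : ℂ) * s -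
      ((ξ - Real.log n : ℝ) : ℂ) ^ 2 / 4)

/-- The terms of `Qs`. -/
noncomputable def wt (ξ : ℝ) (n : ℕ) : ℝ :=
  ((ArithmeticFunction.moebius n : ℤ) : ℝ) ^ 2 / n * Real.exp (-(ξ - Real.log n) ^ 2 / 2)

/-- The majorant of the terms of `Qs`. -/
noncomputable def gt (ξ : ℝ) (n : ℕ) : ℝ :=
  1 / (n : ℝ) * Real.exp (-(ξ - Real.log n) ^ 2 / 2) * (1 + |ξ - Real.log n|)

lemma Pn_eq (N : ℕ) (t s ξ : ℝ) :
    Pn N (t + s) ξ = exp (I * ξ * t) *
      ∑ n ∈ Finset.Icc 1 N, cf ξ s n * exp (-I * (Real.log n : ℂ) * t) := by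
  unfold Pn cf
  rw [Finset.mul_sum]
  refine Finset.sum_congr rfl fun n _ => ?_
  rw [mul_assoc _ (exp _) (exp _), ← exp_add, mul_left_comm (exp _), ← exp_add]
  congr 2
  push_cast
  ring

lemma cf_mul_conj (ξ s s' : ℝ) (n : ℕ) (hn : 1 ≤ n) :
    cf ξ s n * (starRingEnd ℂ) (cf ξ s' n) =
      (wt ξ n : ℂ) * exp (I * (((ξ - Real.log n) * (s - s') : ℝ) : ℂ)) := by
  have hn0 : (0 : ℝ) < n := by exact_mod_cast hn
  unfold cf wt
  rw [map_mul, ← exp_conj, map_intCast]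
  have e1 : (starRingEnd ℂ) (-(Real.log n : ℂ) / 2 + I * ((ξ - Real.log n : ℝ) : ℂ) * s' -
      ((ξ - Real.log n : ℝ) : ℂ) ^ 2 / 4) = -(Real.log n : ℂ) / 2 -
        I * ((ξ - Real.log n : ℝ) : ℂ) * s' - ((ξ - Real.log n : ℝ) : ℂ) ^ 2 / 4 := by
    simp only [map_sub, map_add, map_div₀, map_neg, map_mul, map_pow, conj_ofReal, conj_I,
      map_ofNat]
    ring
  rw [e1, mul_mul_mul_comm, ← exp_add]
  have e2 : ((((ArithmeticFunction.moebius n : ℤ) : ℝ) ^ 2 / n *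
      Real.exp (-(ξ - Real.log n) ^ 2 / 2) : ℝ) : ℂ) =
      ((ArithmeticFunction.moebius n : ℤ) : ℂ) * ((ArithmeticFunction.moebius n : ℤ) : ℂ) *
        exp (((-Real.log n + -(ξ - Real.log n) ^ 2 / 2 : ℝ) : ℂ)) := by
    rw [← ofReal_exp, Real.exp_add, Real.exp_neg, Real.exp_log hn0]
    push_cast
    ring
  rw [e2, mul_assoc _ (exp _) (exp _), ← exp_add]
  congr 2
  push_cast
  ring

lemma mean_prod : ∃ K : ℝ, 0 < K ∧ ∀ (N : ℕ) (ξ s s' t₁ t₂ : ℝ),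
    ‖(∫ t in t₁..t₂, Pn N (t + s) ξ * (starRingEnd ℂ) (Pn N (t + s') ξ)) -
      ((t₂ - t₁ : ℝ) : ℂ) * ∑ n ∈ Finset.Icc 1 N,
        (wt ξ n : ℂ) * exp (I * (((ξ - Real.log n) * (s - s') : ℝ) : ℂ))‖ ≤
      K * N * (1 + Real.log N) := by
  obtain ⟨K, hK, H⟩ := off_diag
  refine ⟨K, hK, fun N ξ s s' t₁ t₂ => ?_⟩
  have h := H N (cf ξ s) (cf ξ s') t₁ t₂
    (fun n hn => norm_term_le n (Finset.mem_Icc.1 hn).1 _ _)
    (fun n hn => norm_term_le n (Finset.mem_Icc.1 hn).1 _ _)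
  rw [Finset.sum_congr rfl fun n hn => cf_mul_conj ξ s s' n (Finset.mem_Icc.1 hn).1] at h
  have e : ∀ t : ℝ, Pn N (t + s) ξ * (starRingEnd ℂ) (Pn N (t + s') ξ) =
      (∑ m ∈ Finset.Icc 1 N, cf ξ s m * exp (-I * (Real.log m : ℂ) * t)) *
        (starRingEnd ℂ) (∑ n ∈ Finset.Icc 1 N, cf ξ s' n * exp (-I * (Real.log n : ℂ) * t)) := by
    intro t
    rw [Pn_eq, Pn_eq, map_mul, mul_mul_mul_comm, ← exp_conj, ← exp_add]
    have : I * (ξ : ℂ) * t + (starRingEnd ℂ) (I * (ξ : ℂ) * t) = 0 := by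
      simp only [map_mul, conj_I, conj_ofReal]
      ring
    rw [this, exp_zero, one_mul]
  simp_rw [e]
  exact h

lemma wt_nonneg (ξ : ℝ) (n : ℕ) : 0 ≤ wt ξ n := by
  unfold wt
  positivity

lemma gt_nonneg (ξ : ℝ) (n : ℕ) : 0 ≤ gt ξ n := by
  unfold gt
  positivity

lemma wt_mul_le (ξ : ℝ) (n : ℕ) : wt ξ n * (1 + |ξ - Real.log n|) ≤ gt ξ n := by
  unfold wt gt
  have h : ((ArithmeticFunction.moebius n : ℤ) : ℝ) ^ 2 ≤ 1 := by
    have h1 : |((ArithmeticFunction.moebius n : ℤ) : ℝ)| ≤ 1 := by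
      exact_mod_cast ArithmeticFunction.abs_moebius_le_one (n := n)
    rw [← sq_abs]
    nlinarith [abs_nonneg ((ArithmeticFunction.moebius n : ℤ) : ℝ)]
  gcongr

lemma wt_le (ξ : ℝ) (n : ℕ) : wt ξ n ≤ gt ξ n := by
  have h := wt_mul_le ξ n
  have h0 := wt_nonneg ξ n
  nlinarith [abs_nonneg (ξ - Real.log n)]

lemma Qs_eq (ξ : ℝ) : Qs ξ = ∑' n, wt ξ n := rfl

section
variable {K ξ : ℝ} (hs : Summable (gt ξ)) (hK : ∑' n, gt ξ n ≤ K)
include hs hK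

omit hK in
lemma summable_wt : Summable (wt ξ) :=
  Summable.of_nonneg_of_le (wt_nonneg ξ) (wt_le ξ) hs

lemma sum_gt_le (S : Finset ℕ) : ∑ n ∈ S, gt ξ n ≤ K :=
  (hs.sum_le_tsum S fun n _ => gt_nonneg ξ n).trans hK

lemma norm_Qs_le : |Qs ξ| ≤ K := by
  rw [Qs_eq, abs_of_nonneg (tsum_nonneg (wt_nonneg ξ))]
  exact ((summable_wt hs).tsum_le_tsum (wt_le ξ) hs).trans hK

lemma diag_norm_le (S : Finset ℕ) (s : ℝ) :
    ‖∑ n ∈ S, (wt ξ n : ℂ) * exp (I * (((ξ - Real.log n) * s : ℝ) : ℂ))‖ ≤ K := by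
  refine (norm_sum_le _ _).trans (le_trans (Finset.sum_le_sum fun n _ => ?_) (sum_gt_le hs hK S))
  rw [norm_mul, norm_exp_I_mul_ofReal, mul_one, norm_real, Real.norm_of_nonneg (wt_nonneg ξ n)]
  exact wt_le ξ n

lemma diag_sub_le (S : Finset ℕ) (s : ℝ) :
    ‖∑ n ∈ S, (wt ξ n : ℂ) * exp (I * (((ξ - Real.log n) * s : ℝ) : ℂ)) -
      ((∑ n ∈ S, wt ξ n : ℝ) : ℂ)‖ ≤ |s| * K := by
  rw [ofReal_sum, ← Finset.sum_sub_distrib]
  refine (norm_sum_le _ _).trans ?_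
  have : ∀ n ∈ S, ‖(wt ξ n : ℂ) * exp (I * (((ξ - Real.log n) * s : ℝ) : ℂ)) - (wt ξ n : ℂ)‖ ≤
      |s| * gt ξ n := by
    intro n _
    rw [← mul_sub_one, norm_mul, norm_real, Real.norm_of_nonneg (wt_nonneg ξ n)]
    have h1 := Real.norm_exp_I_mul_ofReal_sub_one_le (x := (ξ - Real.log n) * s)
    rw [Real.norm_eq_abs, abs_mul] at h1
    have h2 := wt_mul_le ξ n
    have h3 := wt_nonneg ξ n
    calc _ ≤ wt ξ n * (|ξ - Real.log n| * |s|) := by gcongr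
      _ ≤ |s| * (wt ξ n * (1 + |ξ - Real.log n|)) := by
        nlinarith [abs_nonneg s, mul_nonneg h3 (abs_nonneg s)]
      _ ≤ _ := by gcongr
  refine (Finset.sum_le_sum this).trans ?_
  rw [← Finset.mul_sum]
  have := sum_gt_le hs hK S
  gcongr

lemma tail_le (N : ℕ) (ρ : ℝ) (hρ : 0 ≤ ρ) (hN : ∀ n : ℕ, N < n → ρ ≤ Real.log n - ξ) :
    |∑ n ∈ Finset.Icc 1 N, wt ξ n - Qs ξ| ≤ K / (1 + ρ) := by
  have hw := summable_wt hs
  have h := hw.sum_add_tsum_compl (s := Finset.Icc 1 N)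
  rw [Qs_eq, ← h, sub_add_cancel_left, abs_neg,
    abs_of_nonneg (tsum_nonneg fun n => wt_nonneg ξ _)]
  have h1 : 0 < 1 + ρ := by linarith
  have hs' : Summable fun n => gt ξ n / (1 + ρ) := hs.div_const _
  calc ∑' n : ↑((Finset.Icc 1 N : Set ℕ)ᶜ), wt ξ n
      ≤ ∑' n : ↑((Finset.Icc 1 N : Set ℕ)ᶜ), gt ξ n / (1 + ρ) := by
        refine Summable.tsum_le_tsum (fun n => ?_) (hw.subtype _) (hs'.subtype _)
        obtain ⟨n, hn⟩ := n
        simp only [Finset.coe_Icc, Set.mem_compl_iff, Set.mem_Icc, not_and, not_le] at hn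
        rcases Nat.eq_zero_or_pos n with rfl | hpos
        · simp [wt, gt]
        · rw [le_div_iff₀ h1]
          refine le_trans ?_ (wt_mul_le ξ n)
          have h2 := hN n (hn hpos)
          have h3 : ρ ≤ |ξ - Real.log n| := by
            rw [abs_sub_comm]; exact h2.trans (le_abs_self _)
          have h4 := wt_nonneg ξ n
          gcongr
    _ ≤ ∑' n, gt ξ n / (1 + ρ) :=
        Summable.tsum_subtype_le (fun n => gt ξ n / (1 + ρ)) _
          (fun n => div_nonneg (gt_nonneg ξ n) h1.le) hs'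
    _ = (∑' n, gt ξ n) / (1 + ρ) := tsum_div_const
    _ ≤ _ := by gcongr

end

lemma Pn_cont_t (N : ℕ) (s ξ : ℝ) : Continuous fun t : ℝ => Pn N (t + s) ξ :=
  (Pn_continuous N).comp (f := fun t : ℝ => (t + s, ξ)) (by fun_prop)

/-- The lower bound for the mean over `t` at a fixed `ξ`. -/
lemma per_xi : ∃ K₀ : ℝ, 0 < K₀ ∧ ∀ (K ξ : ℝ), Summable (gt ξ) → ∑' n, gt ξ n ≤ K →
    ∀ (N : ℕ) (ρ a κ t₁ Δ : ℝ) (z : ℂ), 0 ≤ ρ → (∀ n : ℕ, N < n → ρ ≤ Real.log n - ξ) →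
      0 ≤ κ → 0 ≤ Δ → ‖z‖ ≤ 1 →
      Δ * (z * (exp (I * ξ * a) * (Qs ξ : ℂ))).re -
          (Δ * (|a| * K + K / (1 + ρ) + κ * K) + K₀ * N * (1 + Real.log N) * (1 + κ)) ≤
        ∫ t in t₁..t₁ + Δ,
          ((z * (exp (I * ξ * a) * Pn N t ξ * (starRingEnd ℂ) (Pn N (t + a) ξ))).re -
            κ * (‖Pn N t ξ‖ * ‖Pn N (t + a) ξ‖)) := by
  obtain ⟨K₀, hK₀, H⟩ := mean_prod
  refine ⟨K₀, hK₀, fun K ξ hs hK N ρ a κ t₁ Δ z hρ hN hκ hΔ hz => ?_⟩
  set O := K₀ * N * (1 + Real.log N) with hO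
  have c0 : Continuous fun t : ℝ => Pn N t ξ := by simpa using Pn_cont_t N 0 ξ
  have ca : Continuous fun t : ℝ => Pn N (t + a) ξ := Pn_cont_t N a ξ
  have hle : t₁ ≤ t₁ + Δ := by linarith
  -- mean squares
  have sq : ∀ s : ℝ, ∫ t in t₁..t₁ + Δ, ‖Pn N (t + s) ξ‖ ^ 2 ≤ Δ * K + O := by
    intro s
    have h := H N ξ s s t₁ (t₁ + Δ)
    have e : ∀ t : ℝ, Pn N (t + s) ξ * (starRingEnd ℂ) (Pn N (t + s) ξ) =
        ((‖Pn N (t + s) ξ‖ ^ 2 : ℝ) : ℂ) := by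
      intro t
      rw [mul_conj']
      push_cast
      rfl
    simp_rw [e] at h
    rw [intervalIntegral.integral_ofReal, add_sub_cancel_left] at h
    have h2 := diag_norm_le hs hK (Finset.Icc 1 N) (s - s)
    have h3 := norm_le_norm_add_norm_sub' ((∫ t in t₁..t₁ + Δ, ‖Pn N (t + s) ξ‖ ^ 2 : ℝ) : ℂ)
      ((Δ : ℂ) * ∑ n ∈ Finset.Icc 1 N,
        (wt ξ n : ℂ) * exp (I * (((ξ - Real.log n) * (s - s) : ℝ) : ℂ)))
    rw [norm_mul, norm_real, norm_real, Real.norm_of_nonneg hΔ, Real.norm_eq_abs] at h3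
    have h4 := le_abs_self (∫ t in t₁..t₁ + Δ, ‖Pn N (t + s) ξ‖ ^ 2)
    have h5 := mul_le_mul_of_nonneg_left h2 hΔ
    linarith
  have pr : ∫ t in t₁..t₁ + Δ, ‖Pn N t ξ‖ * ‖Pn N (t + a) ξ‖ ≤ Δ * K + O := by
    have h1 := sq 0
    have h2 := sq a
    simp only [add_zero] at h1
    have h3 : ∫ t in t₁..t₁ + Δ, ‖Pn N t ξ‖ * ‖Pn N (t + a) ξ‖ ≤
        ∫ t in t₁..t₁ + Δ, (1 / 2 : ℝ) * (‖Pn N t ξ‖ ^ 2 + ‖Pn N (t + a) ξ‖ ^ 2) := by
      refine intervalIntegral.integral_mono_on hle (Continuous.intervalIntegrable (by fun_prop) _ _)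
        (Continuous.intervalIntegrable (by fun_prop) _ _) fun t _ => ?_
      nlinarith [sq_nonneg (‖Pn N t ξ‖ - ‖Pn N (t + a) ξ‖)]
    rw [intervalIntegral.integral_const_mul, intervalIntegral.integral_add
      (Continuous.intervalIntegrable (by fun_prop) _ _)
      (Continuous.intervalIntegrable (by fun_prop) _ _)] at h3
    linarith
  have cc : Continuous fun t : ℝ => Pn N t ξ * (starRingEnd ℂ) (Pn N (t + a) ξ) :=
    c0.mul (continuous_conj.comp ca)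
  have mn : Δ * (z * (exp (I * ξ * a) * (Qs ξ : ℂ))).re - (Δ * (|a| * K + K / (1 + ρ)) + O) ≤
      ∫ t in t₁..t₁ + Δ,
        (z * (exp (I * ξ * a) * Pn N t ξ * (starRingEnd ℂ) (Pn N (t + a) ξ))).re := by
    have h := H N ξ 0 a t₁ (t₁ + Δ)
    simp only [add_zero, add_sub_cancel_left] at h
    set J := ∫ t in t₁..t₁ + Δ, Pn N t ξ * (starRingEnd ℂ) (Pn N (t + a) ξ) with hJ
    have e : ∫ t in t₁..t₁ + Δ,
        (z * (exp (I * ξ * a) * Pn N t ξ * (starRingEnd ℂ) (Pn N (t + a) ξ))).re =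
        (z * exp (I * ξ * a) * J).re := by
      rw [hJ, ← intervalIntegral.integral_const_mul]
      have := intervalIntegral.intervalIntegral_re (𝕜 := ℂ) (μ := MeasureTheory.volume)
        (a := t₁) (b := t₁ + Δ) (f := fun t : ℝ => z * exp (I * ξ * a) *
          (Pn N t ξ * (starRingEnd ℂ) (Pn N (t + a) ξ)))
        (Continuous.intervalIntegrable (continuous_const.mul cc) _ _)
      simp only [RCLike.re_to_complex] at this
      rw [← this]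
      congr 1
      ext t
      congr 1
      ring
    rw [e]
    have h1 := diag_sub_le hs hK (Finset.Icc 1 N) (0 - a)
    have h2 := tail_le hs hK N ρ hρ hN
    rw [zero_sub, abs_neg] at h1
    rw [zero_sub] at h
    set D := ∑ n ∈ Finset.Icc 1 N, (wt ξ n : ℂ) * exp (I * (((ξ - Real.log n) * -a : ℝ) : ℂ))
    set D₀ := ∑ n ∈ Finset.Icc 1 N, wt ξ n
    have h3 : ‖J - (Δ : ℂ) * (Qs ξ : ℂ)‖ ≤ Δ * (|a| * K + K / (1 + ρ)) + O := by
      have e3 : J - (Δ : ℂ) * (Qs ξ : ℂ) =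
          (Δ : ℂ) * ((D - (D₀ : ℂ)) + ((D₀ - Qs ξ : ℝ) : ℂ)) + (J - Δ * D) := by
        push_cast; ring
      rw [e3]
      refine (norm_add_le _ _).trans (add_le_add ?_ h)
      rw [norm_mul, norm_real, Real.norm_of_nonneg hΔ]
      gcongr
      refine (norm_add_le _ _).trans (add_le_add h1 ?_)
      rw [norm_real, Real.norm_eq_abs]
      exact h2
    have h4 : ‖z * exp (I * ξ * a) * (J - (Δ : ℂ) * (Qs ξ : ℂ))‖ ≤
        Δ * (|a| * K + K / (1 + ρ)) + O := by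
      rw [norm_mul, norm_mul]
      have : ‖exp (I * ξ * a)‖ = 1 := by
        rw [norm_exp]; simp
      rw [this, mul_one]
      calc _ ≤ 1 * ‖J - (Δ : ℂ) * (Qs ξ : ℂ)‖ := by gcongr
        _ ≤ _ := by rw [one_mul]; exact h3
    have h5 := (abs_le.1 ((abs_re_le_norm _).trans h4)).1
    have e5 : z * exp (I * ξ * a) * (J - (Δ : ℂ) * (Qs ξ : ℂ)) =
        z * exp (I * ξ * a) * J - (Δ : ℂ) * (z * (exp (I * ξ * a) * (Qs ξ : ℂ))) := by ring
    rw [e5, sub_re, re_ofReal_mul] at h5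
    linarith
  have cr : Continuous fun t : ℝ =>
      (z * (exp (I * ξ * a) * Pn N t ξ * (starRingEnd ℂ) (Pn N (t + a) ξ))).re :=
    continuous_re.comp (continuous_const.mul ((continuous_const.mul c0).mul
      (continuous_conj.comp ca)))
  rw [intervalIntegral.integral_sub (cr.intervalIntegrable _ _)
    (Continuous.intervalIntegrable (by fun_prop) _ _), intervalIntegral.integral_const_mul]
  have := mul_le_mul_of_nonneg_left pr hκ
  nlinarith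

lemma norm_integral_split (f : ℝ → ℂ) (hf : Continuous f) (M R η Λ : ℝ) (hR : 0 ≤ R)
    (hη : 0 ≤ η) (hΛ : 0 ≤ Λ) (hM : ∀ x, ‖f x‖ ≤ M) (hfar : ∀ x, R ≤ x → ‖f x‖ ≤ η) :
    ‖∫ x in (0 : ℝ)..Λ, f x‖ ≤ M * R + η * Λ := by
  have hM0 : 0 ≤ M := (norm_nonneg _).trans (hM 0)
  rcases le_total Λ R with h | h
  · have := intervalIntegral.norm_integral_le_of_norm_le_const (a := 0) (b := Λ) (f := f)
      fun x _ => hM x
    rw [sub_zero, abs_of_nonneg hΛ] at this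
    nlinarith [mul_le_mul_of_nonneg_left h hM0, mul_nonneg hη hΛ]
  · rw [← intervalIntegral.integral_add_adjacent_intervals (b := R) (hf.intervalIntegrable _ _)
      (hf.intervalIntegrable _ _)]
    have h1 := intervalIntegral.norm_integral_le_of_norm_le_const (a := 0) (b := R) (f := f)
      fun x _ => hM x
    have h2 := intervalIntegral.norm_integral_le_of_norm_le_const (a := R) (b := Λ) (f := f)
      (C := η) fun x hx => hfar x (by rw [Set.uIoc_of_le h] at hx; exact hx.1.le)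
    rw [sub_zero, abs_of_nonneg hR] at h1
    rw [abs_of_nonneg (by linarith)] at h2
    refine (norm_add_le _ _).trans ?_
    nlinarith [mul_nonneg hη hR]

end MeanB

end Pool.Agent.MP_ca0a54_nt.L0
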