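import Pool.Agent.MP_ca0a54_nt.L0.MeanB

/-!
The mean value estimate, given the limits of `Qs`.
-/

open Complex Filter Topology

namespace Pool.Agent.MP_ca0a54_nt.L0

namespace MeanC

open MeanA MeanB

/-- The integral of `exp (i ξ a) Qs ξ` over `[-A, Λ]` against `q` times the integral of
`exp (i ξ a)` over `[0, Λ]`. -/
lemma main_term (q K R η A Λ a : ℝ) (z : ℂ) (hq : 0 < q) (hc : Continuous Qs)
    (hK : ∀ ξ, |Qs ξ| ≤ K) (hR : 0 ≤ R) (hη : 0 ≤ η) (hA : 0 ≤ A) (hΛ : 0 ≤ Λ) (hz : ‖z‖ ≤ 1)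
    (h₁ : ∀ ξ, R ≤ ξ → |Qs ξ - q| ≤ η) (h₂ : ∀ ξ, R ≤ ξ → |Qs (-ξ)| ≤ η) :
    (z * q * ∫ ξ in (0 : ℝ)..Λ, exp (I * ξ * a)).re - (2 * ((K + q) * R) + η * (A + Λ)) ≤
      ∫ ξ in (-A)..Λ, (z * (exp (I * ξ * a) * (Qs ξ : ℂ))).re := by
  have hone : ∀ ξ : ℝ, ‖exp (I * ξ * a)‖ = 1 := by
    intro ξ
    rw [norm_exp]; simp
  have cQ : Continuous fun ξ : ℝ => exp (I * ξ * a) * (Qs ξ : ℂ) := by fun_prop
  have e := intervalIntegral.intervalIntegral_re (𝕜 := ℂ) (μ := MeasureTheory.volume)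
    (a := -A) (b := Λ) (f := fun ξ : ℝ => z * (exp (I * ξ * a) * (Qs ξ : ℂ)))
    (Continuous.intervalIntegrable (continuous_const.mul cQ) _ _)
  simp only [RCLike.re_to_complex] at e
  rw [e, intervalIntegral.integral_const_mul,
    ← intervalIntegral.integral_add_adjacent_intervals (b := 0) (cQ.intervalIntegrable _ _)
      (cQ.intervalIntegrable _ _)]
  have n1 : ‖∫ ξ in (-A)..0, exp (I * ξ * a) * (Qs ξ : ℂ)‖ ≤ (K + q) * R + η * A := by
    have e1 := intervalIntegral.integral_comp_neg (a := 0) (b := A)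
      (fun ξ : ℝ => exp (I * ξ * a) * (Qs ξ : ℂ))
    rw [neg_zero] at e1
    rw [← e1]
    refine norm_integral_split (fun x : ℝ => exp (I * ((-x : ℝ) : ℂ) * a) * (Qs (-x) : ℂ))
      (by fun_prop) _ _ _ _ hR hη hA (fun x => ?_) fun x hx => ?_
    · rw [norm_mul, hone, one_mul, norm_real, Real.norm_eq_abs]
      linarith [hK (-x)]
    · rw [norm_mul, hone, one_mul, norm_real, Real.norm_eq_abs]
      exact h₂ x hx
  have n2 : ‖(∫ ξ in (0 : ℝ)..Λ, exp (I * ξ * a) * (Qs ξ : ℂ)) -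
      q * ∫ ξ in (0 : ℝ)..Λ, exp (I * ξ * a)‖ ≤ (K + q) * R + η * Λ := by
    rw [← intervalIntegral.integral_const_mul, ← intervalIntegral.integral_sub
      (cQ.intervalIntegrable _ _) (Continuous.intervalIntegrable (by fun_prop) _ _)]
    have e2 : ∀ ξ : ℝ, ‖exp (I * ξ * a) * (Qs ξ : ℂ) - q * exp (I * ξ * a)‖ = |Qs ξ - q| := by
      intro ξ
      rw [mul_comm (q : ℂ), ← mul_sub, norm_mul, hone, one_mul, ← ofReal_sub, norm_real,
        Real.norm_eq_abs]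
    refine norm_integral_split _ (by fun_prop) _ _ _ _ hR hη hΛ (fun x => ?_) fun x hx => ?_
    · rw [e2]
      refine (abs_sub _ _).trans ?_
      rw [abs_of_pos hq]
      linarith [hK x]
    · rw [e2]
      exact h₁ x hx
  set X := ∫ ξ in (-A)..0, exp (I * ξ * a) * (Qs ξ : ℂ)
  set Y := ∫ ξ in (0 : ℝ)..Λ, exp (I * ξ * a) * (Qs ξ : ℂ)
  set Z := ∫ ξ in (0 : ℝ)..Λ, exp (I * ξ * a)
  have h3 : ‖z * (X + (Y - q * Z))‖ ≤ 2 * ((K + q) * R) + η * (A + Λ) := by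
    rw [norm_mul]
    calc _ ≤ 1 * ‖X + (Y - q * Z)‖ := by gcongr
      _ ≤ ‖X‖ + ‖Y - q * Z‖ := by rw [one_mul]; exact norm_add_le _ _
      _ ≤ _ := by linarith
  have h4 := (abs_le.1 ((abs_re_le_norm _).trans h3)).1
  have e3 : z * (X + (Y - q * Z)) = z * (X + Y) - z * q * Z := by ring
  rw [e3, sub_re] at h4
  linarith

lemma tendsto_err (ε : ℝ) (hε : 0 < ε) :
    Tendsto (fun T : ℝ => (1 + Real.log T) / T ^ ε) atTop (𝓝 0) := by
  have h1 : Tendsto (fun T : ℝ => 1 / T ^ ε) atTop (𝓝 0) :=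
    tendsto_const_nhds.div_atTop (tendsto_rpow_atTop hε)
  have h2 : Tendsto (fun T : ℝ => Real.log T / T ^ ε) atTop (𝓝 0) :=
    (isLittleO_log_rpow_atTop hε).tendsto_div_nhds_zero
  have := h1.add h2
  rw [add_zero] at this
  refine this.congr fun T => ?_
  ring

/-- Some value is at least the average. -/
lemma exists_ge_avg (G : ℝ → ℝ → ℝ) (cG : Continuous (Function.uncurry G)) (g : ℝ → ℝ)
    (cg : Continuous g) (t₁ Δ A B : ℝ) (hΔ : 0 < Δ) (hAB : A ≤ B)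
    (low : ∀ ξ ∈ Set.Icc A B, Δ * g ξ ≤ ∫ t in t₁..t₁ + Δ, G t ξ) :
    ∃ t ∈ Set.Icc t₁ (t₁ + Δ), ∫ ξ in A..B, g ξ ≤ ∫ ξ in A..B, G t ξ := by
  have cG' : Continuous (Function.uncurry fun ξ t => G t ξ) := cG.comp continuous_swap
  have h1 : ∫ ξ in A..B, Δ * g ξ ≤ ∫ ξ in A..B, ∫ t in t₁..t₁ + Δ, G t ξ :=
    intervalIntegral.integral_mono_on hAB
      (Continuous.intervalIntegrable (continuous_const.mul cg) _ _)
      (Continuous.intervalIntegrable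
        (intervalIntegral.continuous_parametric_intervalIntegral_of_continuous' cG' _ _) _ _) low
  have hcomp : IsCompact (Set.uIcc t₁ (t₁ + Δ) ×ˢ Set.uIcc A B) :=
    isCompact_uIcc.prod isCompact_uIcc
  rw [intervalIntegral.integral_const_mul, ← MeasureTheory.intervalIntegral_intervalIntegral_swap
    (F := G) ((cG.continuousOn.integrableOn_compact hcomp).mono_set
      (Set.prod_mono Set.uIoc_subset_uIcc Set.uIoc_subset_uIcc))] at h1
  have cF : Continuous fun t => ∫ ξ in A..B, G t ξ :=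
    intervalIntegral.continuous_parametric_intervalIntegral_of_continuous' cG _ _
  obtain ⟨t, ht, hmax⟩ := (isCompact_Icc (a := t₁) (b := t₁ + Δ)).exists_isMaxOn
    (Set.nonempty_Icc.2 (by linarith)) cF.continuousOn
  refine ⟨t, ht, ?_⟩
  have up : ∫ s in t₁..t₁ + Δ, ∫ ξ in A..B, G s ξ ≤ ∫ _ in t₁..t₁ + Δ, ∫ ξ in A..B, G t ξ :=
    intervalIntegral.integral_mono_on (by linarith) (cF.intervalIntegrable _ _)
      (Continuous.intervalIntegrable continuous_const _ _) fun s hs => hmax hs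
  rw [intervalIntegral.integral_const, smul_eq_mul, add_sub_cancel_left] at up
  exact le_of_mul_le_mul_left (h1.trans up) hΔ

lemma avg_step (P : ℝ → ℝ → ℂ) (c0 : Continuous fun p : ℝ × ℝ => P p.1 p.2) (g : ℝ → ℝ)
    (cg : Continuous g) (a κ t₁ Δ A B : ℝ) (z : ℂ) (hΔ : 0 < Δ) (hAB : A ≤ B)
    (low : ∀ ξ ∈ Set.Icc A B, Δ * g ξ ≤ ∫ t in t₁..t₁ + Δ,
      ((z * (exp (I * ξ * a) * P t ξ * (starRingEnd ℂ) (P (t + a) ξ))).re -
        κ * (‖P t ξ‖ * ‖P (t + a) ξ‖))) :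
    ∃ t ∈ Set.Icc t₁ (t₁ + Δ), ∫ ξ in A..B, g ξ ≤
      (z * ∫ ξ in A..B, exp (I * ξ * a) * P t ξ * (starRingEnd ℂ) (P (t + a) ξ)).re -
        κ * ∫ ξ in A..B, ‖P t ξ‖ * ‖P (t + a) ξ‖ := by
  have ca : Continuous fun p : ℝ × ℝ => P (p.1 + a) p.2 :=
    c0.comp (f := fun p : ℝ × ℝ => (p.1 + a, p.2)) (by fun_prop)
  have c1 : Continuous fun p : ℝ × ℝ =>
      exp (I * p.2 * a) * P p.1 p.2 * (starRingEnd ℂ) (P (p.1 + a) p.2) :=
    (Continuous.mul (by fun_prop) c0).mul (continuous_conj.comp ca)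
  have c2 : Continuous fun p : ℝ × ℝ => ‖P p.1 p.2‖ * ‖P (p.1 + a) p.2‖ :=
    c0.norm.mul ca.norm
  obtain ⟨t, ht, fin⟩ := exists_ge_avg (fun t ξ =>
    (z * (exp (I * ξ * a) * P t ξ * (starRingEnd ℂ) (P (t + a) ξ))).re -
      κ * (‖P t ξ‖ * ‖P (t + a) ξ‖))
    ((continuous_re.comp (continuous_const.mul c1)).sub (continuous_const.mul c2)) g cg
    t₁ Δ A B hΔ hAB low
  refine ⟨t, ht, fin.trans (le_of_eq ?_)⟩
  have d1 : Continuous fun ξ : ℝ =>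
      exp (I * ξ * a) * P t ξ * (starRingEnd ℂ) (P (t + a) ξ) :=
    c1.comp (f := fun ξ : ℝ => (t, ξ)) (by fun_prop)
  have d2 : Continuous fun ξ : ℝ => ‖P t ξ‖ * ‖P (t + a) ξ‖ :=
    c2.comp (f := fun ξ : ℝ => (t, ξ)) (by fun_prop)
  have d3 : Continuous fun ξ : ℝ =>
      (z * (exp (I * ξ * a) * P t ξ * (starRingEnd ℂ) (P (t + a) ξ))).re :=
    continuous_re.comp (continuous_const.mul d1)
  have d4 : Continuous fun ξ : ℝ => κ * (‖P t ξ‖ * ‖P (t + a) ξ‖) := continuous_const.mul d2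
  have e := intervalIntegral.intervalIntegral_re (𝕜 := ℂ) (μ := MeasureTheory.volume)
    (a := A) (b := B) (f := fun ξ : ℝ =>
      z * (exp (I * ξ * a) * P t ξ * (starRingEnd ℂ) (P (t + a) ξ)))
    (Continuous.intervalIntegrable (continuous_const.mul d1) _ _)
  simp only [RCLike.re_to_complex] at e
  rw [intervalIntegral.integral_sub (d3.intervalIntegrable _ _) (d4.intervalIntegrable _ _), e,
    intervalIntegral.integral_const_mul, intervalIntegral.integral_const_mul]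

theorem mean_value_of (hQ : ∃ q K : ℝ, 0 < q ∧ Tendsto Qs atTop (𝓝 q) ∧ Tendsto Qs atBot (𝓝 0) ∧
    Continuous Qs ∧ ∀ ξ : ℝ,
      Summable (fun n : ℕ => 1 / (n : ℝ) * Real.exp (-(ξ - Real.log n) ^ 2 / 2) *
        (1 + |ξ - Real.log n|)) ∧
      ∑' n : ℕ, 1 / (n : ℝ) * Real.exp (-(ξ - Real.log n) ^ 2 / 2) * (1 + |ξ - Real.log n|) ≤ K) :
    ∃ q : ℝ, 0 < q ∧ ∀ ε₁ K η : ℝ, 0 < ε₁ → ε₁ ≤ 1 → 0 ≤ K → 0 < η →
    ∃ T₀ : ℝ, ∀ T : ℝ, T₀ ≤ T → ∀ (a Λ t₁ : ℝ) (z : ℂ), 0 < a → a ≤ 10 / Real.log T → 0 ≤ Λ →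
      Λ ≤ (1 - ε₁) * Real.log T → ‖z‖ ≤ 1 → ∃ t ∈ Set.Icc t₁ (t₁ + T / 10),
        (z * q * ∫ ξ in (0 : ℝ)..Λ, exp (I * ξ * a)).re - η * Real.log T ≤
          (z * ∫ ξ in (-Real.log T / 2)..Λ, exp (I * ξ * a) * Pn ⌊T ^ (1 - ε₁ / 2)⌋₊ t ξ *
              (starRingEnd ℂ) (Pn ⌊T ^ (1 - ε₁ / 2)⌋₊ (t + a) ξ)).re -
            K / Real.log T * ∫ ξ in (-Real.log T / 2)..Λ,
              ‖Pn ⌊T ^ (1 - ε₁ / 2)⌋₊ t ξ‖ * ‖Pn ⌊T ^ (1 - ε₁ / 2)⌋₊ (t + a) ξ‖ := by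
  obtain ⟨q, K', hq, hT, hB, hc, hS⟩ := hQ
  have hS' : ∀ ξ, Summable (gt ξ) ∧ ∑' n, gt ξ n ≤ K' := hS
  have hQK : ∀ ξ, |Qs ξ| ≤ K' := fun ξ => norm_Qs_le (hS' ξ).1 (hS' ξ).2
  have hK' : 0 ≤ K' := (abs_nonneg _).trans (hQK 0)
  obtain ⟨K₀, hK₀, P⟩ := per_xi
  refine ⟨q, hq, fun ε₁ K η hε hε' hK hη => ?_⟩
  -- the range outside which `Qs` is close to its limits
  obtain ⟨R, hR, hR₁, hR₂⟩ : ∃ R : ℝ, 0 ≤ R ∧ (∀ ξ, R ≤ ξ → |Qs ξ - q| ≤ η / 6) ∧
      ∀ ξ, R ≤ ξ → |Qs (-ξ)| ≤ η / 6 := by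
    have h1 : ∀ᶠ ξ in atTop, |Qs ξ - q| ≤ η / 6 := by
      have := (Metric.tendsto_nhds.1 hT) (η / 6) (by positivity)
      filter_upwards [this] with ξ h
      rw [Real.dist_eq] at h
      exact h.le
    have h2 : ∀ᶠ ξ in atTop, |Qs (-ξ)| ≤ η / 6 := by
      have := (Metric.tendsto_nhds.1 (hB.comp tendsto_neg_atTop_atBot)) (η / 6) (by positivity)
      filter_upwards [this] with ξ h
      rw [Real.dist_eq, sub_zero] at h
      exact h.le
    obtain ⟨R, hR⟩ := eventually_atTop.1 (h1.and h2)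
    exact ⟨max R 0, le_max_right _ _, fun ξ h => (hR ξ ((le_max_left _ _).trans h)).1,
      fun ξ h => (hR ξ ((le_max_left _ _).trans h)).2⟩
  have hE : Tendsto (fun T : ℝ => (10 * K' + 2 * K' / ε₁ + K * K') / Real.log T +
      10 * K₀ * (1 + K) * ((1 + Real.log T) / T ^ (ε₁ / 2))) atTop (𝓝 0) := by
    have h1 : Tendsto (fun T : ℝ => (10 * K' + 2 * K' / ε₁ + K * K') / Real.log T) atTop (𝓝 0) :=
      tendsto_const_nhds.div_atTop Real.tendsto_log_atTop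
    have h2 := (tendsto_err (ε₁ / 2) (by positivity)).const_mul (10 * K₀ * (1 + K))
    have := h1.add h2
    simpa using this
  have ev1 := hE.eventually (ge_mem_nhds (show (0 : ℝ) < η / 6 by positivity))
  have ev2 := Real.tendsto_log_atTop.eventually_ge_atTop (max 1 (4 * ((K' + q) * R) / η))
  have ev3 := eventually_ge_atTop (1 : ℝ)
  obtain ⟨T₀, hT₀⟩ := eventually_atTop.1 (ev1.and (ev2.and ev3))
  refine ⟨T₀, fun T hT a Λ t₁ z ha ha' hΛ hΛ' hz => ?_⟩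
  obtain ⟨hE₁, hL, hT1⟩ := hT₀ T hT
  set L := Real.log T with hLdef
  have hL1 : 1 ≤ L := (le_max_left _ _).trans hL
  have hL0 : 0 < L := by linarith
  have hL2 : 4 * ((K' + q) * R) ≤ η * L := by
    have := (le_max_right _ _).trans hL
    rw [div_le_iff₀ hη] at this
    linarith
  have hT0 : 0 < T := by linarith
  set N := ⌊T ^ (1 - ε₁ / 2)⌋₊ with hN
  set Δ := T / 10 with hΔ
  have hΔ0 : 0 < Δ := by positivity
  set κ := K / L with hκ
  have hκ0 : 0 ≤ κ := by positivity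
  have hκK : κ ≤ K := div_le_self hK hL1
  have hNle : (N : ℝ) ≤ T ^ (1 - ε₁ / 2) := Nat.floor_le (by positivity)
  have hNT : (N : ℝ) ≤ T := by
    refine hNle.trans ?_
    calc T ^ (1 - ε₁ / 2) ≤ T ^ (1 : ℝ) := Real.rpow_le_rpow_of_exponent_le hT1 (by linarith)
      _ = T := Real.rpow_one T
  have hlogN : Real.log N ≤ L := by
    rcases Nat.eq_zero_or_pos N with h | h
    · rw [h]; simp [hL0.le]
    · exact Real.log_le_log (by exact_mod_cast h) hNT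
  have hlogN0 : 0 ≤ Real.log N := Real.log_natCast_nonneg N
  have hO : K₀ * N * (1 + Real.log N) * (1 + κ) ≤
      Δ * (10 * K₀ * (1 + K) * ((1 + L) / T ^ (ε₁ / 2))) := by
    have e : Δ * (10 * K₀ * (1 + K) * ((1 + L) / T ^ (ε₁ / 2))) =
        K₀ * T ^ (1 - ε₁ / 2) * (1 + L) * (1 + K) := by
      rw [Real.rpow_sub hT0, Real.rpow_one, hΔ]
      have : 0 < T ^ (ε₁ / 2) := by positivity
      field_simp
    rw [e]
    gcongr
  have hfar : ∀ ξ, ξ ≤ Λ → ∀ n : ℕ, N < n → ε₁ * L / 2 ≤ Real.log n - ξ := by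
    intro ξ hξ n hn
    have h1 : T ^ (1 - ε₁ / 2) ≤ (n : ℝ) := by
      have := Nat.lt_floor_add_one (T ^ (1 - ε₁ / 2))
      have h2 : ((N : ℝ) + 1) ≤ n := by exact_mod_cast hn
      linarith
    have h2 := Real.log_le_log (by positivity) h1
    rw [Real.log_rpow hT0] at h2
    nlinarith
  have hsmall : |a| * K' + K' / (1 + ε₁ * L / 2) + κ * K' ≤
      (10 * K' + 2 * K' / ε₁ + K * K') / L := by
    rw [abs_of_pos ha]
    have h1 : a * K' ≤ 10 / L * K' := by gcongr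
    have h2 : K' / (1 + ε₁ * L / 2) ≤ K' / (ε₁ * L / 2) := by
      gcongr
      linarith
    have e : (10 * K' + 2 * K' / ε₁ + K * K') / L =
        10 / L * K' + K' / (ε₁ * L / 2) + κ * K' := by
      rw [hκ]
      field_simp
    rw [e]
    linarith
  have hle : -L / 2 ≤ Λ := by linarith
  have cQ : Continuous fun ξ : ℝ => (z * (exp (I * ξ * a) * (Qs ξ : ℂ))).re := by fun_prop
  obtain ⟨t, ht, fin⟩ := avg_step (Pn N) (Pn_continuous N)
    (fun ξ : ℝ => (z * (exp (I * ξ * a) * (Qs ξ : ℂ))).re - η / 6) (cQ.sub continuous_const)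
    a κ t₁ Δ (-L / 2) Λ z hΔ0 hle (fun ξ hξ => by
      refine le_trans ?_ (P K' ξ (hS' ξ).1 (hS' ξ).2 N (ε₁ * L / 2) a κ t₁ Δ z (by positivity)
        (hfar ξ hξ.2) hκ0 hΔ0.le hz)
      have h2 := mul_le_mul_of_nonneg_left hsmall hΔ0.le
      have h3 := mul_le_mul_of_nonneg_left hE₁ hΔ0.le
      rw [mul_add] at h3
      rw [mul_sub]
      linarith)
  refine ⟨t, ht, le_trans ?_ fin⟩
  rw [intervalIntegral.integral_sub (cQ.intervalIntegrable _ _)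
    (Continuous.intervalIntegrable continuous_const _ _), intervalIntegral.integral_const,
    smul_eq_mul]
  have h2 := main_term q K' R (η / 6) (L / 2) Λ a z hq hc hQK hR (by positivity) (by positivity)
    hΛ hz hR₁ hR₂
  rw [← neg_div] at h2
  have h3 : Λ ≤ L := by nlinarith
  have h4 : η * Λ ≤ η * L := by gcongr
  linarith

end MeanC

end Pool.Agent.MP_ca0a54_nt.L0
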